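import Pool.Agent.L5helper17.UR.Gen
import Pool.Agent.L5helper17.RF.Fwd

/-!
# Approximation of a function by the Riesz means of its Dirichlet series
-/

set_option autoImplicit false

namespace Pool.Agent.L5helper17.UR

open Complex Filter Topology MeasureTheory Set
open Pool.Agent.Helper368_LD (vline_integrable vline_shift integrable_one_add_abs)
open Pool.Agent.L5helper17.RF (g1 g1_of_gt g1_cont hasMellin_g1' dn dn_ne wt sc)

lemma dn_low (m : ℕ) {δ : ℝ} (hδ : 0 < δ) {w : ℂ} (hw : ∀ i : ℕ, δ ≤ |w.re + i|) :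
    ((1 + |w.im|) / (1 + δ⁻¹)) ^ (m + 1) ≤ ‖dn m w‖ := by
  unfold dn
  rw [norm_prod]
  have hb' : 0 < δ⁻¹ := inv_pos.2 hδ
  have h0 : ∀ i : ℕ, (1 + |w.im|) / (1 + δ⁻¹) ≤ ‖w + (i : ℂ)‖ := by
    intro i
    have h1 := Complex.abs_re_le_norm (w + (i : ℂ))
    have h2 := Complex.abs_im_le_norm (w + (i : ℂ))
    simp only [add_re, natCast_re, add_im, natCast_im, add_zero] at h1 h2
    have h3 : δ ≤ ‖w + (i : ℂ)‖ := (hw i).trans h1
    rw [div_le_iff₀ (by positivity)]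
    have h4 : 1 ≤ ‖w + (i : ℂ)‖ * δ⁻¹ := by
      rw [← div_eq_mul_inv, le_div_iff₀ hδ]
      linarith
    linarith
  calc ((1 + |w.im|) / (1 + δ⁻¹)) ^ (m + 1) = ∏ _i ∈ Finset.range (m + 1), (1 + |w.im|) / (1 + δ⁻¹) := by
        rw [Finset.prod_const, Finset.card_range]
    _ ≤ _ := Finset.prod_le_prod (fun i _ => by positivity) (fun i _ => h0 i)

/-- the kernel -/
noncomputable def kw (m : ℕ) (t : ℝ) (w : ℂ) : ℂ := (t : ℂ) ^ (-w) * ((m.factorial : ℂ) / dn m w)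

lemma kw_bound (m : ℕ) {δ : ℝ} (hδ : 0 < δ) {t : ℝ} (ht : 0 < t) {w : ℂ} (hw : ∀ i : ℕ, δ ≤ |w.re + i|) :
    ‖kw m t w‖ ≤ t ^ (-w.re) * ((m.factorial : ℝ) * (1 + δ⁻¹) ^ (m + 1)) * (1 + |w.im|) ^ (-((m : ℝ) + 1)) := by
  unfold kw
  rw [norm_mul, norm_cpow_eq_rpow_re_of_pos ht, neg_re, norm_div, Complex.norm_natCast]
  have h1 := dn_low m hδ hw
  have hb' : 0 < δ⁻¹ := inv_pos.2 hδ
  have hpos : 0 < ((1 + |w.im|) / (1 + δ⁻¹)) ^ (m + 1) := by positivity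
  have h2 : (m.factorial : ℝ) / ‖dn m w‖ ≤ (m.factorial : ℝ) / ((1 + |w.im|) / (1 + δ⁻¹)) ^ (m + 1) :=
    div_le_div_of_nonneg_left (by positivity) hpos h1
  have h3 : (m.factorial : ℝ) / ((1 + |w.im|) / (1 + δ⁻¹)) ^ (m + 1) =
      ((m.factorial : ℝ) * (1 + δ⁻¹) ^ (m + 1)) * (1 + |w.im|) ^ (-((m : ℝ) + 1)) := by
    rw [Real.rpow_neg (by positivity), div_pow]
    have : (1 + |w.im|) ^ ((m : ℝ) + 1) = (1 + |w.im|) ^ (m + 1) := by
      rw [← Real.rpow_natCast]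
      push_cast
      rfl
    rw [this]
    field_simp
  calc t ^ (-w.re) * ((m.factorial : ℝ) / ‖dn m w‖) ≤ t ^ (-w.re) *
        (((m.factorial : ℝ) * (1 + δ⁻¹) ^ (m + 1)) * (1 + |w.im|) ^ (-((m : ℝ) + 1))) := by
        refine mul_le_mul_of_nonneg_left (h2.trans h3.le) (Real.rpow_nonneg ht.le _)
    _ = _ := by ring

lemma kw_diff (m : ℕ) {t : ℝ} (ht : 0 < t) {w : ℂ} (hw : ∀ i ≤ m, w + (i : ℂ) ≠ 0) : DifferentiableAt ℂ (kw m t) w := by
  have ht0 : (t : ℂ) ≠ 0 := by exact_mod_cast ht.ne'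
  have h7 : DifferentiableAt ℂ (dn m) w := by
    unfold dn
    exact DifferentiableAt.fun_finsetProd fun i _ => (differentiableAt_id.add_const _)
  have h6 : dn m w ≠ 0 := by
    unfold dn
    rw [Finset.prod_ne_zero_iff]
    intro i hi
    exact hw i (Nat.lt_succ_iff.1 (Finset.mem_range.1 hi))
  unfold kw
  exact (differentiableAt_id.neg.const_cpow (Or.inl ht0)).mul ((differentiableAt_const _).div h7 h6)

lemma g1_one (m : ℕ) {t : ℝ} (ht : 0 < t) (ht1 : t ≤ 1) : g1 1 m t = (((1 - t) ^ m : ℝ) : ℂ) := by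
  unfold g1
  rw [indicator_of_mem (show t ∈ Ioc (0 : ℝ) 1 from ⟨ht, ht1⟩)]
  unfold wt
  have h1 : ((1 : ℂ) - t) ^ m = ∑ i ∈ Finset.range (m + 1), (-(t : ℂ)) ^ i * 1 ^ (m - i) * (m.choose i : ℂ) := by
    rw [sub_eq_neg_add, add_pow]
  push_cast
  rw [h1]
  refine Finset.sum_congr rfl fun i _ => ?_
  rw [Polynomial.eval_one]
  unfold sc
  rw [neg_pow (t : ℂ) i]
  ring

/-- Mellin inversion -/
lemma inv {c : ℕ → ℂ} (hc : c 0 = 0) {m : ℕ} (hm : 1 ≤ m) {a : ℝ} (ha : 0 < a) {φ : ℂ → ℂ}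
    (hφc : Continuous fun y : ℝ => φ ((a : ℂ) + y * I)) {B : ℝ} (hφb : ∀ y : ℝ, ‖φ ((a : ℂ) + y * I)‖ ≤ B)
    (hs : ∀ y : ℝ, Summable fun n : ℕ => ‖c n * (n : ℂ) ^ (-((a : ℂ) + y * I))‖)
    (hD : ∀ y : ℝ, ∑' n : ℕ, c n * (n : ℂ) ^ (-((a : ℂ) + y * I)) = φ ((a : ℂ) + y * I)) {t : ℝ} (ht : 0 < t) :
    eg c m t = (1 / (2 * Real.pi) : ℝ) • ∫ y : ℝ, φ ((a : ℂ) + y * I) * kw m t ((a : ℂ) + y * I) := by
  have hre : ∀ y : ℝ, ((a : ℂ) + y * I).re = a := fun y => by simp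
  have him : ∀ y : ℝ, ((a : ℂ) + y * I).im = y := fun y => by simp
  have hB : 0 ≤ B := (norm_nonneg _).trans (hφb 0)
  have h1 : ∀ y : ℝ, mellin (eg c m) ((a : ℂ) + y * I) = φ ((a : ℂ) + y * I) * ((m.factorial : ℂ) / dn m ((a : ℂ) + y * I)) := by
    intro y
    rw [(hasMellin_eg hc (by omega) (by rw [hre]; exact ha) (hs y)).2, hD]
  have h2 : MellinConvergent (eg c m) (a : ℂ) := by
    have := (hasMellin_eg hc (m := m) (by omega) (w := (a : ℂ)) (by simpa using ha) (by simpa using hs 0)).1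
    exact this
  have hne : ∀ y : ℝ, ∀ i ≤ m, ((a : ℂ) + y * I) + (i : ℂ) ≠ 0 := fun y => dn_ne (by rw [hre]; exact ha)
  have hc1 : Continuous fun y : ℝ => kw m 1 ((a : ℂ) + y * I) := by
    rw [continuous_iff_continuousAt]
    intro v
    have h3 := (kw_diff m one_pos (hne v)).continuousAt
    have h4 : ContinuousAt (fun v : ℝ => ((a : ℂ) + v * I)) v := by fun_prop
    exact ContinuousAt.comp (g := kw m 1) (f := fun v : ℝ => ((a : ℂ) + v * I)) h3 h4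
  have hk1 : ∀ w : ℂ, kw m 1 w = (m.factorial : ℂ) / dn m w := by
    intro w
    unfold kw
    rw [ofReal_one, one_cpow, one_mul]
  have h3 : VerticalIntegrable (mellin (eg c m)) a := by
    unfold VerticalIntegrable
    simp only [h1]
    have h4 : Continuous fun y : ℝ => φ ((a : ℂ) + y * I) * ((m.factorial : ℂ) / dn m ((a : ℂ) + y * I)) := by
      simp only [hk1] at hc1
      exact hφc.mul hc1
    refine Integrable.mono' ((integrable_one_add_abs (p := 2) (by norm_num)).const_mul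
      (B * ((m.factorial : ℝ) * (1 + a⁻¹) ^ (m + 1)))) h4.aestronglyMeasurable (Eventually.of_forall fun y => ?_)
    rw [norm_mul]
    have h5 := kw_bound m ha one_pos (w := (a : ℂ) + y * I) (by
      intro i
      have : (0 : ℝ) ≤ i := Nat.cast_nonneg i
      rw [hre, abs_of_nonneg (by linarith)]
      linarith)
    rw [hk1, Real.one_rpow, one_mul, him] at h5
    have h6 : (1 + |y|) ^ (-((m : ℝ) + 1)) ≤ (1 + |y|) ^ (-(2 : ℝ)) := by
      apply Real.rpow_le_rpow_of_exponent_le (by linarith [abs_nonneg y])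
      have : (1 : ℝ) ≤ m := by exact_mod_cast hm
      linarith
    have ha' : 0 < a⁻¹ := inv_pos.2 ha
    calc ‖φ ((a : ℂ) + y * I)‖ * ‖(m.factorial : ℂ) / dn m ((a : ℂ) + y * I)‖ ≤
        B * ((m.factorial : ℝ) * (1 + a⁻¹) ^ (m + 1) * (1 + |y|) ^ (-(2 : ℝ))) := by
          refine mul_le_mul (hφb y) (h5.trans (mul_le_mul_of_nonneg_left h6 (by positivity))) (norm_nonneg _) hB
      _ = _ := by ring
  have h4 := mellinInv_mellin_eq a (eg c m) ht h2 h3 ((eg_cont hc (by omega)).continuousAt (Ioi_mem_nhds ht))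
  rw [← h4]
  unfold mellinInv
  congr 1
  refine integral_congr_ae (Eventually.of_forall fun y => ?_)
  simp only [h1, smul_eq_mul]
  unfold kw
  ring

end Pool.Agent.L5helper17.UR
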