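import Pool.Agent.L5helper17.UR.Cross

/-!
# The value of a function in terms of a Riesz mean and the values on a line to the left
-/

set_option autoImplicit false

namespace Pool.Agent.L5helper17.UR

open Complex Filter Topology MeasureTheory Set
open Pool.Agent.Helper368_LD (vline_integrable vline_shift integrable_one_add_abs)
open Pool.Agent.L5helper17.RF (g1 g1_of_gt g1_cont hasMellin_g1' dn dn_ne wt sc)

lemma abs_low {b δ : ℝ} (hδ : 0 < δ) (hb : δ ≤ b) (hb1 : b ≤ 1 - δ) (i : ℕ) : δ ≤ |-b + i| := by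
  rcases Nat.eq_zero_or_pos i with rfl | hi
  · simp only [Nat.cast_zero, add_zero, abs_neg]
    rw [abs_of_nonneg (by linarith)]
    exact hb
  · have : (1 : ℝ) ≤ i := by exact_mod_cast hi
    rw [abs_of_nonneg (by linarith)]
    linarith

/-- the constant -/
noncomputable def Cm (m : ℕ) (δ : ℝ) : ℝ := (m.factorial : ℝ) * (1 + δ⁻¹) ^ (m + 1)

lemma Cm_pos (m : ℕ) {δ : ℝ} (hδ : 0 < δ) : 0 < Cm m δ := by
  have : 0 < δ⁻¹ := inv_pos.2 hδ
  unfold Cm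
  positivity

lemma kw_bound_b (m : ℕ) {b δ t : ℝ} (hδ : 0 < δ) (hb : δ ≤ b) (hb1 : b ≤ 1 - δ) (ht : 0 < t) (y : ℝ) :
    ‖kw m t (((-b : ℝ) : ℂ) + y * I)‖ ≤ t ^ b * Cm m δ * (1 + |y|) ^ (-((m : ℝ) + 1)) := by
  have h1 := kw_bound m hδ ht (w := ((-b : ℝ) : ℂ) + y * I) (by
    intro i
    have e1 : (((-b : ℝ) : ℂ) + y * I).re = -b := by simp
    rw [e1]
    exact abs_low hδ hb hb1 i)
  have e1 : (((-b : ℝ) : ℂ) + y * I).re = -b := by simp
  have e2 : (((-b : ℝ) : ℂ) + y * I).im = y := by simp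
  rw [e1, e2, neg_neg] at h1
  exact h1

lemma kw_line_cont (m : ℕ) {t : ℝ} (ht : 0 < t) {r : ℝ} (hr : ∀ i : ℕ, r + i ≠ 0) :
    Continuous fun y : ℝ => kw m t ((r : ℂ) + y * I) := by
  rw [continuous_iff_continuousAt]
  intro v
  have h3 := (kw_diff m ht (w := (r : ℂ) + v * I) (fun i _ hi => hr i (by
    have := congrArg Complex.re hi
    simpa using this))).continuousAt
  have h4 : ContinuousAt (fun v : ℝ => ((r : ℂ) + v * I)) v := by fun_prop
  exact ContinuousAt.comp (g := kw m t) (f := fun v : ℝ => ((r : ℂ) + v * I)) h3 h4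

lemma pow_le_two {m : ℕ} (hm : 1 ≤ m) (y : ℝ) : (1 + |y|) ^ (-((m : ℝ) + 1)) ≤ (1 + |y|) ^ (-(2 : ℝ)) := by
  apply Real.rpow_le_rpow_of_exponent_le (by linarith [abs_nonneg y])
  have : (1 : ℝ) ≤ m := by exact_mod_cast hm
  linarith

theorem approx2 {δ : ℝ} (hδ : 0 < δ) {m : ℕ} (hm1 : 1 ≤ m) : ∃ t0 : ℝ, 0 < t0 ∧ t0 ≤ 1 ∧
    ∀ (c : ℕ → ℂ) (F : ℂ → ℂ) (a b Kf : ℝ) (N : ℕ) (t : ℝ), c 0 = 0 → Differentiable ℂ F → 0 < a → δ ≤ b →
      b ≤ 1 - δ → N + 2 ≤ m → (∀ w : ℂ, -b ≤ w.re → w.re ≤ a → ‖F w‖ ≤ Kf * (1 + |w.im|) ^ N) →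
      (∀ y : ℝ, Summable fun n : ℕ => ‖c n * (n : ℂ) ^ (-((a : ℂ) + y * I))‖) →
      (∀ y : ℝ, ∑' n : ℕ, c n * (n : ℂ) ^ (-((a : ℂ) + y * I)) = F ((a : ℂ) + y * I)) → 0 < t → t ≤ t0 →
      Integrable (fun y : ℝ => ‖F (((-b : ℝ) : ℂ) + y * I)‖ * (1 + |y|) ^ (-((m : ℝ) + 1))) ∧
      ‖F 0‖ ≤ 2 * ‖eg c m t‖ + 1 / Real.pi * Cm m δ * t ^ b *
        ∫ y : ℝ, ‖F (((-b : ℝ) : ℂ) + y * I)‖ * (1 + |y|) ^ (-((m : ℝ) + 1)) := by
  have hpi := Real.pi_pos
  have hCm := Cm_pos m hδ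
  set I2 : ℝ := ∫ y : ℝ, (1 + |y|) ^ (-(2 : ℝ)) with hI2
  have hI20 : 0 ≤ I2 := integral_nonneg fun y => by positivity
  set Kc : ℝ := 1 / (2 * Real.pi) * (Cm m δ * I2) with hKc
  have hKc0 : 0 ≤ Kc := by positivity
  -- choice of `t0`
  obtain ⟨t0, ht0, ht01, hlow⟩ : ∃ t0 : ℝ, 0 < t0 ∧ t0 ≤ 1 ∧ ∀ t : ℝ, 0 < t → t ≤ t0 → 1 / 2 ≤ (1 - t) ^ m - Kc * t ^ δ := by
    have h1 : Tendsto (fun t : ℝ => (1 - t) ^ m - Kc * t ^ δ) (𝓝[>] 0) (𝓝 1) := by
      have h2 : ContinuousAt (fun t : ℝ => (1 - t) ^ m - Kc * t ^ δ) 0 := by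
        refine ContinuousAt.sub (by fun_prop) (ContinuousAt.mul continuousAt_const ?_)
        exact Real.continuousAt_rpow_const _ _ (Or.inr hδ.le)
      have h3 : (1 - (0 : ℝ)) ^ m - Kc * (0 : ℝ) ^ δ = 1 := by
        simp [Real.zero_rpow hδ.ne']
      have h4 := h2.tendsto
      rw [h3] at h4
      exact h4.mono_left nhdsWithin_le_nhds
    have h5 : ∀ᶠ t : ℝ in 𝓝[>] 0, 1 / 2 < (1 - t) ^ m - Kc * t ^ δ := h1.eventually_const_lt (by norm_num)
    obtain ⟨u, hu, hu2⟩ := mem_nhdsGT_iff_exists_Ioc_subset.1 h5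
    have hu' : (0 : ℝ) < u := hu
    refine ⟨min u 1, lt_min hu' one_pos, min_le_right _ _, fun t h6 h7 => ?_⟩
    have h8 : t ∈ Ioc (0 : ℝ) u := ⟨h6, h7.trans (min_le_left _ _)⟩
    exact le_of_lt (hu2 h8)
  refine ⟨t0, ht0, ht01, fun c F a b Kf N t hc hF ha hb hb1 hm hK hs hD ht htt => ?_⟩
  have ht1 : t ≤ 1 := htt.trans ht01
  have hb0 : 0 < b := by linarith
  have hrb : ∀ i : ℕ, -b + (i : ℝ) ≠ 0 := by
    intro i hi
    have := abs_low hδ hb hb1 i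
    rw [hi, abs_zero] at this
    linarith
  have hra : ∀ i : ℕ, a + (i : ℝ) ≠ 0 := by
    intro i hi
    have : (0 : ℝ) ≤ i := Nat.cast_nonneg i
    linarith
  have hreb : ∀ y : ℝ, (((-b : ℝ) : ℂ) + y * I).re = -b := fun y => by simp
  have himb : ∀ y : ℝ, (((-b : ℝ) : ℂ) + y * I).im = y := fun y => by simp
  have hrea : ∀ y : ℝ, ((a : ℂ) + y * I).re = a := fun y => by simp
  have hima : ∀ y : ℝ, ((a : ℂ) + y * I).im = y := fun y => by simp
  have hcr : ∀ r : ℝ, Continuous fun y : ℝ => F ((r : ℂ) + y * I) := fun r => hF.continuous.comp (by fun_prop)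
  -- integrability
  have hKf : 0 ≤ Kf := by
    have h1 := hK 0 (by simp; linarith) (by simpa using ha.le)
    simp only [zero_im, abs_zero, add_zero, one_pow, mul_one] at h1
    exact (norm_nonneg _).trans h1
  have hpw : ∀ y : ℝ, (1 + |y|) ^ N * (1 + |y|) ^ (-((m : ℝ) + 1)) ≤ (1 + |y|) ^ (-(2 : ℝ)) := by
    intro y
    rw [← Real.rpow_natCast, ← Real.rpow_add (by positivity)]
    apply Real.rpow_le_rpow_of_exponent_le (by linarith [abs_nonneg y])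
    have h10 : (N : ℝ) + 2 ≤ m := by exact_mod_cast hm
    linarith
  have hcw : Continuous fun y : ℝ => (1 + |y|) ^ (-((m : ℝ) + 1)) := by
    refine Continuous.rpow_const (by fun_prop) fun y => Or.inl ?_
    have := abs_nonneg y
    linarith
  have hint : Integrable (fun y : ℝ => ‖F (((-b : ℝ) : ℂ) + y * I)‖ * (1 + |y|) ^ (-((m : ℝ) + 1))) := by
    refine Integrable.mono' ((integrable_one_add_abs (p := 2) (by norm_num)).const_mul Kf)
      (((hcr (-b)).norm.mul hcw).aestronglyMeasurable) (Eventually.of_forall fun y => ?_)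
    have h1 := hK (((-b : ℝ) : ℂ) + y * I) (by rw [hreb]) (by rw [hreb]; linarith)
    rw [himb] at h1
    rw [norm_mul, norm_norm, Real.norm_of_nonneg (by positivity)]
    calc ‖F (((-b : ℝ) : ℂ) + y * I)‖ * (1 + |y|) ^ (-((m : ℝ) + 1)) ≤
        (Kf * (1 + |y|) ^ N) * (1 + |y|) ^ (-((m : ℝ) + 1)) := mul_le_mul_of_nonneg_right h1 (by positivity)
      _ = Kf * ((1 + |y|) ^ N * (1 + |y|) ^ (-((m : ℝ) + 1))) := by ring
      _ ≤ Kf * (1 + |y|) ^ (-(2 : ℝ)) := mul_le_mul_of_nonneg_left (hpw y) hKf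
  refine ⟨hint, ?_⟩
  -- the four integrals
  have hJbi : Integrable fun y : ℝ => kw m t (((-b : ℝ) : ℂ) + y * I) := by
    refine Integrable.mono' ((integrable_one_add_abs (p := 2) (by norm_num)).const_mul (t ^ b * Cm m δ))
      ((kw_line_cont m ht hrb).aestronglyMeasurable) (Eventually.of_forall fun y => ?_)
    refine (kw_bound_b m hδ hb hb1 ht y).trans ?_
    exact mul_le_mul_of_nonneg_left (pow_le_two hm1 y) (by positivity)
  have hIbi : Integrable fun y : ℝ => F (((-b : ℝ) : ℂ) + y * I) * kw m t (((-b : ℝ) : ℂ) + y * I) := by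
    refine Integrable.mono' (hint.const_mul (t ^ b * Cm m δ))
      (((hcr (-b)).mul (kw_line_cont m ht hrb)).aestronglyMeasurable) (Eventually.of_forall fun y => ?_)
    rw [norm_mul]
    calc ‖F (((-b : ℝ) : ℂ) + y * I)‖ * ‖kw m t (((-b : ℝ) : ℂ) + y * I)‖ ≤
        ‖F (((-b : ℝ) : ℂ) + y * I)‖ * (t ^ b * Cm m δ * (1 + |y|) ^ (-((m : ℝ) + 1))) :=
          mul_le_mul_of_nonneg_left (kw_bound_b m hδ hb hb1 ht y) (norm_nonneg _)
      _ = _ := by ring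
  have hkwa : ∀ y : ℝ, ‖kw m t ((a : ℂ) + y * I)‖ ≤ t ^ (-a) * Cm m a * (1 + |y|) ^ (-((m : ℝ) + 1)) := by
    intro y
    have h1 := kw_bound m ha ht (w := (a : ℂ) + y * I) (by
      intro i
      have : (0 : ℝ) ≤ i := Nat.cast_nonneg i
      rw [hrea, abs_of_nonneg (by linarith)]
      linarith)
    rw [hrea, hima] at h1
    exact h1
  have hCa := Cm_pos m ha
  have hJai : Integrable fun y : ℝ => kw m t ((a : ℂ) + y * I) := by
    refine Integrable.mono' ((integrable_one_add_abs (p := 2) (by norm_num)).const_mul (t ^ (-a) * Cm m a))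
      ((kw_line_cont m ht hra).aestronglyMeasurable) (Eventually.of_forall fun y => ?_)
    refine (hkwa y).trans ?_
    exact mul_le_mul_of_nonneg_left (pow_le_two hm1 y) (by positivity)
  have hIai : Integrable fun y : ℝ => F ((a : ℂ) + y * I) * kw m t ((a : ℂ) + y * I) := by
    refine Integrable.mono' ((integrable_one_add_abs (p := 2) (by norm_num)).const_mul (Kf * (t ^ (-a) * Cm m a)))
      (((hcr a).mul (kw_line_cont m ht hra)).aestronglyMeasurable) (Eventually.of_forall fun y => ?_)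
    have h1 := hK ((a : ℂ) + y * I) (by rw [hrea]; linarith) (by rw [hrea])
    rw [hima] at h1
    rw [norm_mul]
    calc ‖F ((a : ℂ) + y * I)‖ * ‖kw m t ((a : ℂ) + y * I)‖ ≤
        (Kf * (1 + |y|) ^ N) * (t ^ (-a) * Cm m a * (1 + |y|) ^ (-((m : ℝ) + 1))) :=
          mul_le_mul h1 (hkwa y) (norm_nonneg _) (by positivity)
      _ = (Kf * (t ^ (-a) * Cm m a)) * ((1 + |y|) ^ N * (1 + |y|) ^ (-((m : ℝ) + 1))) := by ring
      _ ≤ (Kf * (t ^ (-a) * Cm m a)) * (1 + |y|) ^ (-(2 : ℝ)) := mul_le_mul_of_nonneg_left (hpw y) (by positivity)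
  have hcr1 := cross hF ha hδ hb hb1 hm hK ht ht1
  simp only [sub_mul] at hcr1
  rw [integral_sub hIai (hJai.const_mul _), integral_sub hIbi (hJbi.const_mul _), integral_const_mul,
    integral_const_mul] at hcr1
  -- Mellin inversion
  have hE := inv hc hm1 ha (φ := F) (hcr a) (B := ∑' n : ℕ, ‖c n * (n : ℂ) ^ (-((a : ℂ) + (0 : ℝ) * I))‖) (fun y => by
    rw [← hD y]
    refine (norm_tsum_le_tsum_norm (hs y)).trans (le_of_eq ?_)
    refine tsum_congr fun n => ?_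
    rcases Nat.eq_zero_or_pos n with rfl | hn
    · rw [hc, zero_mul, zero_mul]
    · rw [norm_mul, norm_mul, Complex.norm_natCast_cpow_of_pos hn, Complex.norm_natCast_cpow_of_pos hn]
      simp) hs hD ht
  have hG := inv (c := fun n => if n = 1 then 1 else 0) (by simp) hm1 ha (φ := fun _ => 1) continuous_const (B := 1)
    (fun y => by simp) (fun y => by
      refine summable_of_ne_finset_zero (s := {1}) fun n hn => ?_
      rw [Finset.mem_singleton] at hn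
      simp [hn]) (fun y => by
      rw [tsum_eq_single 1 fun n hn => by simp [hn]]
      simp) ht
  have hg : eg (fun n => if n = 1 then 1 else 0) m t = (((1 - t) ^ m : ℝ) : ℂ) := by
    unfold eg
    rw [tsum_eq_single 1 fun n hn => by simp [hn]]
    simp only [if_true, one_mul, Nat.cast_one]
    exact g1_one m ht ht1
  rw [hg] at hG
  simp only [one_mul] at hG
  -- the inequality
  set Ia := ∫ y : ℝ, F ((a : ℂ) + y * I) * kw m t ((a : ℂ) + y * I) with hIa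
  set Ja := ∫ y : ℝ, kw m t ((a : ℂ) + y * I) with hJa
  set Ib := ∫ y : ℝ, F (((-b : ℝ) : ℂ) + y * I) * kw m t (((-b : ℝ) : ℂ) + y * I) with hIb
  set Jb := ∫ y : ℝ, kw m t (((-b : ℝ) : ℂ) + y * I) with hJb
  have h1 : F 0 * (((1 / (2 * Real.pi) : ℝ) : ℂ) * Ja - ((1 / (2 * Real.pi) : ℝ) : ℂ) * Jb) =
      ((1 / (2 * Real.pi) : ℝ) : ℂ) * Ia - ((1 / (2 * Real.pi) : ℝ) : ℂ) * Ib := by
    linear_combination (-((1 / (2 * Real.pi) : ℝ) : ℂ)) * hcr1
  rw [Complex.real_smul] at hE hG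
  rw [← hE, ← hG] at h1
  have hJb1 : ‖((1 / (2 * Real.pi) : ℝ) : ℂ) * Jb‖ ≤ Kc * t ^ δ := by
    rw [norm_mul, Complex.norm_real, Real.norm_of_nonneg (by positivity)]
    have h2 : ‖Jb‖ ≤ t ^ δ * Cm m δ * I2 := by
      rw [hI2, ← integral_const_mul]
      refine norm_integral_le_of_norm_le ((integrable_one_add_abs (by norm_num)).const_mul _)
        (Eventually.of_forall fun y => ?_)
      refine (kw_bound_b m hδ hb hb1 ht y).trans ?_
      have h3 : t ^ b ≤ t ^ δ := Real.rpow_le_rpow_of_exponent_ge ht ht1 hb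
      exact mul_le_mul (mul_le_mul_of_nonneg_right h3 hCm.le) (pow_le_two hm1 y) (by positivity) (by positivity)
    calc 1 / (2 * Real.pi) * ‖Jb‖ ≤ 1 / (2 * Real.pi) * (t ^ δ * Cm m δ * I2) :=
          mul_le_mul_of_nonneg_left h2 (by positivity)
      _ = Kc * t ^ δ := by rw [hKc]; ring
  have h2 : 1 / 2 ≤ ‖(((1 - t) ^ m : ℝ) : ℂ) - ((1 / (2 * Real.pi) : ℝ) : ℂ) * Jb‖ := by
    have h3 := norm_sub_norm_le (((1 - t) ^ m : ℝ) : ℂ) (((1 / (2 * Real.pi) : ℝ) : ℂ) * Jb)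
    rw [Complex.norm_real, Real.norm_of_nonneg (pow_nonneg (by linarith) m)] at h3
    have h4 := hlow t ht htt
    linarith
  have h3 : ‖F 0‖ * (1 / 2) ≤ ‖eg c m t‖ + ‖((1 / (2 * Real.pi) : ℝ) : ℂ) * Ib‖ := by
    calc ‖F 0‖ * (1 / 2) ≤ ‖F 0‖ * ‖(((1 - t) ^ m : ℝ) : ℂ) - ((1 / (2 * Real.pi) : ℝ) : ℂ) * Jb‖ :=
          mul_le_mul_of_nonneg_left h2 (norm_nonneg _)
      _ = ‖eg c m t - ((1 / (2 * Real.pi) : ℝ) : ℂ) * Ib‖ := by rw [← norm_mul, h1]
      _ ≤ _ := norm_sub_le _ _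
  have h4 : ‖((1 / (2 * Real.pi) : ℝ) : ℂ) * Ib‖ ≤ 1 / (2 * Real.pi) * (t ^ b * Cm m δ *
      ∫ y : ℝ, ‖F (((-b : ℝ) : ℂ) + y * I)‖ * (1 + |y|) ^ (-((m : ℝ) + 1))) := by
    rw [norm_mul, Complex.norm_real, Real.norm_of_nonneg (by positivity : 0 ≤ 1 / (2 * Real.pi))]
    refine mul_le_mul_of_nonneg_left ?_ (by positivity)
    rw [← integral_const_mul]
    refine norm_integral_le_of_norm_le (hint.const_mul _) (Eventually.of_forall fun y => ?_)
    rw [norm_mul]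
    calc ‖F (((-b : ℝ) : ℂ) + y * I)‖ * ‖kw m t (((-b : ℝ) : ℂ) + y * I)‖ ≤
        ‖F (((-b : ℝ) : ℂ) + y * I)‖ * (t ^ b * Cm m δ * (1 + |y|) ^ (-((m : ℝ) + 1))) :=
          mul_le_mul_of_nonneg_left (kw_bound_b m hδ hb hb1 ht y) (norm_nonneg _)
      _ = _ := by ring
  have h5 : 2 * (1 / (2 * Real.pi) * (t ^ b * Cm m δ *
      ∫ y : ℝ, ‖F (((-b : ℝ) : ℂ) + y * I)‖ * (1 + |y|) ^ (-((m : ℝ) + 1)))) = 1 / Real.pi * Cm m δ * t ^ b *
      ∫ y : ℝ, ‖F (((-b : ℝ) : ℂ) + y * I)‖ * (1 + |y|) ^ (-((m : ℝ) + 1)) := by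
    generalize (∫ y : ℝ, ‖F (((-b : ℝ) : ℂ) + y * I)‖ * (1 + |y|) ^ (-((m : ℝ) + 1))) = J
    field_simp
  linarith

end Pool.Agent.L5helper17.UR
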