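import Mathlib

/-!
# A convexity lemma: the vertices of `{u ∈ [0, 1/2]^k : 2 ∑ u ≤ c}`
-/

set_option autoImplicit false

namespace Pool.Agent.L5helper17.UR

variable {k : ℕ}

/-- the vertex of a set of indices -/
noncomputable def vx (I : Finset (Fin k)) : Fin k → ℝ := fun j => if j ∈ I then 1 / 2 else 0

/-- the fractional indices -/
noncomputable def frc (u : Fin k → ℝ) : Finset (Fin k) := Finset.univ.filter fun j => 0 < u j ∧ u j < 1 / 2

lemma mem_frc {u : Fin k → ℝ} {j : Fin k} : j ∈ frc u ↔ 0 < u j ∧ u j < 1 / 2 := by simp [frc]

lemma sum_update (u : Fin k → ℝ) (i : Fin k) (x : ℝ) : ∑ j, Function.update u i x j = ∑ j, u j - u i + x := by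
  rw [Finset.sum_update_of_mem (Finset.mem_univ i), ← Finset.add_sum_erase _ u (Finset.mem_univ i), Finset.sdiff_singleton_eq_erase]
  ring

theorem hyper_le {D : Set (Fin k → ℝ)} (hD : Convex ℝ D) {c : ℕ} (hv : ∀ I : Finset (Fin k), I.card ≤ c → vx I ∈ D) :
    ∀ (n : ℕ) (u : Fin k → ℝ), (frc u).card = n → (∀ j, 0 ≤ u j) → (∀ j, u j ≤ 1 / 2) → 2 * ∑ j, u j ≤ c → u ∈ D := by
  classical
  intro n
  induction n using Nat.strong_induction_on with
  | _ n ih =>
    intro u hn h0 h1 hs
    -- the integer coordinates
    have hint : ∀ j ∉ frc u, u j = if u j = 1 / 2 then 1 / 2 else 0 := by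
      intro j hj
      by_cases h : u j = 1 / 2
      · rw [if_pos h]; exact h
      · rw [if_neg h]
        have h2 := h0 j
        have h3 := lt_of_le_of_ne (h1 j) h
        rcases eq_or_lt_of_le h2 with h4 | h4
        · exact h4.symm
        · exact absurd (mem_frc.2 ⟨h4, h3⟩) hj
    rcases (frc u).eq_empty_or_nonempty with he | ⟨i, hi⟩
    · -- a vertex
      set I := Finset.univ.filter fun j => u j = 1 / 2 with hI
      have hu : u = vx I := by
        funext j
        unfold vx
        have h2 := hint j (by rw [he]; simp)
        by_cases h : u j = 1 / 2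
        · rw [if_pos (by simp [hI, h])]; exact h
        · rw [if_neg (by rw [hI, Finset.mem_filter]; exact fun hc => h hc.2)]
          rwa [if_neg h] at h2
      rw [hu]
      refine hv I ?_
      have h3 : 2 * ∑ j, u j = I.card := by
        rw [hu]
        simp only [vx]
        rw [Finset.sum_ite_mem, Finset.univ_inter, Finset.sum_const, nsmul_eq_mul]
        ring
      rw [h3] at hs
      exact_mod_cast hs
    · by_cases hone : ∃ i' ∈ frc u, i' ≠ i
      · -- two fractional coordinates
        obtain ⟨i', hi', hne⟩ := hone
        obtain ⟨a1, a2⟩ := mem_frc.1 hi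
        obtain ⟨b1, b2⟩ := mem_frc.1 hi'
        set α := min (u i) (1 / 2 - u i') with hα
        set β := min (u i') (1 / 2 - u i) with hβ
        have hα0 : 0 < α := lt_min a1 (by linarith)
        have hβ0 : 0 < β := lt_min b1 (by linarith)
        set v : ℝ → Fin k → ℝ := fun x j => if j = i then u i + x else if j = i' then u i' - x else u j with hv'
        have hvs : ∀ x, ∑ j, v x j = ∑ j, u j := by
          intro x
          have e : v x = Function.update (Function.update u i' (u i' - x)) i (u i + x) := by
            funext j
            simp only [hv', Function.update_apply]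
          rw [e, sum_update, sum_update, Function.update_of_ne hne.symm]
          ring
        have hsub : ∀ x, (v x i = 0 ∨ v x i = 1 / 2 ∨ v x i' = 0 ∨ v x i' = 1 / 2) → (frc (v x)).card < n := by
          intro x hx
          rw [← hn]
          refine Finset.card_lt_card ?_
          rw [Finset.ssubset_iff_of_subset]
          · rcases hx with hx | hx | hx | hx
            · exact ⟨i, hi, fun hc => by have := (mem_frc.1 hc).1; linarith⟩
            · exact ⟨i, hi, fun hc => by have := (mem_frc.1 hc).2; linarith⟩
            · exact ⟨i', hi', fun hc => by have := (mem_frc.1 hc).1; linarith⟩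
            · exact ⟨i', hi', fun hc => by have := (mem_frc.1 hc).2; linarith⟩
          · intro j hj
            by_cases hji : j = i
            · rw [hji]; exact hi
            · by_cases hji' : j = i'
              · rw [hji']; exact hi'
              · have := mem_frc.1 hj
                simp only [hv', if_neg hji, if_neg hji'] at this
                exact mem_frc.2 this
        have hvi : ∀ x, v x i = u i + x := fun x => by simp [hv']
        have hvi' : ∀ x, v x i' = u i' - x := fun x => by simp [hv', hne]
        have hvj : ∀ x j, j ≠ i → j ≠ i' → v x j = u j := fun x j h2 h3 => by simp [hv', h2, h3]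
        have hbd : ∀ x, -α ≤ x → x ≤ β → (∀ j, 0 ≤ v x j) ∧ ∀ j, v x j ≤ 1 / 2 := by
          intro x hx1 hx2
          have m1 : α ≤ u i := min_le_left _ _
          have m2 : α ≤ 1 / 2 - u i' := min_le_right _ _
          have m3 : β ≤ u i' := min_le_left _ _
          have m4 : β ≤ 1 / 2 - u i := min_le_right _ _
          constructor
          · intro j
            by_cases hji : j = i
            · rw [hji, hvi]; linarith
            · by_cases hji' : j = i'
              · rw [hji', hvi']; linarith
              · rw [hvj x j hji hji']; exact h0 j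
          · intro j
            by_cases hji : j = i
            · rw [hji, hvi]; linarith
            · by_cases hji' : j = i'
              · rw [hji', hvi']; linarith
              · rw [hvj x j hji hji']; exact h1 j
        have hA : v (-α) ∈ D := by
          obtain ⟨c1, c2⟩ := hbd (-α) le_rfl (by linarith)
          refine ih _ (hsub (-α) ?_) _ rfl c1 c2 (by rw [hvs]; exact hs)
          rw [hvi, hvi']
          rcases min_choice (u i) (1 / 2 - u i') with h | h
          · left; rw [hα, h]; ring
          · right; right; right; rw [hα, h]; ring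
        have hB : v β ∈ D := by
          obtain ⟨c1, c2⟩ := hbd β (by linarith) le_rfl
          refine ih _ (hsub β ?_) _ rfl c1 c2 (by rw [hvs]; exact hs)
          rw [hvi, hvi']
          rcases min_choice (u i') (1 / 2 - u i) with h | h
          · right; right; left; rw [hβ, h]; ring
          · right; left; rw [hβ, h]; ring
        have hcomb : u = (β / (α + β)) • v (-α) + (α / (α + β)) • v β := by
          funext j
          simp only [Pi.add_apply, Pi.smul_apply, smul_eq_mul]
          by_cases hji : j = i
          · rw [hji, hvi, hvi]; field_simp; ring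
          · by_cases hji' : j = i'
            · rw [hji', hvi', hvi']; field_simp; ring
            · rw [hvj _ j hji hji', hvj _ j hji hji']; field_simp; ring
        rw [hcomb]
        exact hD hA hB (by positivity) (by positivity) (by field_simp; ring)
      · -- one fractional coordinate
        push Not at hone
        obtain ⟨a1, a2⟩ := mem_frc.1 hi
        set I := Finset.univ.filter fun j => u j = 1 / 2 with hI
        have hiI : i ∉ I := by
          rw [hI, Finset.mem_filter]
          rintro ⟨_, h⟩
          linarith
        have hfr : ∀ j, j ≠ i → u j = if j ∈ I then 1 / 2 else 0 := by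
          intro j hj
          have h2 := hint j (fun hc => hj (hone j hc))
          by_cases h : u j = 1 / 2
          · rw [if_pos (by simp [hI, h])]; exact h
          · rw [if_neg (by rw [hI, Finset.mem_filter]; exact fun hc => h hc.2)]
            rwa [if_neg h] at h2
        have hsum : 2 * ∑ j, u j = I.card + 2 * u i := by
          have e : u = Function.update (vx I) i (u i) := by
            funext j
            by_cases hj : j = i
            · rw [hj, Function.update_self]
            · rw [Function.update_of_ne hj]
              exact hfr j hj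
          have e2 : ∑ j, u j = ∑ j, vx I j - vx I i + u i := by
            conv_lhs => rw [e]
            rw [sum_update]
          rw [e2]
          have e3 : vx I i = 0 := by simp [vx, hiI]
          have e4 : ∑ j, vx I j = I.card * (1 / 2) := by
            simp only [vx]
            rw [Finset.sum_ite_mem, Finset.univ_inter, Finset.sum_const, nsmul_eq_mul]
          rw [e3, e4]
          ring
        rw [hsum] at hs
        have hlt : I.card < c := by
          have : (I.card : ℝ) < c := by linarith
          exact_mod_cast this
        have hA : vx I ∈ D := hv I hlt.le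
        have hB : vx (insert i I) ∈ D := hv _ (by rw [Finset.card_insert_of_notMem hiI]; omega)
        have hcomb : u = (1 - 2 * u i) • vx I + (2 * u i) • vx (insert i I) := by
          funext j
          simp only [Pi.add_apply, Pi.smul_apply, smul_eq_mul, vx]
          by_cases hj : j = i
          · rw [hj, if_neg hiI, if_pos (Finset.mem_insert_self i I)]
            ring
          · rw [hfr j hj]
            by_cases hjI : j ∈ I
            · rw [if_pos hjI, if_pos (Finset.mem_insert_of_mem hjI)]
              ring
            · rw [if_neg hjI, if_neg (by rw [Finset.mem_insert]; push Not; exact ⟨hj, hjI⟩)]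
              ring
        rw [hcomb]
        exact hD hA hB (by linarith) (by linarith) (by ring)

/-- the vertices of `{u ∈ [0, 1/2]^k : 2 ∑ u ≤ c}` -/
theorem hyper_le' {D : Set (Fin k → ℝ)} (hD : Convex ℝ D) {c : ℕ} (hv : ∀ I : Finset (Fin k), I.card ≤ c → vx I ∈ D)
    {u : Fin k → ℝ} (h0 : ∀ j, 0 ≤ u j) (h1 : ∀ j, u j ≤ 1 / 2) (hs : 2 * ∑ j, u j ≤ c) : u ∈ D :=
  hyper_le hD hv _ u rfl h0 h1 hs

/-- the vertices of `{u ∈ [0, 1/2]^k : c ≤ 2 ∑ u}` -/
theorem hyper_ge {D : Set (Fin k → ℝ)} (hD : Convex ℝ D) {c : ℕ} (hv : ∀ I : Finset (Fin k), c ≤ I.card → vx I ∈ D)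
    {u : Fin k → ℝ} (h0 : ∀ j, 0 ≤ u j) (h1 : ∀ j, u j ≤ 1 / 2) (hs : c ≤ 2 * ∑ j, u j) : u ∈ D := by
  classical
  set D' : Set (Fin k → ℝ) := {v | (fun j => 1 / 2 - v j) ∈ D} with hD'
  have hD'c : Convex ℝ D' := by
    intro x hx y hy a b ha hb hab
    have h2 := hD hx hy ha hb hab
    have e : (fun j => 1 / 2 - (a • x + b • y) j) = a • (fun j => 1 / 2 - x j) + b • (fun j => 1 / 2 - y j) := by
      funext j
      simp only [Pi.add_apply, Pi.smul_apply, smul_eq_mul]
      linear_combination (-(1 / 2) : ℝ) * hab
    show (fun j => 1 / 2 - (a • x + b • y) j) ∈ D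
    rw [e]
    exact h2
  have hsumle : 2 * ∑ j, u j ≤ k := by
    have h3 : ∑ j, u j ≤ ∑ _j : Fin k, (1 / 2 : ℝ) := Finset.sum_le_sum fun j _ => h1 j
    rw [Finset.sum_const, Finset.card_univ, Fintype.card_fin, nsmul_eq_mul] at h3
    linarith
  have hck : c ≤ k := by
    have : (c : ℝ) ≤ k := hs.trans hsumle
    exact_mod_cast this
  have hv' : ∀ I : Finset (Fin k), I.card ≤ k - c → vx I ∈ D' := by
    intro I hI
    have h3 : c ≤ (Iᶜ).card := by
      rw [Finset.card_compl, Fintype.card_fin]
      omega
    have e : (fun j => 1 / 2 - vx I j) = vx Iᶜ := by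
      funext j
      unfold vx
      by_cases hj : j ∈ I
      · rw [if_pos hj, if_neg (by simpa using hj)]; ring
      · rw [if_neg hj, if_pos (by simpa using hj)]; ring
    show (fun j => 1 / 2 - vx I j) ∈ D
    rw [e]
    exact hv _ h3
  have h4 : (fun j => 1 / 2 - u j) ∈ D' := by
    refine hyper_le' hD'c hv' (fun j => by linarith [h1 j]) (fun j => by linarith [h0 j]) ?_
    rw [Finset.sum_sub_distrib, Finset.sum_const, Finset.card_univ, Fintype.card_fin, nsmul_eq_mul, Nat.cast_sub hck]
    linarith
  have h5 : (fun j => 1 / 2 - (1 / 2 - u j)) ∈ D := h4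
  have e : (fun j => 1 / 2 - (1 / 2 - u j)) = u := by
    funext j; ring
  rwa [e] at h5

end Pool.Agent.L5helper17.UR
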