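import Pool.Agent.L5helper17.UR.Reg
import Pool.Agent.L5helper17.UR.Hyper
import Pool.Agent.L5helper17.RF.Crit

/-!
# Assembly: the region of continuation
-/

set_option autoImplicit false

namespace Pool.Agent.L5helper17.UR

open Complex Filter Topology Set
open Pool.Agent.Q48.MDS
open Pool.Agent.L5helper5.LE (LBx)
open Pool.Agent.L5helper17.RF (rf rf_zero rf_mem rf_notMem rf_rf mp continuesTo_rf continuesTo_mp)

variable {k : ℕ}

lemma conv3 {E : Type*} [AddCommGroup E] [Module ℝ E] {D : Set E} (hD : Convex ℝ D) {x y z : E} (hx : x ∈ D)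
    (hy : y ∈ D) (hz : z ∈ D) {a b c : ℝ} (ha : 0 ≤ a) (hb : 0 ≤ b) (hc : 0 ≤ c) (h : a + b + c = 1) :
    a • x + b • y + c • z ∈ D := by
  have h1 := hD.sum_mem (t := Finset.univ) (w := ![a, b, c]) (z := ![x, y, z])
    (by intro i _; fin_cases i <;> simpa) (by rw [Fin.sum_univ_three]; simpa using h)
    (by intro i _; fin_cases i <;> simpa)
  rw [Fin.sum_univ_three] at h1
  simpa using h1

/-- the points of continuation in the coordinates `(w, 1 - s)`, closed -/
def DD (k M : ℕ) : Set (Fin (k + 1) → ℝ) :=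
  {y | ∀ δ : ℝ, 0 < δ → ContinuesTo k M (Fin.cons (y 0 + δ) (fun j : Fin k => 1 - y j.succ + δ))}

lemma DD_convex (k M : ℕ) : Convex ℝ (DD k M) := by
  intro x hx y hy a b ha hb hab δ hδ
  have h := convex_continuesTo k M (hx δ hδ) (hy δ hδ) ha hb hab
  have e : (Fin.cons ((a • x + b • y) 0 + δ) (fun j : Fin k => 1 - (a • x + b • y) j.succ + δ) : Fin (k + 1) → ℝ) =
      a • (Fin.cons (x 0 + δ) (fun j : Fin k => 1 - x j.succ + δ) : Fin (k + 1) → ℝ) +
        b • (Fin.cons (y 0 + δ) (fun j : Fin k => 1 - y j.succ + δ) : Fin (k + 1) → ℝ) := by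
    funext i
    refine Fin.cases ?_ (fun j => ?_) i
    · simp only [Pi.add_apply, Pi.smul_apply, smul_eq_mul, Fin.cons_zero]
      linear_combination (-δ) * hab
    · simp only [Pi.add_apply, Pi.smul_apply, smul_eq_mul, Fin.cons_succ]
      linear_combination (-(1 + δ)) * hab
  rw [e]
  exact h

lemma DD_down {M : ℕ} {y y' : Fin (k + 1) → ℝ} (hy : y ∈ DD k M) (h0 : y 0 ≤ y' 0)
    (h : ∀ j : Fin k, y' j.succ ≤ y j.succ) : y' ∈ DD k M := fun δ hδ => (hy δ hδ).up fun i => by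
  refine Fin.cases ?_ (fun j => ?_) i
  · simp only [Fin.cons_zero]; linarith
  · simp only [Fin.cons_succ]; linarith [h j]

lemma DD_vertex (M : ℕ) {a : ℝ} (ha : 0 ≤ a) (hL : LBx a) (I : Finset (Fin k)) :
    (Fin.cons (1 + ((I.card - 4 : ℕ) : ℝ) * a) (vx I) : Fin (k + 1) → ℝ) ∈ DD k M := by
  intro δ hδ
  refine vertex ha hL (I := I) ?_ ?_ ?_
  · simp only [Fin.cons_zero]; linarith
  · intro j hj
    simp only [Fin.cons_succ, vx, if_pos hj]; linarith
  · intro j hj
    simp only [Fin.cons_succ, vx, if_neg hj]; linarith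

section base

variable {M : ℕ} (hbase : ∀ p : Fin (k + 1) → ℝ, 1 / 2 < p 0 → (∀ j : Fin k, 1 < p j.succ) → ContinuesTo k M p)

include hbase

lemma DD_base : (Fin.cons (1 / 2) (fun _ => 0) : Fin (k + 1) → ℝ) ∈ DD k M := by
  intro δ hδ
  refine hbase _ ?_ fun j => ?_
  · simp only [Fin.cons_zero]; linarith
  · simp only [Fin.cons_succ]; linarith

lemma DD_single (i : Fin k) : (Fin.cons (3 / 4) (vx {i}) : Fin (k + 1) → ℝ) ∈ DD k M := by
  intro δ hδ
  set q : Fin (k + 1) → ℝ := Fin.cons (1 / 2 + δ / 2) (fun _ => 1 + δ / 2) with hq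
  have h1 : ContinuesTo k M q := by
    refine hbase _ ?_ fun j => ?_
    · simp only [hq, Fin.cons_zero]; linarith
    · simp only [hq, Fin.cons_succ]; linarith
  have h2 := continuesTo_mp h1 (J := {i}) (fun j _ => by simp only [hq, Fin.cons_succ]; linarith)
  refine h2.up fun l => ?_
  refine Fin.cases ?_ (fun j => ?_) l
  · simp only [mp, Fin.cons_zero, hq, Fin.cons_succ, Finset.sum_singleton]
    linarith
  · simp only [mp, Fin.cons_succ, hq, vx, Finset.mem_singleton]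
    split_ifs <;> linarith

end base

lemma cons_comb (a b x y : ℝ) (u v : Fin k → ℝ) :
    (Fin.cons (a * x + b * y) (a • u + b • v) : Fin (k + 1) → ℝ) = a • (Fin.cons x u : Fin (k + 1) → ℝ) + b • (Fin.cons y v : Fin (k + 1) → ℝ) := by
  funext i
  refine Fin.cases ?_ (fun j => ?_) i <;> simp

lemma DD_A (M : ℕ) {a : ℝ} (ha : 0 ≤ a) (hL : LBx a) {u : Fin k → ℝ} (h0 : ∀ j, 0 ≤ u j) (h1 : ∀ j, u j ≤ 1 / 2)
    (hs : 2 * ∑ j, u j ≤ 4) : (Fin.cons 1 u : Fin (k + 1) → ℝ) ∈ DD k M := by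
  have hD : Convex ℝ {u : Fin k → ℝ | (Fin.cons 1 u : Fin (k + 1) → ℝ) ∈ DD k M} := by
    intro x hx y hy a b ha hb hab
    have h2 := DD_convex k M hx hy ha hb hab
    rw [← cons_comb, mul_one, mul_one, hab] at h2
    exact h2
  refine hyper_le' hD (c := 4) (fun I hI => ?_) h0 h1 (by exact_mod_cast hs)
  have h3 := DD_vertex M ha hL I
  rw [Nat.sub_eq_zero_of_le hI] at h3
  simpa using h3

lemma DD_C (M : ℕ) {a : ℝ} (ha : 0 ≤ a) (hL : LBx a) {u : Fin k → ℝ} (h0 : ∀ j, 0 ≤ u j) (h1 : ∀ j, u j ≤ 1 / 2)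
    (hs : 4 ≤ 2 * ∑ j, u j) : (Fin.cons (1 + (2 * ∑ j, u j - 4) * a) u : Fin (k + 1) → ℝ) ∈ DD k M := by
  have hD : Convex ℝ {u : Fin k → ℝ | (Fin.cons (1 + (2 * ∑ j, u j - 4) * a) u : Fin (k + 1) → ℝ) ∈ DD k M} := by
    intro x hx y hy b c hb hc hbc
    have h2 := DD_convex k M hx hy hb hc hbc
    rw [← cons_comb] at h2
    have e : 1 + (2 * ∑ j, (b • x + c • y) j - 4) * a = b * (1 + (2 * ∑ j, x j - 4) * a) + c * (1 + (2 * ∑ j, y j - 4) * a) := by
      have e1 : ∑ j, (b • x + c • y) j = b * ∑ j, x j + c * ∑ j, y j := by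
        simp only [Pi.add_apply, Pi.smul_apply, smul_eq_mul]
        rw [Finset.sum_add_distrib, Finset.mul_sum, Finset.mul_sum]
      rw [e1]
      linear_combination (4 * a - 1) * hbc
    show (Fin.cons (1 + (2 * ∑ j, (b • x + c • y) j - 4) * a) (b • x + c • y) : Fin (k + 1) → ℝ) ∈ DD k M
    rw [e]
    exact h2
  refine hyper_ge hD (c := 4) (fun I hI => ?_) h0 h1 (by exact_mod_cast hs)
  have h3 := DD_vertex M ha hL I
  have e1 : 2 * ∑ j, vx I j = I.card := by
    simp only [vx]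
    rw [Finset.sum_ite_mem, Finset.univ_inter, Finset.sum_const, nsmul_eq_mul]
    ring
  have e2 : ((I.card - 4 : ℕ) : ℝ) = (I.card : ℝ) - 4 := by
    rw [Nat.cast_sub hI]; norm_num
  show (Fin.cons (1 + (2 * ∑ j, vx I j - 4) * a) (vx I) : Fin (k + 1) → ℝ) ∈ DD k M
  rw [e1, ← e2]
  exact h3

section mix

variable {M : ℕ} (hbase : ∀ p : Fin (k + 1) → ℝ, 1 / 2 < p 0 → (∀ j : Fin k, 1 < p j.succ) → ContinuesTo k M p)

include hbase

lemma DD_mix {a : ℝ} (ha : 0 ≤ a) (hL : LBx a) {v : Fin k → ℝ} (h0 : ∀ j, 0 ≤ v j) (h1 : ∀ j, v j ≤ 1 / 2)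
    (hs : 2 * ∑ j, v j ≤ 4) {x y : ℝ} (hx : 0 ≤ x) (hy : 0 ≤ y) (hxy : x + y ≤ 1) (i : Fin k) :
    (Fin.cons (1 / 2 + x / 2 + y / 4) (x • v + y • vx {i}) : Fin (k + 1) → ℝ) ∈ DD k M := by
  have h2 := conv3 (DD_convex k M) (DD_A M ha hL h0 h1 hs) (DD_single hbase i) (DD_base hbase) hx hy
    (show 0 ≤ 1 - x - y by linarith) (by ring)
  have e : (Fin.cons (1 / 2 + x / 2 + y / 4) (x • v + y • vx {i}) : Fin (k + 1) → ℝ) =
      x • (Fin.cons 1 v : Fin (k + 1) → ℝ) + y • (Fin.cons (3 / 4) (vx {i}) : Fin (k + 1) → ℝ) +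
        (1 - x - y) • (Fin.cons (1 / 2) (fun _ => 0) : Fin (k + 1) → ℝ) := by
    funext l
    refine Fin.cases ?_ (fun j => ?_) l
    · simp only [Pi.add_apply, Pi.smul_apply, smul_eq_mul, Fin.cons_zero]; ring
    · simp only [Pi.add_apply, Pi.smul_apply, smul_eq_mul, Fin.cons_succ]; ring
  rw [e]
  exact h2

lemma DD_lam {a : ℝ} (ha : 0 ≤ a) (hL : LBx a) {u : Fin k → ℝ} (h0 : ∀ j, 0 ≤ u j) {w x y : ℝ} (hx : 0 ≤ x)
    (hy : 0 ≤ y) (hxy : x + y ≤ 1) (i : Fin k) (c1 : ∀ j, j ≠ i → 2 * u j ≤ x) (c2 : 2 * u i ≤ x + y)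
    (c3 : y ≤ 2 * u i) (c4 : 2 * ∑ j, u j - y ≤ 4 * x) (c5 : 1 / 2 + x / 2 + y / 4 ≤ w) :
    (Fin.cons w u : Fin (k + 1) → ℝ) ∈ DD k M := by
  classical
  rcases eq_or_lt_of_le hx with hx0 | hx0
  · subst hx0
    have h2 := DD_mix hbase ha hL (v := fun _ => 0) (fun _ => le_rfl) (fun _ => by norm_num) (by simp) le_rfl hy hxy i
    refine DD_down h2 ?_ fun j => ?_
    · simp only [Fin.cons_zero]; linarith
    · simp only [Fin.cons_succ, Pi.add_apply, Pi.smul_apply, smul_eq_mul, vx, Finset.mem_singleton]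
      by_cases hj : j = i
      · subst hj
        rw [if_pos rfl]; linarith
      · rw [if_neg hj]; linarith [c1 j hj]
  · set v : Fin k → ℝ := fun j => (u j - (if j = i then y / 2 else 0)) / x with hv
    have hv0 : ∀ j, 0 ≤ v j := by
      intro j
      simp only [hv]
      refine div_nonneg ?_ hx
      by_cases hj : j = i
      · subst hj
        rw [if_pos rfl]; linarith
      · rw [if_neg hj]; linarith [h0 j]
    have hv1 : ∀ j, v j ≤ 1 / 2 := by
      intro j
      simp only [hv]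
      rw [div_le_iff₀ hx0]
      by_cases hj : j = i
      · subst hj
        rw [if_pos rfl]; linarith
      · rw [if_neg hj]; linarith [c1 j hj]
    have hvs : 2 * ∑ j, v j ≤ 4 := by
      simp only [hv]
      rw [← Finset.sum_div, Finset.sum_sub_distrib, Finset.sum_ite_eq' Finset.univ i, if_pos (Finset.mem_univ i),
        mul_div_assoc', div_le_iff₀ hx0]
      linarith
    have h2 := DD_mix hbase ha hL hv0 hv1 hvs hx hy hxy i
    refine DD_down h2 ?_ fun j => ?_
    · simp only [Fin.cons_zero]; exact c5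
    · simp only [Fin.cons_succ, Pi.add_apply, Pi.smul_apply, smul_eq_mul, vx, Finset.mem_singleton, hv]
      rw [mul_div_cancel₀ _ hx0.ne']
      by_cases hj : j = i
      · subst hj
        rw [if_pos rfl, if_pos rfl]; linarith
      · rw [if_neg hj, if_neg hj]; linarith

end mix

/-- the conditions -/
def Good (a : ℝ) (u : Fin k → ℝ) (w : ℝ) : Prop :=
  (∑ j, u j < 2 → (∀ i j, i ≠ j → 1 / 2 + 1 / 2 * (u i + u j) < w) ∧ (∀ i, 1 / 2 + u i / 3 + (∑ j, u j) / 6 < w) ∧
    1 / 2 + (∑ j, u j) / 4 < w) ∧ (2 ≤ ∑ j, u j → 1 + (2 * ∑ j, u j - 4) * a < w)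

lemma Good.mono {a : ℝ} (ha : 0 ≤ a) {u u' : Fin k → ℝ} {w : ℝ} (h : Good a u w) (hh : ∀ j, u' j ≤ 1 / 2)
    (hu : ∀ j, u' j ≤ u j) : Good a u' w := by
  obtain ⟨h1, h4⟩ := h
  have hs : ∑ j, u' j ≤ ∑ j, u j := Finset.sum_le_sum fun j _ => hu j
  refine ⟨fun h => ?_, fun h => ?_⟩
  · rcases lt_or_ge (∑ j, u j) 2 with h5 | h5
    · obtain ⟨h1, h2, h3⟩ := h1 h5
      refine ⟨fun i j hij => ?_, fun i => ?_, ?_⟩
      · linarith [h1 i j hij, hu i, hu j]
      · linarith [h2 i, hu i]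
      · linarith
    · have h6 := h4 h5
      have h7 : 0 ≤ (2 * ∑ j, u j - 4) * a := mul_nonneg (by linarith) ha
      refine ⟨fun i j hij => ?_, fun i => ?_, ?_⟩
      · linarith [hh i, hh j]
      · linarith [hh i]
      · linarith
  · have h5 := h4 (h.trans hs)
    have : (2 * ∑ j, u' j - 4) * a ≤ (2 * ∑ j, u j - 4) * a := mul_le_mul_of_nonneg_right (by linarith) ha
    linarith

lemma ev_lt {f : ℝ → ℝ} (hf : Continuous f) {c : ℝ} (h : f 0 < c) : ∀ᶠ δ in 𝓝[>] (0 : ℝ), f δ < c :=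
  nhdsWithin_le_nhds ((hf.tendsto 0).eventually (gt_mem_nhds h))

lemma Good.shrink {a : ℝ} {u : Fin k → ℝ} {w : ℝ} (h : Good a u w) (c : ℝ) :
    ∀ᶠ δ in 𝓝[>] (0 : ℝ), Good a (fun j => u j + δ) (w - c * δ) := by
  obtain ⟨h1, h4⟩ := h
  have hsum : ∀ δ : ℝ, ∑ j, (u j + δ) = ∑ j, u j + k * δ := by
    intro δ
    rw [Finset.sum_add_distrib, Finset.sum_const, Finset.card_univ, Fintype.card_fin, nsmul_eq_mul]
  rcases lt_or_ge (∑ j, u j) 2 with hs | hs
  · obtain ⟨h1, h2, h3⟩ := h1 hs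
    have e1 : ∀ᶠ δ in 𝓝[>] (0 : ℝ), ∀ i j, i ≠ j → 1 / 2 + 1 / 2 * ((u i + δ) + (u j + δ)) + c * δ < w := by
      rw [eventually_all]
      intro i
      rw [eventually_all]
      intro j
      by_cases hij : i = j
      · exact Eventually.of_forall fun δ h => absurd hij h
      · have := ev_lt (f := fun δ => 1 / 2 + 1 / 2 * ((u i + δ) + (u j + δ)) + c * δ) (by fun_prop) (c := w)
          (by simpa using h1 i j hij)
        filter_upwards [this] with δ hδ _ using hδ
    have e2 : ∀ᶠ δ in 𝓝[>] (0 : ℝ), ∀ i, 1 / 2 + (u i + δ) / 3 + (∑ j, u j + k * δ) / 6 + c * δ < w := by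
      rw [eventually_all]
      intro i
      exact ev_lt (f := fun δ => 1 / 2 + (u i + δ) / 3 + (∑ j, u j + k * δ) / 6 + c * δ) (by fun_prop)
        (by simpa using h2 i)
    have e3 : ∀ᶠ δ in 𝓝[>] (0 : ℝ), 1 / 2 + (∑ j, u j + k * δ) / 4 + c * δ < w :=
      ev_lt (f := fun δ => 1 / 2 + (∑ j, u j + k * δ) / 4 + c * δ) (by fun_prop) (by simpa using h3)
    have e4 : ∀ᶠ δ in 𝓝[>] (0 : ℝ), ∑ j, u j + k * δ < 2 :=
      ev_lt (f := fun δ => ∑ j, u j + k * δ) (by fun_prop) (c := 2) (by simpa using hs)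
    filter_upwards [e1, e2, e3, e4] with δ f1 f2 f3 f4
    refine ⟨fun _ => ⟨fun i j hij => by linarith [f1 i j hij], fun i => ?_, ?_⟩, fun h => ?_⟩
    · rw [hsum]; linarith [f2 i]
    · rw [hsum]; linarith
    · rw [hsum] at h
      exact absurd f4 (not_lt.2 h)
  · have e4 : ∀ᶠ δ in 𝓝[>] (0 : ℝ), 1 + (2 * (∑ j, u j + k * δ) - 4) * a + c * δ < w :=
      ev_lt (f := fun δ => 1 + (2 * (∑ j, u j + k * δ) - 4) * a + c * δ) (by fun_prop) (c := w)
        (by simpa using h4 hs)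
    have e0 : ∀ᶠ δ in 𝓝[>] (0 : ℝ), 0 < δ := eventually_mem_nhdsWithin
    filter_upwards [e4, e0] with δ f4 f0
    refine ⟨fun h => ?_, fun _ => ?_⟩
    · rw [hsum] at h
      have : 0 ≤ (k : ℝ) * δ := by positivity
      linarith
    · rw [hsum]; linarith

section main

variable {M : ℕ} (hbase : ∀ p : Fin (k + 1) → ℝ, 1 / 2 < p 0 → (∀ j : Fin k, 1 < p j.succ) → ContinuesTo k M p)

include hbase

theorem DD_mem {a : ℝ} (ha : 0 ≤ a) (hL : LBx a) {u : Fin k → ℝ} {w : ℝ} (h0 : ∀ j, 0 ≤ u j)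
    (h1 : ∀ j, u j ≤ 1 / 2) (hG : Good a u w) : (Fin.cons w u : Fin (k + 1) → ℝ) ∈ DD k M := by
  classical
  obtain ⟨c0, c4⟩ := hG
  by_cases hS : 2 ≤ ∑ j, u j
  · refine DD_down (DD_C M ha hL h0 h1 (by linarith)) ?_ fun j => ?_
    · simp only [Fin.cons_zero]; exact (c4 hS).le
    · simp only [Fin.cons_succ]; exact le_rfl
  rw [not_le] at hS
  obtain ⟨c1, c2, c3⟩ := c0 hS
  rcases isEmpty_or_nonempty (Fin k) with he | hne
  · refine DD_down (DD_base hbase) ?_ fun j => (he.false j).elim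
    simp only [Fin.cons_zero]
    have : ∑ j, u j = 0 := Finset.sum_eq_zero fun j _ => (he.false j).elim
    rw [this] at c3
    linarith
  obtain ⟨i0, -, hmax⟩ := Finset.exists_max_image (Finset.univ : Finset (Fin k)) u Finset.univ_nonempty
  have hmax' : ∀ j, u j ≤ u i0 := fun j => hmax j (Finset.mem_univ j)
  obtain ⟨m, hm0, hmu, hmi, hmw⟩ : ∃ m : ℝ, 0 ≤ m ∧ (∀ j, j ≠ i0 → 2 * u j ≤ m) ∧ m ≤ 2 * u i0 ∧
      1 / 2 + 1 / 2 * u i0 + m / 4 ≤ w := by
    rcases (Finset.univ.erase i0).eq_empty_or_nonempty with he | hne'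
    · refine ⟨0, le_rfl, fun j hj => ?_, by linarith [h0 i0], ?_⟩
      · have : j ∈ Finset.univ.erase i0 := Finset.mem_erase.2 ⟨hj, Finset.mem_univ j⟩
        rw [he] at this
        exact absurd this (Finset.notMem_empty j)
      · have h2 := c2 i0
        have h3 : ∑ j, u j = u i0 := by
          rw [← Finset.add_sum_erase _ u (Finset.mem_univ i0), he, Finset.sum_empty, add_zero]
        rw [h3] at h2
        linarith
    · obtain ⟨i1, hi1, hmax1⟩ := Finset.exists_max_image _ u hne'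
      refine ⟨2 * u i1, by linarith [h0 i1], fun j hj => ?_, by linarith [hmax' i1], ?_⟩
      · linarith [hmax1 j (Finset.mem_erase.2 ⟨hj, Finset.mem_univ j⟩)]
      · linarith [c1 i0 i1 (Finset.ne_of_mem_erase hi1).symm]
  set S := 2 * ∑ j, u j with hSd
  set τ := 2 * u i0 with hτ
  have hτ0 : 0 ≤ τ := by linarith [h0 i0]
  have hτ1 : τ ≤ 1 := by linarith [h1 i0]
  have hSτ : τ ≤ S := by
    have := Finset.single_le_sum (f := u) (fun j _ => h0 j) (Finset.mem_univ i0)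
    linarith
  have hS0 : 0 ≤ S := hτ0.trans hSτ
  rcases le_or_gt τ ((S - τ) / 3) with hA | hA
  · -- `x = S / 4`, `y = 0`
    refine DD_lam hbase ha hL h0 (x := S / 4) (y := 0) (by linarith) le_rfl (by linarith) i0 (fun j _ => ?_)
      (by linarith) (by linarith) (by linarith) (by linarith)
    linarith [hmax' j]
  · rcases le_or_gt m ((S - τ) / 3) with hB | hB
    · refine DD_lam hbase ha hL h0 (x := (S - τ) / 3) (y := τ - (S - τ) / 3) (by linarith) (by linarith) (by linarith) i0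
        (fun j hj => (hmu j hj).trans hB) (by linarith) (by linarith) (by linarith) ?_
      have h2 := c2 i0
      linarith
    · refine DD_lam hbase ha hL h0 (x := m) (y := τ - m) hm0 (by linarith) (by linarith) i0
        hmu (by linarith) (by linarith) (by linarith) ?_
      linarith

theorem region_open {a : ℝ} (ha : 0 ≤ a) (hL : LBx a) {p : Fin (k + 1) → ℝ} (hp : ∀ j : Fin k, 1 / 2 < p j.succ)
    (hG : Good a (fun j => max 0 (1 - p j.succ)) (p 0)) : ContinuesTo k M p := by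
  have h1 := hG.shrink 1
  have h2 : ∀ᶠ δ in 𝓝[>] (0 : ℝ), ∀ j : Fin k, max 0 (1 - p j.succ) + δ < 1 / 2 := by
    rw [eventually_all]
    intro j
    refine ev_lt (f := fun δ => max 0 (1 - p j.succ) + δ) (by fun_prop) ?_
    simp only [add_zero]
    exact max_lt (by norm_num) (by linarith [hp j])
  have h3 : ∀ᶠ δ in 𝓝[>] (0 : ℝ), 0 < δ := eventually_mem_nhdsWithin
  obtain ⟨δ, e1, e2, e3⟩ := (h1.and (h2.and h3)).exists
  have h4 := DD_mem hbase ha hL (u := fun j => max 0 (1 - p j.succ) + δ) (w := p 0 - 1 * δ)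
    (fun j => add_nonneg (le_max_left _ _) e3.le) (fun j => (e2 j).le) e1
  refine (h4 δ e3).up fun i => ?_
  refine Fin.cases ?_ (fun j => ?_) i
  · simp only [Fin.cons_zero]; linarith
  · simp only [Fin.cons_succ]
    have := le_max_right 0 (1 - p j.succ)
    linarith

theorem region_closed {a : ℝ} (ha : 0 ≤ a) (hL : LBx a) {p : Fin (k + 1) → ℝ} (hp : ∀ j : Fin k, 1 / 2 ≤ p j.succ)
    (hG : Good a (fun j => max 0 (1 - p j.succ)) (p 0)) : ContinuesTo k M p := by
  classical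
  set J : Finset (Fin k) := Finset.univ.filter fun j => p j.succ = 1 / 2 with hJ
  have h1 := hG.shrink (J.card / 2)
  have h3 : ∀ᶠ δ in 𝓝[>] (0 : ℝ), 0 < δ := eventually_mem_nhdsWithin
  obtain ⟨δ, e1, e3⟩ := (h1.and h3).exists
  set q : Fin (k + 1) → ℝ := Fin.cons (p 0 - J.card / 2 * δ) (fun j => if j ∈ J then 1 / 2 + δ else p j.succ) with hq
  have hq1 : ∀ j : Fin k, 1 / 2 < q j.succ := by
    intro j
    simp only [hq, Fin.cons_succ]
    by_cases hj : j ∈ J
    · rw [if_pos hj]; linarith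
    · rw [if_neg hj]
      refine lt_of_le_of_ne (hp j) fun h => hj ?_
      rw [hJ, Finset.mem_filter]
      exact ⟨Finset.mem_univ j, h.symm⟩
  have hq2 : ContinuesTo k M q := by
    refine region_open hbase ha hL hq1 ?_
    have e4 : q 0 = p 0 - J.card / 2 * δ := by simp only [hq, Fin.cons_zero]
    rw [e4]
    refine Good.mono ha e1 (fun j => max_le (by norm_num) (by linarith [hq1 j])) fun j => ?_
    simp only [hq, Fin.cons_succ]
    refine (max_le_max le_rfl ?_ : _ ≤ max 0 (1 - p j.succ)).trans (by linarith)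
    by_cases hj : j ∈ J
    · rw [if_pos hj]
      have := (Finset.mem_filter.1 hj).2
      linarith
    · rw [if_neg hj]
  have h5 := continuesTo_mp hq2 (J := J) fun j _ => by linarith [hq1 j]
  have h6 : mp J q = p := by
    funext i
    refine Fin.cases ?_ (fun j => ?_) i
    · simp only [mp, Fin.cons_zero]
      have e5 : ∑ j ∈ J, (q j.succ - 1 / 2) = J.card * δ := by
        rw [← nsmul_eq_mul, ← Finset.sum_const]
        refine Finset.sum_congr rfl fun j hj => ?_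
        simp only [hq, Fin.cons_succ, if_pos hj]
        ring
      rw [e5]
      simp only [hq, Fin.cons_zero]
      ring
    · simp only [mp, Fin.cons_succ]
      by_cases hj : j ∈ J
      · rw [if_pos hj]
        exact ((Finset.mem_filter.1 hj).2).symm
      · rw [if_neg hj]
        simp only [hq, Fin.cons_succ, if_neg hj]
  rwa [h6] at h5

/-- **the region of continuation** -/
theorem region {a : ℝ} (ha : 0 ≤ a) (hL : LBx a) {p : Fin (k + 1) → ℝ}
    (hG : Good a (fun j => max 0 (1 / 2 - |p j.succ - 1 / 2|)) (p 0 - ∑ j : Fin k, max 0 (1 / 2 - p j.succ))) :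
    ContinuesTo k M p := by
  classical
  set J : Finset (Fin k) := Finset.univ.filter fun j => p j.succ < 1 / 2 with hJ
  have hmem : ∀ j, j ∈ J ↔ p j.succ < 1 / 2 := fun j => by simp [hJ]
  have h0 : rf J p 0 = p 0 - ∑ j : Fin k, max 0 (1 / 2 - p j.succ) := by
    rw [rf_zero]
    have e1 : ∑ j : Fin k, max 0 (1 / 2 - p j.succ) = ∑ j ∈ J, (1 / 2 - p j.succ) := by
      rw [hJ, Finset.sum_filter]
      refine Finset.sum_congr rfl fun j _ => ?_
      by_cases hj : p j.succ < 1 / 2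
      · rw [if_pos hj, max_eq_right (by linarith)]
      · rw [if_neg hj, max_eq_left (by linarith)]
    rw [e1, sub_eq_add_neg, ← Finset.sum_neg_distrib]
    congr 1
    exact Finset.sum_congr rfl fun j _ => by ring
  have h1 : ∀ j : Fin k, 1 / 2 ≤ rf J p j.succ := by
    intro j
    by_cases hj : j ∈ J
    · rw [rf_mem hj]
      linarith [(hmem j).1 hj]
    · rw [rf_notMem hj]
      exact not_lt.1 fun h => hj ((hmem j).2 h)
  have h2 : ContinuesTo k M (rf J p) := by
    refine region_closed hbase ha hL h1 ?_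
    rw [h0]
    refine Good.mono ha hG (fun j => max_le (by norm_num) (by linarith [h1 j])) fun j => ?_
    refine max_le_max le_rfl ?_
    by_cases hj : j ∈ J
    · rw [rf_mem hj, abs_of_neg (by linarith [(hmem j).1 hj])]
      linarith
    · rw [rf_notMem hj, abs_of_nonneg (by linarith [not_lt.1 fun h => hj ((hmem j).2 h)])]
      linarith
  have h3 := continuesTo_rf h2 (J := J) fun j _ => by linarith [h1 j]
  rwa [rf_rf] at h3

end main

end Pool.Agent.L5helper17.UR
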