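import Pool.Agent.L5helper17.UR.Mom4

/-!
# Dyadic blocks: bounds on average give the continuation
-/

set_option autoImplicit false

namespace Pool.Agent.L5helper17.UR

open Complex Filter Topology MeasureTheory Set
open Pool.Agent.Q48.MDS
open Pool.Agent.N879.QM (Q)
open Pool.Agent.L5helper5.LE (Lx Lx_diff S P tm tm_diff P_diff P_bound Om isOpen_Om convex_Om convex_orth HB im1 im1_ge im1_le
  F_eq tempered_SP Zc_mono)
open Pool.Agent.L5helper17.RF (crude_eps)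

variable {k : ℕ}

/-- the product of the L-functions -/
noncomputable def pL (q : ℕ) (z : Fin (k + 1) → ℂ) : ℝ := ∏ j : Fin k, ‖Lx q (z j.succ)‖

lemma pL_nonneg (q : ℕ) (z : Fin (k + 1) → ℂ) : 0 ≤ pL q z := Finset.prod_nonneg fun _ _ => norm_nonneg _

lemma tm_zero_of {M d : ℕ} (h : ¬ (FundDisc d ∧ 1 < d)) (z : Fin (k + 1) → ℂ) : tm k M d z = 0 := by
  unfold tm
  rw [if_neg h]

lemma range_pow (f : ℕ → ℝ) (J : ℕ) : ∑ i ∈ Finset.range (2 ^ J), f i =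
    f 0 + ∑ j ∈ Finset.range J, ∑ d ∈ Finset.Ico (2 ^ j) (2 ^ (j + 1)), f d := by
  induction J with
  | zero => simp
  | succ J ih =>
    rw [Finset.sum_range_succ, ← add_assoc, ← ih, Finset.range_eq_Ico, Finset.range_eq_Ico,
      Finset.sum_Ico_consecutive _ (Nat.zero_le _) (Nat.pow_le_pow_right (by norm_num) (Nat.le_succ J))]

lemma range_pow' (f : ℕ → ℂ) (J : ℕ) : ∑ i ∈ Finset.range (2 ^ J), f i =
    f 0 + ∑ j ∈ Finset.range J, ∑ d ∈ Finset.Ico (2 ^ j) (2 ^ (j + 1)), f d := by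
  induction J with
  | zero => simp
  | succ J ih =>
    rw [Finset.sum_range_succ, ← add_assoc, ← ih, Finset.range_eq_Ico, Finset.range_eq_Ico,
      Finset.sum_Ico_consecutive _ (Nat.zero_le _) (Nat.pow_le_pow_right (by norm_num) (Nat.le_succ J))]

/-- a block -/
noncomputable def blk (k M : ℕ) (j : ℕ) (z : Fin (k + 1) → ℂ) : ℂ :=
  ∑ d ∈ Finset.Ico (2 ^ j) (2 ^ (j + 1)), tm k M d z

lemma blk_diff (M j : ℕ) : Differentiable ℂ (blk k M j) := by
  unfold blk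
  exact Differentiable.fun_sum fun d _ => tm_diff k M d

lemma block_le {M : ℕ} {w0 β C T : ℝ} (hw0 : 0 ≤ w0) {z : Fin (k + 1) → ℂ} (hz : w0 ≤ (z 0).re)
    (hH : ∀ X : ℝ, 1 ≤ X → ∑ q ∈ Q 1 X, pL q z ≤ C * X ^ β * T) (j : ℕ) :
    ∑ d ∈ Finset.Ico (2 ^ j) (2 ^ (j + 1)), ‖tm k M d z‖ ≤ (C * 2 ^ β * T) * ((2 : ℝ) ^ (β - w0)) ^ j := by
  classical
  have h1 : ∀ d ∈ Finset.Ico (2 ^ j) (2 ^ (j + 1)), ‖tm k M d z‖ ≤
      ((2 : ℝ) ^ j) ^ (-w0) * (if FundDisc d ∧ 1 < d then pL d z else 0) := by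
    intro d hd
    obtain ⟨hd1, hd2⟩ := Finset.mem_Ico.1 hd
    by_cases h : FundDisc d ∧ 1 < d
    · rw [if_pos h]
      unfold tm
      rw [if_pos h, norm_mul, norm_mul, norm_prod]
      have hd0 : 0 < d := by omega
      have hdr : (1 : ℝ) ≤ d := by exact_mod_cast hd0
      have a1 : ‖((kron d M : ℤ) : ℂ)‖ ≤ 1 := norm_kron_le d M
      have a2 : ‖(d : ℂ) ^ (-(z 0))‖ ≤ ((2 : ℝ) ^ j) ^ (-w0) := by
        rw [Complex.norm_natCast_cpow_of_pos hd0, neg_re]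
        calc (d : ℝ) ^ (-(z 0).re) ≤ (d : ℝ) ^ (-w0) := Real.rpow_le_rpow_of_exponent_le hdr (by linarith)
          _ ≤ ((2 : ℝ) ^ j) ^ (-w0) := by
              refine Real.rpow_le_rpow_of_nonpos (by positivity) ?_ (by linarith)
              exact_mod_cast hd1
      have a3 : 0 ≤ pL d z := pL_nonneg d z
      calc ‖((kron d M : ℤ) : ℂ)‖ * ‖(d : ℂ) ^ (-(z 0))‖ * ∏ j : Fin k, ‖Lx d (z j.succ)‖
          ≤ 1 * ((2 : ℝ) ^ j) ^ (-w0) * pL d z := by
            unfold pL at a3 ⊢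
            gcongr
        _ = _ := by ring
    · rw [tm_zero_of h, norm_zero, if_neg h, mul_zero]
  have h2 : ∑ d ∈ Finset.Ico (2 ^ j) (2 ^ (j + 1)), (if FundDisc d ∧ 1 < d then pL d z else 0) ≤
      ∑ q ∈ Q 1 ((2 : ℝ) ^ (j + 1)), pL q z := by
    rw [← Finset.sum_filter]
    refine Finset.sum_le_sum_of_subset_of_nonneg ?_ fun q _ _ => pL_nonneg q z
    intro d hd
    rw [Finset.mem_filter, Finset.mem_Ico] at hd
    rw [mem_Q]
    exact ⟨hd.2.1, hd.2.2, by exact_mod_cast hd.1.2⟩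
  have h3 := hH ((2 : ℝ) ^ (j + 1)) (one_le_pow₀ (by norm_num))
  have h4 : (0 : ℝ) < ((2 : ℝ) ^ j) ^ (-w0) := Real.rpow_pos_of_pos (by positivity) _
  calc ∑ d ∈ Finset.Ico (2 ^ j) (2 ^ (j + 1)), ‖tm k M d z‖
      ≤ ∑ d ∈ Finset.Ico (2 ^ j) (2 ^ (j + 1)), ((2 : ℝ) ^ j) ^ (-w0) * (if FundDisc d ∧ 1 < d then pL d z else 0) :=
        Finset.sum_le_sum h1
    _ = ((2 : ℝ) ^ j) ^ (-w0) * ∑ d ∈ Finset.Ico (2 ^ j) (2 ^ (j + 1)), (if FundDisc d ∧ 1 < d then pL d z else 0) := by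
        rw [Finset.mul_sum]
    _ ≤ ((2 : ℝ) ^ j) ^ (-w0) * (C * ((2 : ℝ) ^ (j + 1)) ^ β * T) :=
        mul_le_mul_of_nonneg_left (h2.trans h3) h4.le
    _ = (C * 2 ^ β * T) * ((2 : ℝ) ^ (β - w0)) ^ j := by
        have e1 : ((2 : ℝ) ^ (j + 1)) ^ β = ((2 : ℝ) ^ β) ^ j * 2 ^ β := by
          rw [← Real.rpow_natCast (2 : ℝ) (j + 1), ← Real.rpow_natCast ((2 : ℝ) ^ β) j, ← Real.rpow_mul (by norm_num),
            ← Real.rpow_mul (by norm_num), ← Real.rpow_add (by norm_num)]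
          congr 1
          push_cast
          ring
        have e2 : ((2 : ℝ) ^ j) ^ (-w0) * ((2 : ℝ) ^ β) ^ j = ((2 : ℝ) ^ (β - w0)) ^ j := by
          rw [← Real.rpow_natCast (2 : ℝ) j, ← Real.rpow_natCast ((2 : ℝ) ^ β) j, ← Real.rpow_natCast ((2 : ℝ) ^ (β - w0)) j,
            ← Real.rpow_mul (by norm_num), ← Real.rpow_mul (by norm_num), ← Real.rpow_mul (by norm_num),
            ← Real.rpow_add (by norm_num)]
          congr 1
          ring
        rw [e1, ← e2]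
        ring

/-- **bounds on average give a holomorphic function of polynomial growth** -/
theorem S_of_avg {M : ℕ} {V : Set (Fin (k + 1) → ℝ)} (hV : IsOpen V) {w0 β C : ℝ} {N : ℕ} (hw0 : 0 ≤ w0) (hβ : β < w0)
    (hC : 0 ≤ C) (hVw : ∀ x ∈ V, w0 ≤ x 0)
    (hH : ∀ z ∈ tube V, ∀ X : ℝ, 1 ≤ X → ∑ q ∈ Q 1 X, pL q z ≤ C * X ^ β * im1 z ^ N) :
    DifferentiableOn ℂ (S k M) (tube V) ∧
      (∀ z ∈ tube V, Summable fun d => ‖tm k M d z‖) ∧
      ∃ C' : ℝ, 0 ≤ C' ∧ ∀ z ∈ tube V, ‖S k M z‖ ≤ C' * im1 z ^ N := by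
  set ρ : ℝ := (2 : ℝ) ^ (β - w0) with hρ
  have hρ0 : 0 < ρ := Real.rpow_pos_of_pos (by norm_num) _
  have hρ1 : ρ < 1 := Real.rpow_lt_one_of_one_lt_of_neg (by norm_num) (by linarith)
  have hg := summable_geometric_of_lt_one hρ0.le hρ1
  set G := ∑' j : ℕ, ρ ^ j with hG
  have hG0 : 0 ≤ G := tsum_nonneg fun j => by positivity
  have hi0 : ∀ z : Fin (k + 1) → ℂ, 0 ≤ im1 z := fun z => zero_le_one.trans (im1_ge z)
  have hblk : ∀ z ∈ tube V, ∀ j : ℕ, ∑ d ∈ Finset.Ico (2 ^ j) (2 ^ (j + 1)), ‖tm k M d z‖ ≤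
      (C * 2 ^ β * im1 z ^ N) * ρ ^ j := fun z hz j =>
    block_le hw0 (hVw _ hz) (hH z hz) j
  have hA0 : ∀ z : Fin (k + 1) → ℂ, 0 ≤ C * 2 ^ β * im1 z ^ N := fun z =>
    mul_nonneg (mul_nonneg hC (Real.rpow_nonneg (by norm_num) _)) (pow_nonneg (hi0 z) N)
  have hbb : ∀ z ∈ tube V, ∀ j : ℕ, ‖blk k M j z‖ ≤ (C * 2 ^ β * im1 z ^ N) * ρ ^ j := fun z hz j =>
    (norm_sum_le _ _).trans (hblk z hz j)
  have hzero : ∀ z : Fin (k + 1) → ℂ, tm k M 0 z = 0 := fun z => tm_zero_of (fun h => absurd h.2 (by norm_num)) z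
  have hsum : ∀ z ∈ tube V, Summable fun d => ‖tm k M d z‖ := by
    intro z hz
    refine summable_of_sum_range_le (c := (C * 2 ^ β * im1 z ^ N) * G) (fun d => norm_nonneg _) fun n => ?_
    have h1 : n ≤ 2 ^ n := Nat.lt_two_pow_self.le
    calc ∑ i ∈ Finset.range n, ‖tm k M i z‖ ≤ ∑ i ∈ Finset.range (2 ^ n), ‖tm k M i z‖ :=
          Finset.sum_le_sum_of_subset_of_nonneg (Finset.range_mono h1) fun _ _ _ => norm_nonneg _
      _ = 0 + ∑ j ∈ Finset.range n, ∑ d ∈ Finset.Ico (2 ^ j) (2 ^ (j + 1)), ‖tm k M d z‖ := by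
          rw [range_pow, hzero, norm_zero]
      _ ≤ 0 + ∑ j ∈ Finset.range n, (C * 2 ^ β * im1 z ^ N) * ρ ^ j := by
          gcongr with j _
          exact hblk z hz j
      _ = (C * 2 ^ β * im1 z ^ N) * ∑ j ∈ Finset.range n, ρ ^ j := by rw [zero_add, Finset.mul_sum]
      _ ≤ (C * 2 ^ β * im1 z ^ N) * G :=
          mul_le_mul_of_nonneg_left (hg.sum_le_tsum _ fun j _ => by positivity) (hA0 z)
  have hbsum : ∀ z ∈ tube V, Summable fun j => ‖blk k M j z‖ := fun z hz =>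
    Summable.of_nonneg_of_le (fun _ => norm_nonneg _) (hbb z hz) (hg.mul_left _)
  have hSb : ∀ z ∈ tube V, S k M z = ∑' j, blk k M j z := by
    intro z hz
    have h1 : Tendsto (fun J : ℕ => ∑ i ∈ Finset.range (2 ^ J), tm k M i z) atTop (𝓝 (S k M z)) :=
      (hsum z hz).of_norm.hasSum.tendsto_sum_nat.comp
        (tendsto_pow_atTop_atTop_of_one_lt (by norm_num : 1 < 2))
    have h2 : Tendsto (fun J : ℕ => ∑ j ∈ Finset.range J, blk k M j z) atTop (𝓝 (∑' j, blk k M j z)) :=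
      (hbsum z hz).of_norm.hasSum.tendsto_sum_nat
    refine tendsto_nhds_unique h1 (h2.congr fun J => ?_)
    rw [range_pow', hzero, zero_add]
    rfl
  refine ⟨?_, hsum, C * 2 ^ β * G, by positivity, fun z hz => ?_⟩
  · have h1 : DifferentiableOn ℂ (fun z => ∫ j, blk k M j z ∂(Measure.count : Measure ℕ)) (tube V) := by
      refine differentiableOn_integral (isOpen_tube hV) (fun z j => blk k M j z)
        (fun j => (blk_diff M j).differentiableOn) (fun z _ => ?_) (fun z0 hz0 => ?_)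
      · exact (measurable_from_top).aestronglyMeasurable
      · refine ⟨tube V ∩ {z | im1 z < im1 z0 + 1}, ?_, fun j => (C * 2 ^ β * (im1 z0 + 1) ^ N) * ρ ^ j, ?_, ?_⟩
        · refine inter_mem ((isOpen_tube hV).mem_nhds hz0) ?_
          have hc : Continuous (im1 : (Fin (k + 1) → ℂ) → ℝ) := by
            unfold im1
            exact continuous_const.add (continuous_pi fun i => Complex.continuous_im.comp (continuous_apply i)).norm
          exact (isOpen_lt hc continuous_const).mem_nhds (show im1 z0 < im1 z0 + 1 by linarith)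
        · rw [integrable_count_iff]
          exact (hg.mul_left _).norm
        · intro z hz j
          refine (hbb z hz.1 j).trans ?_
          have h3 : im1 z ^ N ≤ (im1 z0 + 1) ^ N := pow_le_pow_left₀ (hi0 z) hz.2.le N
          exact mul_le_mul_of_nonneg_right (mul_le_mul_of_nonneg_left h3 (by positivity)) (by positivity)
    refine h1.congr fun z hz => ?_
    rw [integral_countable (integrable_count_iff.2 (hbsum z hz)), hSb z hz]
    refine tsum_congr fun j => ?_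
    simp
  · rw [hSb z hz]
    have h2 := tsum_of_norm_bounded ((hg.mul_left (C * 2 ^ β * im1 z ^ N)).hasSum) (hbb z hz)
    refine h2.trans (le_of_eq ?_)
    rw [tsum_mul_left]
    ring

lemma tempered_SP_orth (k M : ℕ) : Tempered (orth (k + 1)) (fun z => S k M z * P k z) := by
  obtain ⟨B, hB, hb⟩ := crude_eps (ε := 1 / 4) (by norm_num)
  exact (tempered_SP (M := M) hB hb (w := 1 + k * 1 + 1) (by linarith)).2

/-- gluing with the orthant -/
theorem continuesTo_of_tempered {M : ℕ} {V : Set (Fin (k + 1) → ℝ)} (hV : IsOpen V) (hVc : Convex ℝ V)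
    {x : Fin (k + 1) → ℝ} (hx : x ∈ V) (hxo : x ∈ orth (k + 1)) (h : Tempered V (fun z => S k M z * P k z))
    {p : Fin (k + 1) → ℝ} (hp : p ∈ V) : ContinuesTo k M p := by
  obtain ⟨G, hG, e1, e2⟩ := tempered_glue hV (isOpen_orth (k + 1)) h (tempered_SP_orth k M) (fun _ _ => rfl)
  refine ⟨V ∪ orth (k + 1), hV.union (isOpen_orth _), ⟨⟨x, Or.inl hx⟩, ?_⟩, subset_union_right, Or.inl hp, G, hG,
    fun z hz => ?_⟩
  · exact IsPreconnected.union _ hx hxo hVc.isPreconnected (convex_orth _).isPreconnected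
  · rw [e2 hz, F_eq hz]

/-- **bounds on average give the continuation** -/
theorem continuesTo_of_avg {M : ℕ} {V : Set (Fin (k + 1) → ℝ)} (hV : IsOpen V) (hVc : Convex ℝ V)
    {x : Fin (k + 1) → ℝ} (hx : x ∈ V) (hxo : x ∈ orth (k + 1)) {w0 β C : ℝ} {N : ℕ} (hw0 : 0 ≤ w0) (hβ : β < w0)
    (hC : 0 ≤ C) (hVw : ∀ x ∈ V, w0 ≤ x 0)
    (hH : ∀ z ∈ tube V, ∀ X : ℝ, 1 ≤ X → ∑ q ∈ Q 1 X, pL q z ≤ C * X ^ β * im1 z ^ N)
    {p : Fin (k + 1) → ℝ} (hp : p ∈ V) : ContinuesTo k M p := by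
  obtain ⟨h1, -, C', hC', h3⟩ := S_of_avg (M := M) hV hw0 hβ hC hVw hH
  refine continuesTo_of_tempered hV hVc hx hxo ⟨h1.mul (P_diff k).differentiableOn, fun K hK hc => ?_⟩ hp
  obtain ⟨C'', N'', hC'', h4⟩ := P_bound k hc
  refine ⟨C' * C'', N + N'', fun z hz => ?_⟩
  have h5 := h3 z (hK hz)
  have h6 := h4 z hz
  rw [norm_mul]
  calc ‖S k M z‖ * ‖P k z‖ ≤ (C' * im1 z ^ N) * (C'' * im1 z ^ N'') :=
        mul_le_mul h5 h6 (norm_nonneg _) ((norm_nonneg _).trans h5)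
    _ = C' * C'' * im1 z ^ (N + N'') := by rw [pow_add]; ring

end Pool.Agent.L5helper17.UR
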