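import Pool.Agent.L5helper17.UR.Approx

/-!
# Moving the line over the pole at the origin
-/

set_option autoImplicit false

namespace Pool.Agent.L5helper17.UR

open Complex Filter Topology MeasureTheory Set
open Pool.Agent.Helper368_LD (vline_integrable vline_shift integrable_one_add_abs)
open Pool.Agent.L5helper17.RF (g1 g1_of_gt g1_cont hasMellin_g1' dn dn_ne wt sc)

/-- the product without the factor `w` -/
noncomputable def dn1 (m : ℕ) (w : ℂ) : ℂ := ∏ i ∈ Finset.range m, (w + ((i + 1 : ℕ) : ℂ))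

lemma dn_eq (m : ℕ) (w : ℂ) : dn m w = dn1 m w * w := by
  unfold dn dn1
  rw [Finset.prod_range_succ']
  simp

lemma dn1_low (m : ℕ) {δ : ℝ} (hδ : 0 < δ) {w : ℂ} (hw : δ - 1 ≤ w.re) :
    ((1 + |w.im|) / (1 + δ⁻¹)) ^ m ≤ ‖dn1 m w‖ := by
  unfold dn1
  rw [norm_prod]
  have hb' : 0 < δ⁻¹ := inv_pos.2 hδ
  have h0 : ∀ i : ℕ, (1 + |w.im|) / (1 + δ⁻¹) ≤ ‖w + ((i + 1 : ℕ) : ℂ)‖ := by
    intro i
    have h1 := Complex.re_le_norm (w + ((i + 1 : ℕ) : ℂ))
    have h2 := Complex.abs_im_le_norm (w + ((i + 1 : ℕ) : ℂ))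
    simp only [add_re, natCast_re, add_im, natCast_im, add_zero] at h1 h2
    push_cast at h1
    have hi : (0 : ℝ) ≤ i := Nat.cast_nonneg i
    have h3 : δ ≤ ‖w + ((i + 1 : ℕ) : ℂ)‖ := by push_cast; linarith
    rw [div_le_iff₀ (by positivity)]
    have h4 : 1 ≤ ‖w + ((i + 1 : ℕ) : ℂ)‖ * δ⁻¹ := by
      rw [← div_eq_mul_inv, le_div_iff₀ hδ]
      linarith
    linarith
  calc ((1 + |w.im|) / (1 + δ⁻¹)) ^ m = ∏ _i ∈ Finset.range m, (1 + |w.im|) / (1 + δ⁻¹) := by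
        rw [Finset.prod_const, Finset.card_range]
    _ ≤ _ := Finset.prod_le_prod (fun i _ => by positivity) (fun i _ => h0 i)

theorem cross {F : ℂ → ℂ} (hF : Differentiable ℂ F) {a b δ : ℝ} (ha : 0 < a) (hδ : 0 < δ) (hb : δ ≤ b)
    (hb1 : b ≤ 1 - δ) {Kf : ℝ} {N m : ℕ} (hm : N + 2 ≤ m)
    (hK : ∀ w : ℂ, -b ≤ w.re → w.re ≤ a → ‖F w‖ ≤ Kf * (1 + |w.im|) ^ N) {t : ℝ} (ht : 0 < t) (ht1 : t ≤ 1) :
    ∫ y : ℝ, (F ((a : ℂ) + y * I) - F 0) * kw m t ((a : ℂ) + y * I) =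
      ∫ y : ℝ, (F (((-b : ℝ) : ℂ) + y * I) - F 0) * kw m t (((-b : ℝ) : ℂ) + y * I) := by
  have hb0 : 0 < b := by linarith
  have hδ' : 0 < δ⁻¹ := inv_pos.2 hδ
  have ht0 : (t : ℂ) ≠ 0 := by exact_mod_cast ht.ne'
  set h : ℂ → ℂ := fun w => dslope F 0 w * ((t : ℂ) ^ (-w) * ((m.factorial : ℂ) / dn1 m w)) with hh
  have hh1 : ∀ w : ℂ, w ≠ 0 → h w = (F w - F 0) * kw m t w := by
    intro w hw
    rw [hh]
    simp only
    rw [dslope_of_ne _ hw, slope_def_field, sub_zero]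
    unfold kw
    rw [dn_eq]
    by_cases h1 : dn1 m w = 0
    · rw [h1]; simp
    · field_simp
  have hne1 : ∀ y : ℝ, ((a : ℂ) + y * I) ≠ 0 := by
    intro y hy
    have := congrArg Complex.re hy
    simp at this
    linarith
  have hne2 : ∀ y : ℝ, (((-b : ℝ) : ℂ) + y * I) ≠ 0 := by
    intro y hy
    have := congrArg Complex.re hy
    simp at this
    linarith
  have hds : Differentiable ℂ (dslope F 0) := by
    have := (Complex.differentiableOn_dslope (s := univ) (c := (0 : ℂ)) (f := F) univ_mem).2 hF.differentiableOn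
    exact differentiableOn_univ.1 this
  obtain ⟨K3, hK3⟩ := ((isCompact_Icc (a := -b) (b := a)).reProdIm (isCompact_Icc (a := (-1 : ℝ)) (b := 1))).exists_bound_of_continuousOn
    hds.continuous.continuousOn
  have hKf : 0 ≤ Kf := by
    have h1 := hK 0 (by simp; linarith) (by simpa using ha.le)
    simp only [zero_im, abs_zero, add_zero, one_pow, mul_one] at h1
    exact (norm_nonneg _).trans h1
  have hF0 : ‖F 0‖ ≤ Kf := by
    have h1 := hK 0 (by simp; linarith) (by simpa using ha.le)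
    simpa using h1
  set K2 : ℝ := |K3| + 2 * Kf with hK2
  have hK20 : 0 ≤ K2 := by positivity
  have hdb : ∀ w : ℂ, -b ≤ w.re → w.re ≤ a → ‖dslope F 0 w‖ ≤ K2 * (1 + |w.im|) ^ N := by
    intro w h1 h2
    have h3 : (1 : ℝ) ≤ (1 + |w.im|) ^ N := one_le_pow₀ (by linarith [abs_nonneg w.im])
    by_cases h4 : |w.im| ≤ 1
    · have h5 := hK3 w ⟨⟨h1, h2⟩, abs_le.1 h4⟩
      have h6 : K3 ≤ K2 := by rw [hK2]; linarith [le_abs_self K3]
      calc ‖dslope F 0 w‖ ≤ K2 := h5.trans h6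
        _ = K2 * 1 := (mul_one _).symm
        _ ≤ _ := mul_le_mul_of_nonneg_left h3 hK20
    · push Not at h4
      have hw : w ≠ 0 := by
        rintro rfl
        simp at h4
        linarith
      rw [dslope_of_ne _ hw, slope_def_field, sub_zero, norm_div]
      have h5 : 1 ≤ ‖w‖ := h4.le.trans (Complex.abs_im_le_norm w)
      have h6 := hK w h1 h2
      calc ‖F w - F 0‖ / ‖w‖ ≤ ‖F w - F 0‖ := div_le_self (norm_nonneg _) h5
        _ ≤ ‖F w‖ + ‖F 0‖ := norm_sub_le _ _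
        _ ≤ Kf * (1 + |w.im|) ^ N + Kf * (1 + |w.im|) ^ N := by
            refine add_le_add h6 (hF0.trans ?_)
            calc Kf = Kf * 1 := (mul_one _).symm
              _ ≤ _ := mul_le_mul_of_nonneg_left h3 hKf
        _ ≤ K2 * (1 + |w.im|) ^ N := by
            rw [hK2]
            have : 0 ≤ |K3| * (1 + |w.im|) ^ N := by positivity
            nlinarith
  have hhd : ∀ w : ℂ, -b ≤ w.re → w.re ≤ a → DifferentiableAt ℂ h w := by
    intro w h1 _
    have h2 : dn1 m w ≠ 0 := by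
      have h3 := dn1_low m hδ (w := w) (by linarith)
      have h4 : 0 < ((1 + |w.im|) / (1 + δ⁻¹)) ^ m := by positivity
      intro h5
      rw [h5, norm_zero] at h3
      linarith
    have h3 : DifferentiableAt ℂ (dn1 m) w := by
      unfold dn1
      exact DifferentiableAt.fun_finsetProd fun i _ => (differentiableAt_id.add_const _)
    exact (hds w).mul ((differentiableAt_id.neg.const_cpow (Or.inl ht0)).mul ((differentiableAt_const _).div h3 h2))
  have hhb : ∀ w : ℂ, -b ≤ w.re → w.re ≤ a →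
      ‖h w‖ ≤ (K2 * (t ^ (-a) * ((m.factorial : ℝ) * (1 + δ⁻¹) ^ m))) * (1 + |w.im|) ^ (-(2 : ℝ)) := by
    intro w h1 h2
    rw [hh]
    simp only
    rw [norm_mul, norm_mul, norm_cpow_eq_rpow_re_of_pos ht, neg_re, norm_div, Complex.norm_natCast]
    have h3 := dn1_low m hδ (w := w) (by linarith)
    have hpos : 0 < ((1 + |w.im|) / (1 + δ⁻¹)) ^ m := by positivity
    have h4 : (m.factorial : ℝ) / ‖dn1 m w‖ ≤ (m.factorial : ℝ) / ((1 + |w.im|) / (1 + δ⁻¹)) ^ m :=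
      div_le_div_of_nonneg_left (by positivity) hpos h3
    have h5 : t ^ (-w.re) ≤ t ^ (-a) := Real.rpow_le_rpow_of_exponent_ge ht ht1 (by linarith)
    have h6 : (1 + |w.im|) ^ N * ((m.factorial : ℝ) / ((1 + |w.im|) / (1 + δ⁻¹)) ^ m) ≤
        ((m.factorial : ℝ) * (1 + δ⁻¹) ^ m) * (1 + |w.im|) ^ (-(2 : ℝ)) := by
      have h9 : (1 : ℝ) ≤ 1 + |w.im| := by linarith [abs_nonneg w.im]
      have h7 : (1 + |w.im|) ^ N / (1 + |w.im|) ^ m ≤ (1 + |w.im|) ^ (-(2 : ℝ)) := by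
        rw [← Real.rpow_natCast, ← Real.rpow_natCast, ← Real.rpow_sub (by linarith)]
        apply Real.rpow_le_rpow_of_exponent_le h9
        have h10 : (N : ℝ) + 2 ≤ m := by exact_mod_cast hm
        linarith
      calc (1 + |w.im|) ^ N * ((m.factorial : ℝ) / ((1 + |w.im|) / (1 + δ⁻¹)) ^ m) =
          ((m.factorial : ℝ) * (1 + δ⁻¹) ^ m) * ((1 + |w.im|) ^ N / (1 + |w.im|) ^ m) := by
            rw [div_pow]
            field_simp
        _ ≤ _ := mul_le_mul_of_nonneg_left h7 (by positivity)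
    have hta : 0 ≤ t ^ (-a) := Real.rpow_nonneg ht.le _
    calc ‖dslope F 0 w‖ * (t ^ (-w.re) * ((m.factorial : ℝ) / ‖dn1 m w‖)) ≤
        (K2 * (1 + |w.im|) ^ N) * (t ^ (-a) * ((m.factorial : ℝ) / ((1 + |w.im|) / (1 + δ⁻¹)) ^ m)) :=
          mul_le_mul (hdb w h1 h2) (mul_le_mul h5 h4 (by positivity) hta) (by positivity) (by positivity)
      _ = K2 * t ^ (-a) * ((1 + |w.im|) ^ N * ((m.factorial : ℝ) / ((1 + |w.im|) / (1 + δ⁻¹)) ^ m)) := by ring
      _ ≤ K2 * t ^ (-a) * (((m.factorial : ℝ) * (1 + δ⁻¹) ^ m) * (1 + |w.im|) ^ (-(2 : ℝ))) :=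
          mul_le_mul_of_nonneg_left h6 (by positivity)
      _ = _ := by ring
  have hs := vline_shift (f := h) (b := -b) (c := a) (by linarith) (by norm_num : (1 : ℝ) < 2) hhd hhb
  rw [integral_congr_ae (Eventually.of_forall fun y => (hh1 _ (hne1 y)).symm),
    integral_congr_ae (g := fun y : ℝ => h (((-b : ℝ) : ℂ) + y * I)) (Eventually.of_forall fun y => (hh1 _ (hne2 y)).symm)]
  exact hs.symm

end Pool.Agent.L5helper17.UR
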