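import Pool.Agent.L5helper17.RF.Mel2

/-!
# Riesz means of Dirichlet series
-/

set_option autoImplicit false

namespace Pool.Agent.L5helper17.UR

open Complex Filter Topology MeasureTheory Set
open Pool.Agent.L5helper17.RF (g1 g1_of_gt g1_cont hasMellin_g1' dn dn_ne integral_norm_comp integrable_tsum' wt)

/-- the Riesz mean at `X = 1 / t` -/
noncomputable def eg (c : ℕ → ℂ) (m : ℕ) (t : ℝ) : ℂ := ∑' n : ℕ, c n * g1 1 m (n * t)

lemma eg_eq_sum (c : ℕ → ℂ) (m : ℕ) {t : ℝ} {N : ℕ} (hN : 1 < N * t) (ht : 0 < t) :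
    eg c m t = ∑ n ∈ Finset.range N, c n * g1 1 m (n * t) := by
  unfold eg
  refine tsum_eq_sum fun d hd => ?_
  have h1 : N ≤ d := by simpa using hd
  have h2 : (N : ℝ) ≤ d := by exact_mod_cast h1
  rw [g1_of_gt _ _ (lt_of_lt_of_le hN (mul_le_mul_of_nonneg_right h2 ht.le)), mul_zero]

lemma eg_cont {c : ℕ → ℂ} (hc : c 0 = 0) {m : ℕ} (hm : 0 < m) : ContinuousOn (eg c m) (Ioi 0) := by
  intro x hx
  have hx0 : 0 < x := hx
  obtain ⟨N, hN⟩ := exists_nat_gt (2 / x)
  rw [div_lt_iff₀ hx0] at hN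
  refine ContinuousAt.continuousWithinAt ?_
  have h1 : eg c m =ᶠ[𝓝 x] fun t => ∑ d ∈ Finset.range N, c d * g1 1 m (d * t) := by
    filter_upwards [Ioi_mem_nhds (show x / 2 < x by linarith)] with t ht
    have ht' : x / 2 < t := ht
    have hN0 : (0 : ℝ) ≤ N := Nat.cast_nonneg N
    refine eg_eq_sum c m ?_ (by linarith)
    nlinarith
  refine ContinuousAt.congr ?_ h1.symm
  refine tendsto_finsetSum _ fun d _ => ?_
  rcases Nat.eq_zero_or_pos d with hd | hd
  · subst hd
    rw [hc]
    simp only [zero_mul]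
    exact tendsto_const_nhds
  have hd0 : (0 : ℝ) < d := by exact_mod_cast hd
  refine Tendsto.const_mul _ ?_
  have h2 : ContinuousAt (g1 1 m) (d * x) :=
    (g1_cont (by rw [Polynomial.natDegree_one]; exact hm)).continuousAt (Ioi_mem_nhds (mul_pos hd0 hx0))
  have h3 : ContinuousAt (fun t : ℝ => (d : ℝ) * t) x := by fun_prop
  exact ContinuousAt.comp (g := g1 1 m) (f := fun t : ℝ => (d : ℝ) * t) h2 h3

theorem hasMellin_eg {c : ℕ → ℂ} (hc : c 0 = 0) {m : ℕ} (hm : 0 < m) {w : ℂ} (hw : 0 < w.re)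
    (hs : Summable fun n : ℕ => ‖c n * (n : ℂ) ^ (-w)‖) :
    HasMellin (eg c m) w ((∑' n : ℕ, c n * (n : ℂ) ^ (-w)) * ((m.factorial : ℂ) / dn m w)) := by
  have hQ : (1 : Polynomial ℂ).natDegree ≤ m := by rw [Polynomial.natDegree_one]; exact hm.le
  obtain ⟨hg1, hg2⟩ := hasMellin_g1' hQ hw
  set F : ℕ → ℝ → ℂ := fun d t => (t : ℂ) ^ (w - 1) • (c d * g1 1 m (d * t)) with hF
  have e0 : ∀ d, F d = fun t : ℝ => c d * ((t : ℂ) ^ (w - 1) • g1 1 m (d * t)) := by
    intro d
    funext t
    simp only [hF, smul_eq_mul]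
    ring
  have hint : ∀ d, Integrable (F d) (volume.restrict (Ioi 0)) := by
    intro d
    rcases Nat.eq_zero_or_pos d with hd | hd
    · subst hd
      rw [e0, hc]
      simp
    · have hd0 : (0 : ℝ) < d := by exact_mod_cast hd
      rw [e0]
      exact ((MellinConvergent.comp_mul_left hd0).2 hg1).const_mul _
  set K : ℝ := ∫ t in Ioi (0 : ℝ), ‖(t : ℂ) ^ (w - 1) • g1 1 m t‖ with hK
  have hnorm : ∀ d, ∫ t in Ioi (0 : ℝ), ‖F d t‖ = ‖c d * (d : ℂ) ^ (-w)‖ * K := by
    intro d
    rcases Nat.eq_zero_or_pos d with hd | hd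
    · subst hd
      rw [e0, hc]
      simp
    · have hd0 : (0 : ℝ) < d := by exact_mod_cast hd
      rw [e0]
      simp only [norm_mul]
      rw [integral_const_mul, integral_norm_comp _ _ hd0,
        Complex.norm_natCast_cpow_of_pos hd, neg_re, hK]
      ring
  have hsum : Summable fun d => ∫ t in Ioi (0 : ℝ), ‖F d t‖ := by
    simp only [hnorm]
    exact hs.mul_right K
  have e1 : (fun t : ℝ => (t : ℂ) ^ (w - 1) • eg c m t) = fun t => ∑' d, F d t := by
    funext t
    unfold eg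
    rw [smul_eq_mul, ← tsum_mul_left]
    rfl
  have hmeas : AEStronglyMeasurable (fun t => ∑' d, F d t) (volume.restrict (Ioi 0)) := by
    rw [← e1]
    refine ContinuousOn.aestronglyMeasurable ?_ measurableSet_Ioi
    have hc : ContinuousOn (fun t : ℝ => (t : ℂ) ^ (w - 1)) (Ioi 0) := ?_
    · exact hc.smul (eg_cont ‹_› hm)
    intro t ht
    have ht0 : (0 : ℝ) < t := ht
    refine ContinuousAt.continuousWithinAt ?_
    exact ContinuousAt.cpow continuous_ofReal.continuousAt continuousAt_const (Or.inl (by simpa using ht0))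
  constructor
  · unfold MellinConvergent
    rw [e1]
    exact integrable_tsum' hint hsum hmeas
  · unfold mellin
    rw [e1, ← (hasSum_integral_of_summable_integral_norm hint hsum).tsum_eq]
    have h3 : ∀ d, ∫ t in Ioi (0 : ℝ), F d t = (c d * (d : ℂ) ^ (-w)) * ((m.factorial : ℂ) / dn m w) := by
      intro d
      rcases Nat.eq_zero_or_pos d with hd | hd
      · subst hd
        rw [e0, hc]
        simp
      · have hd0 : (0 : ℝ) < d := by exact_mod_cast hd
        rw [e0, integral_const_mul]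
        have h4 := mellin_comp_mul_left (g1 1 m) w hd0
        unfold mellin at h4 hg2
        rw [h4, hg2, smul_eq_mul, Polynomial.eval_one]
        push_cast
        ring
    simp only [h3]
    rw [tsum_mul_right]

end Pool.Agent.L5helper17.UR
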