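import Pool.Agent.L5helper17.UR.LSq

/-!
# The large sieve for the Riesz means of the squares
-/

set_option autoImplicit false

namespace Pool.Agent.L5helper17.UR

open Complex Filter Topology MeasureTheory Set
open Pool.Agent.Q48.MDS
open Pool.Agent.N879.QM (Is ch vl Q Rp wq)
open Pool.Agent.L5helper17.RF (g1 g1_of_gt)

lemma g1_norm_le (m : ℕ) {t : ℝ} (ht : 0 < t) : ‖g1 1 m t‖ ≤ 1 := by
  rcases le_or_gt t 1 with h | h
  · rw [g1_one m ht h, Complex.norm_real, Real.norm_eq_abs, abs_of_nonneg (pow_nonneg (by linarith) _)]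
    exact pow_le_one₀ (by linarith) (by linarith)
  · rw [g1_of_gt _ _ h]
    simp

theorem ls_sq {η ε : ℝ} (hη : 0 < η) (hε : 0 < ε) (m : ℕ) : ∃ C : ℝ, 0 < C ∧ ∀ (s : ℂ) (X t : ℝ), 1 / 2 + η ≤ s.re →
    1 ≤ X → 0 < t → t ≤ 1 → ∑ q ∈ Q 1 X, ‖eg (cD q s) m t‖ ^ 2 ≤ C * (X / t) ^ ε * (X + 1 / t) := by
  obtain ⟨C1, hC1, h1⟩ := Pool.Agent.N879.QM.t_HBG ε hε
  obtain ⟨C2, hC2, h2⟩ := Pool.Agent.H510R2.divisor_bound (η / 2) (by positivity)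
  obtain ⟨C3, hC3, h3⟩ := wq_sum hη
  refine ⟨C1 * (C2 ^ 2 * C3), by positivity, fun s X t hs hX ht ht1 => ?_⟩
  set K := ⌊1 / t⌋₊ with hK
  have hK1 : 1 ≤ K := Nat.le_floor (by rw [Nat.cast_one]; rwa [one_le_div ht])
  have hKt : (K : ℝ) ≤ 1 / t := Nat.floor_le (by positivity)
  have hKt2 : 1 < ((K + 1 : ℕ) : ℝ) * t := by
    have := Nat.lt_floor_add_one (1 / t)
    rw [div_lt_iff₀ ht] at this
    push_cast
    exact this
  have hK0 : (0 : ℝ) < K := by exact_mod_cast hK1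
  set y : ℕ → ℂ := fun n => (n.divisors.card : ℂ) * (n : ℂ) ^ (-s) * g1 1 m (n * t) with hy
  have e1 : ∀ q ∈ Q 1 X, eg (cD q s) m t = ∑ n ∈ Finset.Icc 1 K, vl 1 q n * y n := by
    intro q hq
    obtain ⟨hF, hq1, _⟩ := mem_Q.1 hq
    rw [eg_eq_sum _ m hKt2 ht, Finset.range_eq_Ico, Finset.sum_eq_sum_Ico_succ_bot (Nat.succ_pos K), cD_zero, zero_mul,
      zero_add]
    refine Finset.sum_congr (by rfl) fun n hn => ?_
    have hn1 : 1 ≤ n := (Finset.mem_Ico.1 hn).1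
    rw [vl_eq_kron hF hq1 hn1]
    simp only [hy, cD]
    ring
  have e2 : ∀ n ∈ Finset.Icc 1 K, ‖y n‖ ^ 2 ≤ C2 ^ 2 * (n : ℝ) ^ (-(1 + η)) := by
    intro n hn
    have hn1 : 1 ≤ n := (Finset.mem_Icc.1 hn).1
    have hn0 : (0 : ℝ) < n := by exact_mod_cast hn1
    have hn1' : (1 : ℝ) ≤ n := by exact_mod_cast hn1
    have a1 : ‖y n‖ ≤ C2 * (n : ℝ) ^ (η / 2) * (n : ℝ) ^ (-(1 / 2 + η)) * 1 := by
      simp only [hy, norm_mul, Complex.norm_natCast]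
      rw [Complex.norm_natCast_cpow_of_pos hn1, neg_re]
      gcongr
      · exact h2 n hn1
      · exact g1_norm_le m (mul_pos hn0 ht)
    have a2 : 0 ≤ ‖y n‖ := norm_nonneg _
    calc ‖y n‖ ^ 2 ≤ (C2 * (n : ℝ) ^ (η / 2) * (n : ℝ) ^ (-(1 / 2 + η)) * 1) ^ 2 := by gcongr
      _ = C2 ^ 2 * ((n : ℝ) ^ (η / 2) * (n : ℝ) ^ (-(1 / 2 + η))) ^ 2 := by ring
      _ = C2 ^ 2 * (n : ℝ) ^ (-(1 + η)) := by
        rw [← Real.rpow_add hn0, ← Real.rpow_natCast ((n : ℝ) ^ _) 2, ← Real.rpow_mul hn0.le]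
        congr 2
        push_cast
        ring
  rw [Finset.sum_congr rfl fun q hq => by rw [e1 q hq]]
  have h4 := h1 1 X K y (Or.inl rfl) hX hK1
  refine h4.trans ?_
  have h5 : ∑ n ∈ Finset.Icc 1 K, wq n * ‖y n‖ ^ 2 ≤ C2 ^ 2 * C3 := by
    calc ∑ n ∈ Finset.Icc 1 K, wq n * ‖y n‖ ^ 2 ≤ ∑ n ∈ Finset.Icc 1 K, wq n * (C2 ^ 2 * (n : ℝ) ^ (-(1 + η))) := by
          refine Finset.sum_le_sum fun n hn => ?_
          have hw : 0 ≤ wq n := Finset.sum_nonneg fun _ _ => Nat.cast_nonneg _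
          exact mul_le_mul_of_nonneg_left (e2 n hn) hw
      _ = C2 ^ 2 * ∑ n ∈ Finset.Icc 1 K, wq n * (n : ℝ) ^ (-(1 + η)) := by
          rw [Finset.mul_sum]
          exact Finset.sum_congr rfl fun n _ => by ring
      _ ≤ C2 ^ 2 * C3 := by
          have := h3 K
          gcongr
  have h50 : 0 ≤ ∑ n ∈ Finset.Icc 1 K, wq n * ‖y n‖ ^ 2 :=
    Finset.sum_nonneg fun n _ => mul_nonneg (Finset.sum_nonneg fun _ _ => Nat.cast_nonneg _) (by positivity)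
  have h6 : X * K ≤ X / t := by
    rw [div_eq_mul_one_div]
    gcongr
  have h7 : (X * K) ^ ε ≤ (X / t) ^ ε := Real.rpow_le_rpow (by positivity) h6 hε.le
  calc C1 * (X * K) ^ ε * (X + K) * ∑ n ∈ Finset.Icc 1 K, wq n * ‖y n‖ ^ 2
      ≤ C1 * (X / t) ^ ε * (X + 1 / t) * (C2 ^ 2 * C3) := by gcongr
    _ = C1 * (C2 ^ 2 * C3) * (X / t) ^ ε * (X + 1 / t) := by ring

end Pool.Agent.L5helper17.UR
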