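import Pool.Agent.L5helper17.UR.Link
import Pool.Agent.L5helper17.UR.Approx2
import Pool.Agent.H510R2.Div

/-!
# The squares of the L-functions and the large sieve
-/

set_option autoImplicit false

namespace Pool.Agent.L5helper17.UR

open Complex Filter Topology MeasureTheory Set
open Pool.Agent.Q48.MDS
open Pool.Agent.L5helper5.LE (Lx Lx_def Lx_eq chr chr_ne chr_apply Lx_conj char_unique Lx_diff)
open Pool.Agent.N879.QM (Is ch vl Q Rp wq)
open Pool.Agent.L5helper17.RF (g1 g1_of_gt g1_cont hasMellin_g1' dn dn_ne wt sc)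

lemma kron_mul {D : ℕ} (hD : FundDisc D) (h1 : 1 < D) {a b : ℕ} (ha : 1 ≤ a) (hb : 1 ≤ b) :
    (kron D (a * b) : ℂ) = (kron D a : ℂ) * (kron D b : ℂ) := by
  rw [← chr_apply hD h1 ha, ← chr_apply hD h1 hb, ← chr_apply hD h1 (Nat.mul_pos ha hb), Nat.cast_mul, map_mul]

/-- the coefficients of `L(s + w, χ)²` -/
noncomputable def cD (D : ℕ) (s : ℂ) (n : ℕ) : ℂ := (n.divisors.card : ℂ) * (kron D n : ℂ) * (n : ℂ) ^ (-s)

lemma cD_zero (D : ℕ) (s : ℂ) : cD D s 0 = 0 := by simp [cD]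

lemma conv_eq {D : ℕ} (hD : FundDisc D) (h1 : 1 < D) {n : ℕ} (hn : 1 ≤ n) :
    (LSeries.convolution (fun n => (kron D n : ℂ)) (fun n => (kron D n : ℂ))) n = (n.divisors.card : ℂ) * (kron D n : ℂ) := by
  rw [LSeries.convolution_def]
  simp only
  rw [Nat.sum_divisorsAntidiagonal (fun a b => (kron D a : ℂ) * (kron D b : ℂ))]
  rw [Finset.sum_congr rfl (g := fun _ => (kron D n : ℂ)) fun i hi => ?_]
  · rw [Finset.sum_const, nsmul_eq_mul]
  · have h2 := Nat.dvd_of_mem_divisors hi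
    have h3 : 1 ≤ i := Nat.pos_of_mem_divisors hi
    have h4 : 1 ≤ n / i := Nat.div_pos (Nat.le_of_dvd hn h2) h3
    rw [← kron_mul hD h1 h3 h4, Nat.mul_div_cancel' h2]

lemma kron_summable (D : ℕ) {u : ℂ} (hu : 1 < u.re) : LSeriesSummable (fun n => (kron D n : ℂ)) u :=
  LSeriesSummable_of_bounded_of_one_lt_re (m := 1) (fun n _ => norm_kron_le D n) hu

lemma term_eq {D : ℕ} (hD : FundDisc D) (h1 : 1 < D) (s w : ℂ) (n : ℕ) : cD D s n * (n : ℂ) ^ (-w) =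
    LSeries.term (LSeries.convolution (fun n => (kron D n : ℂ)) (fun n => (kron D n : ℂ))) (s + w) n := by
  rcases Nat.eq_zero_or_pos n with rfl | hn
  · rw [cD_zero, zero_mul, LSeries.term_zero]
  · have hn0 : (n : ℂ) ≠ 0 := by exact_mod_cast hn.ne'
    rw [LSeries.term_of_ne_zero hn.ne', conv_eq hD h1 hn]
    unfold cD
    rw [mul_assoc, ← cpow_add _ _ hn0, show -s + -w = -(s + w) by ring, cpow_neg, div_eq_mul_inv]

lemma sq_series {D : ℕ} (hD : FundDisc D) (h1 : 1 < D) {s w : ℂ} (hw : 1 < (s + w).re) :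
    (Summable fun n : ℕ => ‖cD D s n * (n : ℂ) ^ (-w)‖) ∧
      ∑' n : ℕ, cD D s n * (n : ℂ) ^ (-w) = Lx D (s + w) ^ 2 := by
  have h2 := kron_summable D hw
  have h3 := h2.convolution h2
  have e : (fun n : ℕ => cD D s n * (n : ℂ) ^ (-w)) =
      LSeries.term (LSeries.convolution (fun n => (kron D n : ℂ)) (fun n => (kron D n : ℂ))) (s + w) :=
    funext fun n => term_eq hD h1 s w n
  constructor
  · have : (fun n : ℕ => ‖cD D s n * (n : ℂ) ^ (-w)‖) = fun n => ‖LSeries.term (LSeries.convolution (fun n => (kron D n : ℂ)) (fun n => (kron D n : ℂ))) (s + w) n‖ :=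
      funext fun n => by rw [term_eq hD h1 s w n]
    rw [this]
    exact h3.norm
  · rw [e]
    show LSeries (LSeries.convolution (fun n => (kron D n : ℂ)) (fun n => (kron D n : ℂ))) (s + w) = _
    rw [LSeries_convolution' h2 h2, Lx_eq hD h1 hw, Lchi, pow_two]

/-- a sum with the weights of the large sieve -/
lemma wq_sum {κ : ℝ} (hκ : 0 < κ) : ∃ C : ℝ, 0 < C ∧ ∀ K : ℕ,
    ∑ n ∈ Finset.Icc 1 K, wq n * (n : ℝ) ^ (-(1 + κ)) ≤ C := by
  have hs1 : Summable fun n : ℕ => (n : ℝ) ^ (-(1 + κ)) := Real.summable_nat_rpow.2 (by linarith)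
  have hs2 : Summable fun n : ℕ => (n : ℝ) ^ (-(1 + 2 * κ)) := Real.summable_nat_rpow.2 (by linarith)
  set S1 := ∑' n : ℕ, (n : ℝ) ^ (-(1 + κ)) with hS1
  set S2 := ∑' n : ℕ, (n : ℝ) ^ (-(1 + 2 * κ)) with hS2
  have hS10 : 0 ≤ S1 := tsum_nonneg fun n => Real.rpow_nonneg (Nat.cast_nonneg n) _
  have hS20 : 0 ≤ S2 := tsum_nonneg fun n => Real.rpow_nonneg (Nat.cast_nonneg n) _
  refine ⟨S2 * S1 + 1, by positivity, fun K => ?_⟩
  have h1 : ∑ n ∈ Finset.Icc 1 K, wq n * (n : ℝ) ^ (-(1 + κ)) ≤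
      ∑ p ∈ Finset.Icc 1 K ×ˢ Finset.Icc 1 K, (p.1 : ℝ) ^ (-(1 + 2 * κ)) * (p.2 : ℝ) ^ (-(1 + κ)) := by
    have e1 : ∑ n ∈ Finset.Icc 1 K, wq n * (n : ℝ) ^ (-(1 + κ)) =
        ∑ x ∈ (Finset.Icc 1 K).sigma (fun n => (Finset.Icc 1 n).filter (fun m => m ^ 2 ∣ n)),
          (x.2 : ℝ) * (x.1 : ℝ) ^ (-(1 + κ)) := by
      rw [Finset.sum_sigma]
      refine Finset.sum_congr rfl fun n _ => ?_
      unfold wq
      rw [Finset.sum_mul]
    rw [e1]
    set A := (Finset.Icc 1 K).sigma (fun n => (Finset.Icc 1 n).filter (fun m => m ^ 2 ∣ n)) with hA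
    set f : (Σ _ : ℕ, ℕ) → ℕ × ℕ := fun x => (x.2, x.1 / x.2 ^ 2) with hf
    have hinj : Set.InjOn f A := by
      rintro ⟨n, m⟩ hx ⟨n', m'⟩ hx' h
      simp only [hA, Finset.mem_coe, Finset.mem_sigma, Finset.mem_Icc, Finset.mem_filter] at hx hx'
      simp only [hf, Prod.mk.injEq] at h
      obtain ⟨rfl, h2⟩ := h
      have h3 : n = n' := by
        rw [← Nat.mul_div_cancel' hx.2.2, ← Nat.mul_div_cancel' hx'.2.2, h2]
      rw [h3]
    have hsub : A.image f ⊆ Finset.Icc 1 K ×ˢ Finset.Icc 1 K := by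
      intro y hy
      rw [Finset.mem_image] at hy
      obtain ⟨⟨n, m⟩, hx, rfl⟩ := hy
      simp only [hA, Finset.mem_sigma, Finset.mem_Icc, Finset.mem_filter] at hx
      obtain ⟨⟨h1, h2⟩, ⟨h3, h4⟩, h5⟩ := hx
      simp only [hf, Finset.mem_product, Finset.mem_Icc]
      refine ⟨⟨h3, h4.trans h2⟩, Nat.div_pos (Nat.le_of_dvd h1 h5) (by positivity), (Nat.div_le_self _ _).trans h2⟩
    have h6 : ∑ x ∈ A, (x.2 : ℝ) * (x.1 : ℝ) ^ (-(1 + κ)) =
        ∑ x ∈ A, (((f x).1 : ℝ) ^ (-(1 + 2 * κ)) * ((f x).2 : ℝ) ^ (-(1 + κ))) := by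
      refine Finset.sum_congr rfl ?_
      rintro ⟨n, m⟩ hx
      simp only [hA, Finset.mem_sigma, Finset.mem_Icc, Finset.mem_filter] at hx
      obtain ⟨⟨h1, h2⟩, ⟨h3, h4⟩, h5⟩ := hx
      simp only [hf]
      have hm0 : (0 : ℝ) < m := by exact_mod_cast h3
      obtain ⟨j, hj⟩ := h5
      have hj0 : 0 < j := by
        rcases Nat.eq_zero_or_pos j with h | h
        · subst h; omega
        · exact h
      have hjr : (0 : ℝ) < j := by exact_mod_cast hj0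
      have e2 : n / m ^ 2 = j := by rw [hj, Nat.mul_div_cancel_left _ (by positivity)]
      rw [e2, hj]
      push_cast
      rw [Real.mul_rpow (by positivity) hjr.le, ← Real.rpow_natCast (m : ℝ) 2, ← Real.rpow_mul hm0.le]
      have e3 : (m : ℝ) * ((m : ℝ) ^ (((2 : ℕ) : ℝ) * (-(1 + κ))) * (j : ℝ) ^ (-(1 + κ))) =
          ((m : ℝ) ^ (1 : ℝ) * (m : ℝ) ^ (((2 : ℕ) : ℝ) * (-(1 + κ)))) * (j : ℝ) ^ (-(1 + κ)) := by
        rw [Real.rpow_one]; ring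
      rw [e3, ← Real.rpow_add hm0]
      have e4 : (1 : ℝ) + ((2 : ℕ) : ℝ) * (-(1 + κ)) = -(1 + 2 * κ) := by push_cast; ring
      rw [e4]
    rw [h6, ← Finset.sum_image (f := fun p : ℕ × ℕ => (p.1 : ℝ) ^ (-(1 + 2 * κ)) * (p.2 : ℝ) ^ (-(1 + κ))) hinj]
    exact Finset.sum_le_sum_of_subset_of_nonneg hsub fun p _ _ => by positivity
  refine h1.trans ?_
  rw [Finset.sum_product]
  simp only [← Finset.mul_sum]
  rw [← Finset.sum_mul]
  have h2 : ∑ n ∈ Finset.Icc 1 K, (n : ℝ) ^ (-(1 + 2 * κ)) ≤ S2 :=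
    hs2.sum_le_tsum _ fun n _ => Real.rpow_nonneg (Nat.cast_nonneg n) _
  have h3 : ∑ n ∈ Finset.Icc 1 K, (n : ℝ) ^ (-(1 + κ)) ≤ S1 :=
    hs1.sum_le_tsum _ fun n _ => Real.rpow_nonneg (Nat.cast_nonneg n) _
  have h4 : 0 ≤ ∑ n ∈ Finset.Icc 1 K, (n : ℝ) ^ (-(1 + κ)) :=
    Finset.sum_nonneg fun n _ => Real.rpow_nonneg (Nat.cast_nonneg n) _
  have h5 := mul_le_mul h2 h3 h4 hS20
  linarith

end Pool.Agent.L5helper17.UR
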