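import Pool.Agent.N879.QM.Hbg
import Pool.Agent.N879.QM.Avg
import Pool.Agent.N879.QM.Uni
import Pool.Agent.L5helper17.RF.Root

/-!
# The family of the positive fundamental discriminants in the two libraries
-/

set_option autoImplicit false

namespace Pool.Agent.L5helper17.UR

open Complex Filter Topology MeasureTheory Set
open Pool.Agent.Q48.MDS
open Pool.Agent.L5helper5.LE (Lx Lx_def chr chr_ne chr_apply Lx_conj char_unique Lx_diff)
open Pool.Agent.N879.QM (Is ch vl Q Rp)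
open Pool.Agent.H306R2.RG

lemma rp_chr {D : ℕ} (hD : FundDisc D) (h1 : 1 < D) : Rp 1 (chr hD h1) := by
  obtain ⟨h2, h3, h4⟩ := Pool.Agent.L5helper17.RF.chr_props hD h1
  refine ⟨h2, h3, chr_ne hD h1, ?_⟩
  have : (chr hD h1) (-1) = 1 := h4
  rw [this]
  norm_num

lemma is_of_fund {D : ℕ} (hD : FundDisc D) (h1 : 1 < D) : Is 1 D := ⟨h1, chr hD h1, rp_chr hD h1⟩

lemma vl_eq_kron {D : ℕ} (hD : FundDisc D) (h1 : 1 < D) {n : ℕ} (hn : 1 ≤ n) : vl 1 D n = (kron D n : ℂ) := by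
  have hI := is_of_fund hD h1
  have h2 : Rp 1 (ch 1 D) := by
    unfold ch
    rw [dif_pos hI]
    exact hI.2.choose_spec
  have h3 := Pool.Agent.N879.QM.t_UNI 1 D _ _ (by omega) h2 (rp_chr hD h1)
  unfold vl
  rw [h3, chr_apply hD h1 hn]

lemma fund_of_is {q : ℕ} (h : Is 1 q) : FundDisc q ∧ 1 < q := by
  have hq := h.1
  refine ⟨?_, hq⟩
  obtain ⟨χ, h1, h2, h3, h4⟩ := h.2
  obtain ⟨φ, d, hφ, hd, hs, hN, hv⟩ := Pool.Agent.H987R2.RGCLS.CLS q (by omega) χ h1 h2 h3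
  subst hN
  obtain ⟨_, χ', _, _, _, hv', hp⟩ := Pool.Agent.H328R9.RG.CC1 φ hφ d hd hs
  have he : χ = χ' := Pool.Agent.N879.QM.uni_ext (by omega) χ χ' fun n hn => by rw [hv n hn, hv' n hn]
  subst he
  rw [h4] at hp
  obtain ⟨ε, hε, hF⟩ := hφ
  have ha : φ.a = if ε = 1 then 0 else 1 := by
    rcases hF with h | h | h | h <;> rw [h] <;> rfl
  have hse : ε = 1 := by
    rcases hε with h | h
    · exact h
    · exfalso
      rw [ha, if_neg (by rw [h]; norm_num)] at hp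
      norm_num at hp
  subst hse
  rcases hF with e | e | e | e <;> rw [e] at hd ⊢ <;> simp only [F8, F4, F1] at hd ⊢
  · right
    refine ⟨2 * d, by ring, Or.inl ?_, ?_⟩
    · have := Nat.odd_iff.1 hd
      omega
    · rw [Nat.squarefree_mul_iff]
      exact ⟨(Nat.coprime_two_left).2 hd, Nat.prime_two.squarefree, hs⟩
  · right
    refine ⟨d, rfl, Or.inr ?_, hs⟩
    omega
  · left
    refine ⟨by omega, ?_⟩
    rwa [one_mul]
  · left
    refine ⟨by omega, ?_⟩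
    rwa [one_mul]

lemma mem_Q {X : ℝ} {q : ℕ} : q ∈ Q 1 X ↔ FundDisc q ∧ 1 < q ∧ (q : ℝ) < X := by
  classical
  unfold Q
  rw [Finset.mem_filter, Finset.mem_Ico, Nat.lt_ceil]
  constructor
  · rintro ⟨⟨h1, h2⟩, h3⟩
    obtain ⟨h4, h5⟩ := fund_of_is h3
    exact ⟨h4, h5, h2⟩
  · rintro ⟨h1, h2, h3⟩
    exact ⟨⟨h2, h3⟩, is_of_fund h1 h2⟩

end Pool.Agent.L5helper17.UR
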