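import Pool.Agent.L5helper17.UR.Quad

/-!
# The fourth moment
-/

set_option autoImplicit false

namespace Pool.Agent.L5helper17.UR

open Complex Filter Topology MeasureTheory Set
open Pool.Agent.Q48.MDS
open Pool.Agent.N879.QM (Is ch vl Q Rp wq)
open Pool.Agent.L5helper5.LE (Lx Lx_def Lx_eq Lx_conj Lx_diff HB)
open Pool.Agent.L5helper17.RF (crude_eps)

/-- the sum of the fourth powers -/
noncomputable def V4 (X : ℝ) (s : ℂ) : ℝ := ∑ q ∈ Q 1 X, ‖Lx q s‖ ^ 4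

lemma V4_nonneg (X : ℝ) (s : ℂ) : 0 ≤ V4 X s := Finset.sum_nonneg fun _ _ => by positivity

/-- the line `1/2 + η` -/
noncomputable def ln (η v : ℝ) : ℂ := ((1 / 2 + η : ℝ) : ℂ) + (v : ℂ) * I

lemma ln_re (η v : ℝ) : (ln η v).re = 1 / 2 + η := by simp [ln]

lemma ln_im (η v : ℝ) : (ln η v).im = v := by simp [ln]

lemma sum_qf (η : ℝ) (E : ℕ) (X v : ℝ) : ∑ q ∈ Q 1 X, qf η E q v = V4 X (ln η v) * (1 + |v|) ^ (4 * E) := by
  unfold V4 qf ln
  rw [Finset.sum_mul]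

theorem step_gen {η ε : ℝ} (hη : 0 < η) (hη1 : η ≤ 1 / 8) (hε : 0 < ε) {CE : ℝ} {E : ℕ} (hCE : 0 ≤ CE)
    (hfe : ∀ D : ℕ, FundDisc D → 1 < D → ∀ v : ℝ, ‖Lx D (((1 / 2 - η : ℝ) : ℂ) + v * I)‖ ≤
      CE * (D : ℝ) ^ η * (1 + |v|) ^ E * ‖Lx D (((1 / 2 + η : ℝ) : ℂ) + v * I)‖) (N : ℕ) :
    ∃ (t0 C1 C2 : ℝ), 0 < t0 ∧ t0 ≤ 1 ∧ 0 ≤ C1 ∧ 0 < C2 ∧ ∀ (X : ℝ) (s : ℂ) (t B : ℝ), 1 ≤ X → 1 / 2 + η ≤ s.re →
      s.re ≤ 1 + η → 0 < t → t ≤ t0 → 0 ≤ B → (∀ v : ℝ, V4 X (ln η v) ≤ B * (1 + |v|) ^ N) →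
      V4 X s ≤ C2 * (X / t) ^ ε * (X + 1 / t) + C1 * t ^ (2 * (s.re - 1 / 2 + η)) * X ^ (4 * η) * B *
        (1 + |s.im|) ^ (4 * E + N) := by
  set m := 4 * E + N + 5 with hm
  obtain ⟨t0, C1, ht0, ht01, hC1, h1⟩ := quad_ineq hη hη1 hCE hfe (m := m) (by omega)
  obtain ⟨C2, hC2, h2⟩ := ls_sq hη hε m
  set W := ∫ y : ℝ, (1 + |y|) ^ (4 * E + N) * wg m y with hW
  have hWi : Integrable fun y : ℝ => (1 + |y|) ^ (4 * E + N) * wg m y := by
    refine poly_wg (A := 1) (M := 4 * E + N) (by fun_prop) (by omega) fun y => ?_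
    rw [abs_of_nonneg (by positivity), one_mul]
  have hW0 : 0 ≤ W := integral_nonneg fun y => mul_nonneg (by positivity) (wg_pos m y).le
  refine ⟨t0, C1 * W, 8 * C2, ht0, ht01, by positivity, by positivity, fun X s t B hX hs1 hs2 ht htt hB hV => ?_⟩
  have hX0 : 0 < X := by linarith
  have hq : ∀ q ∈ Q 1 X, FundDisc q ∧ 1 < q ∧ (q : ℝ) < X := fun q hq => mem_Q.1 hq
  have h3 : V4 X s ≤ ∑ q ∈ Q 1 X, (8 * ‖eg (cD q s) m t‖ ^ 2 + C1 * t ^ (2 * (s.re - 1 / 2 + η)) * X ^ (4 * η) *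
      ∫ y : ℝ, qf η E q (s.im + y) * wg m y) := by
    unfold V4
    refine Finset.sum_le_sum fun q hqq => ?_
    obtain ⟨hF, hq1, hqX⟩ := hq q hqq
    have hq0 : (0 : ℝ) < q := by
      have : 0 < q := by omega
      exact_mod_cast this
    refine ((h1 q hF hq1 s hs1 hs2 t ht htt).2).trans ?_
    have hI : 0 ≤ ∫ y : ℝ, qf η E q (s.im + y) * wg m y :=
      integral_nonneg fun y => mul_nonneg (qf_nonneg _ _ _ _) (wg_pos m y).le
    gcongr
  refine h3.trans ?_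
  rw [Finset.sum_add_distrib, ← Finset.mul_sum, ← Finset.mul_sum]
  have h4 := h2 s X t hs1 hX ht (htt.trans ht01)
  have h5 : ∑ q ∈ Q 1 X, ∫ y : ℝ, qf η E q (s.im + y) * wg m y ≤ W * B * (1 + |s.im|) ^ (4 * E + N) := by
    rw [← integral_finsetSum _ fun q hqq => (h1 q (hq q hqq).1 (hq q hqq).2.1 s hs1 hs2 t ht htt).1]
    have e : W * B * (1 + |s.im|) ^ (4 * E + N) =
        ∫ y : ℝ, (B * (1 + |s.im|) ^ (4 * E + N)) * ((1 + |y|) ^ (4 * E + N) * wg m y) := by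
      rw [integral_const_mul]; ring
    rw [e]
    refine integral_mono_of_nonneg (Eventually.of_forall fun y => ?_) (hWi.const_mul _) (Eventually.of_forall fun y => ?_)
    · exact Finset.sum_nonneg fun q _ => mul_nonneg (qf_nonneg _ _ _ _) (wg_pos m y).le
    · simp only
      rw [← Finset.sum_mul, sum_qf]
      have h6 := hV (s.im + y)
      have h7 := shift_le s.im y
      have hw := (wg_pos m y).le
      calc V4 X (ln η (s.im + y)) * (1 + |s.im + y|) ^ (4 * E) * wg m y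
          ≤ B * (1 + |s.im + y|) ^ N * (1 + |s.im + y|) ^ (4 * E) * wg m y := by gcongr
        _ = B * (1 + |s.im + y|) ^ (4 * E + N) * wg m y := by rw [pow_add]; ring
        _ ≤ B * ((1 + |s.im|) * (1 + |y|)) ^ (4 * E + N) * wg m y := by gcongr
        _ = _ := by rw [mul_pow]; ring
  have h8 : 0 ≤ C1 * t ^ (2 * (s.re - 1 / 2 + η)) * X ^ (4 * η) := by positivity
  have h9 := mul_le_mul_of_nonneg_left h5 h8
  calc 8 * ∑ q ∈ Q 1 X, ‖eg (cD q s) m t‖ ^ 2 + C1 * t ^ (2 * (s.re - 1 / 2 + η)) * X ^ (4 * η) *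
        ∑ q ∈ Q 1 X, ∫ y : ℝ, qf η E q (s.im + y) * wg m y
      ≤ 8 * (C2 * (X / t) ^ ε * (X + 1 / t)) + C1 * t ^ (2 * (s.re - 1 / 2 + η)) * X ^ (4 * η) *
        (W * B * (1 + |s.im|) ^ (4 * E + N)) := by linarith
    _ = _ := by ring

/-- crude bound -/
lemma V4_crude {η : ℝ} (hη : 0 < η) : ∃ B : ℝ, 0 ≤ B ∧ ∀ (X v : ℝ), 1 ≤ X →
    V4 X (ln η v) ≤ ((Q 1 X).card * (B * X) ^ 4) * (1 + |v|) ^ 4 := by
  obtain ⟨B, hB, hb⟩ := crude_eps (ε := 1 / 4) (by norm_num)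
  refine ⟨B, hB, fun X v hX => ?_⟩
  unfold V4
  have h1 : ∀ q ∈ Q 1 X, ‖Lx q (ln η v)‖ ^ 4 ≤ (B * X * (1 + |v|)) ^ 4 := by
    intro q hqq
    obtain ⟨hF, hq1, hqX⟩ := mem_Q.1 hqq
    have h2 := hb q hF hq1 (ln η v) (by rw [ln_re]; linarith)
    rw [Real.rpow_one, pow_one, ln_im] at h2
    gcongr
    refine h2.trans ?_
    gcongr
  refine (Finset.sum_le_sum h1).trans (le_of_eq ?_)
  rw [Finset.sum_const, nsmul_eq_mul]
  ring

theorem mom_line {η ε : ℝ} (hη : 0 < η) (hη1 : η ≤ 1 / 8) (hε : 0 < ε) (hε1 : ε ≤ 1) :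
    ∃ (C : ℝ) (N : ℕ), 0 ≤ C ∧ ∀ (X v : ℝ), 1 ≤ X → V4 X (ln η v) ≤ C * X ^ (1 + ε) * (1 + |v|) ^ N := by
  obtain ⟨CE, E, hCE, hfe⟩ := fe_bound hη (by linarith)
  obtain ⟨R, hR⟩ := exists_nat_ge ((E : ℝ) / η)
  rw [div_le_iff₀ hη] at hR
  set N := 2 * R + 4 with hN
  obtain ⟨t0, C1, C2, ht0, ht01, hC1, hC2, hst⟩ := step_gen hη hη1 (ε := ε / 2) (by positivity) hCE hfe N
  obtain ⟨Bc, hBc, hcr⟩ := V4_crude hη
  set K : ℝ := (2 * C1 + 1) ^ (1 / (4 * η)) with hK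
  have hK1 : 1 ≤ K := Real.one_le_rpow (by linarith) (by positivity)
  have hK0 : 0 < K := by linarith
  have hK4 : K ^ (4 * η) = 2 * C1 + 1 := by
    rw [hK, ← Real.rpow_mul (by linarith), one_div_mul_cancel (by positivity), Real.rpow_one]
  set A := 2 * C2 * (K / t0) ^ 2 with hA
  have hA0 : 0 < A := by positivity
  have hKt : 1 ≤ K / t0 := by rw [one_le_div ht0]; linarith
  -- one step
  have hstep : ∀ (X B : ℝ), 1 ≤ X → 0 ≤ B → (∀ v : ℝ, V4 X (ln η v) ≤ B * (1 + |v|) ^ N) →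
      ∀ v : ℝ, V4 X (ln η v) ≤ (A * X ^ (1 + ε) + B / 2) * (1 + |v|) ^ N := by
    intro X B hX hB hV v
    have hX0 : 0 < X := by linarith
    set T : ℝ := 1 + |v| with hT
    have hT1 : 1 ≤ T := by rw [hT]; linarith [abs_nonneg v]
    have hT0 : 0 < T := by linarith
    have hTR : 1 ≤ T ^ R := one_le_pow₀ hT1
    set t := t0 / (K * X * T ^ R) with ht
    have hden : 1 ≤ K * X * T ^ R := by
      have : 1 ≤ K * X := by nlinarith
      nlinarith
    have ht0' : 0 < t := by positivity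
    have htt : t ≤ t0 := div_le_self ht0.le hden
    have h1 := hst X (ln η v) t B hX (by rw [ln_re]) (by rw [ln_re]; linarith) ht0' htt hB hV
    rw [ln_re, ln_im] at h1
    refine h1.trans ?_
    have e1 : X / t = K / t0 * X ^ 2 * T ^ R := by
      rw [ht]; field_simp
    have e2 : 1 / t = K / t0 * X * T ^ R := by
      rw [ht]; field_simp
    have h2 : (X / t) ^ (ε / 2) ≤ (K / t0) * X ^ ε * T ^ R := by
      rw [e1, Real.mul_rpow (by positivity) (by positivity), Real.mul_rpow (by positivity) (by positivity)]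
      have a1 : (K / t0) ^ (ε / 2) ≤ K / t0 := by
        calc (K / t0) ^ (ε / 2) ≤ (K / t0) ^ (1 : ℝ) := Real.rpow_le_rpow_of_exponent_le hKt (by linarith)
          _ = K / t0 := Real.rpow_one _
      have a2 : (X ^ 2) ^ (ε / 2) = X ^ ε := by
        rw [← Real.rpow_natCast X 2, ← Real.rpow_mul hX0.le]
        congr 1
        push_cast; ring
      have a3 : (T ^ R) ^ (ε / 2) ≤ T ^ R := by
        calc (T ^ R) ^ (ε / 2) ≤ (T ^ R) ^ (1 : ℝ) := Real.rpow_le_rpow_of_exponent_le hTR (by linarith)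
          _ = T ^ R := Real.rpow_one _
      rw [a2]
      gcongr
    have h3 : X + 1 / t ≤ 2 * (K / t0) * X * T ^ R := by
      rw [e2]
      have : X ≤ K / t0 * X * T ^ R := by
        have b1 : 1 ≤ K / t0 * T ^ R := by nlinarith
        nlinarith
      linarith
    have h4 : C2 * (X / t) ^ (ε / 2) * (X + 1 / t) ≤ A * X ^ (1 + ε) * T ^ N := by
      have c1 : 0 ≤ X + 1 / t := by positivity
      calc C2 * (X / t) ^ (ε / 2) * (X + 1 / t) ≤ C2 * ((K / t0) * X ^ ε * T ^ R) * (2 * (K / t0) * X * T ^ R) := by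
            gcongr
        _ = A * (X * X ^ ε) * T ^ (2 * R) := by rw [hA]; ring
        _ = A * X ^ (1 + ε) * T ^ (2 * R) := by rw [Real.rpow_add hX0, Real.rpow_one]
        _ ≤ A * X ^ (1 + ε) * T ^ N := by
            have : T ^ (2 * R) ≤ T ^ N := pow_le_pow_right₀ hT1 (by omega)
            gcongr
    have h5 : C1 * t ^ (2 * (1 / 2 + η - 1 / 2 + η)) * X ^ (4 * η) * B * T ^ (4 * E + N) ≤ B / 2 * T ^ N := by
      have d1 : 2 * (1 / 2 + η - 1 / 2 + η) = 4 * η := by ring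
      rw [d1]
      have d2 : t ^ (4 * η) * X ^ (4 * η) = (t0 / (K * T ^ R)) ^ (4 * η) := by
        rw [← Real.mul_rpow ht0'.le hX0.le]
        congr 1
        rw [ht]; field_simp
      have d3 : (t0 / (K * T ^ R)) ^ (4 * η) ≤ 1 / ((2 * C1 + 1) * T ^ (4 * E)) := by
        calc (t0 / (K * T ^ R)) ^ (4 * η) ≤ (1 / (K * T ^ R)) ^ (4 * η) := by
              refine Real.rpow_le_rpow (by positivity) ?_ (by positivity)
              gcongr
          _ = 1 / (K * T ^ R) ^ (4 * η) := by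
              rw [Real.div_rpow one_pos.le (by positivity), Real.one_rpow]
          _ = 1 / ((2 * C1 + 1) * (T ^ R) ^ (4 * η)) := by
              rw [Real.mul_rpow hK0.le (by positivity), hK4]
          _ ≤ 1 / ((2 * C1 + 1) * T ^ (4 * E)) := by
              have : T ^ (4 * E) ≤ (T ^ R) ^ (4 * η) := by
                rw [← Real.rpow_natCast T R, ← Real.rpow_mul hT0.le, ← Real.rpow_natCast T (4 * E)]
                refine Real.rpow_le_rpow_of_exponent_le hT1 ?_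
                push_cast
                linarith
              have hp : 0 < T ^ (4 * E) := by positivity
              gcongr
      calc C1 * t ^ (4 * η) * X ^ (4 * η) * B * T ^ (4 * E + N) = C1 * (t ^ (4 * η) * X ^ (4 * η)) * B * T ^ (4 * E + N) := by ring
        _ ≤ C1 * (1 / ((2 * C1 + 1) * T ^ (4 * E))) * B * T ^ (4 * E + N) := by
            rw [d2]; gcongr
        _ = (C1 / (2 * C1 + 1)) * B * T ^ N := by
            rw [pow_add]; field_simp
        _ ≤ (1 / 2) * B * T ^ N := by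
            have : C1 / (2 * C1 + 1) ≤ 1 / 2 := by
              rw [div_le_div_iff₀ (by linarith) (by norm_num)]
              linarith
            gcongr
        _ = _ := by ring
    calc C2 * (X / t) ^ (ε / 2) * (X + 1 / t) + C1 * t ^ (2 * (1 / 2 + η - 1 / 2 + η)) * X ^ (4 * η) * B * T ^ (4 * E + N)
        ≤ A * X ^ (1 + ε) * T ^ N + B / 2 * T ^ N := add_le_add h4 h5
      _ = _ := by ring
  refine ⟨2 * A, N, by positivity, fun X v hX => ?_⟩
  have hX0 : 0 < X := by linarith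
  set B0 : ℝ := (Q 1 X).card * (Bc * X) ^ 4 with hB0
  have hB00 : 0 ≤ B0 := by positivity
  have hAX : 0 ≤ A * X ^ (1 + ε) := by positivity
  have hit : ∀ n : ℕ, ∀ v : ℝ, V4 X (ln η v) ≤ (2 * (A * X ^ (1 + ε)) + B0 / 2 ^ n) * (1 + |v|) ^ N := by
    intro n
    induction n with
    | zero =>
      intro v
      have h1 := hcr X v hX
      have h2 : (1 + |v|) ^ 4 ≤ (1 + |v|) ^ N := pow_le_pow_right₀ (by linarith [abs_nonneg v]) (by omega)
      have h3 : B0 * (1 + |v|) ^ 4 ≤ B0 * (1 + |v|) ^ N := mul_le_mul_of_nonneg_left h2 hB00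
      have h4 : 0 ≤ 2 * (A * X ^ (1 + ε)) * (1 + |v|) ^ N := by positivity
      rw [pow_zero, div_one, add_mul]
      linarith
    | succ n ih =>
      intro v
      have h1 := hstep X (2 * (A * X ^ (1 + ε)) + B0 / 2 ^ n) hX (by positivity) ih v
      refine h1.trans (le_of_eq ?_)
      have h5 : B0 / 2 ^ (n + 1) = B0 / 2 ^ n / 2 := by rw [pow_succ, div_div]
      rw [h5]
      ring
  have hlim : Tendsto (fun n : ℕ => (2 * (A * X ^ (1 + ε)) + B0 / 2 ^ n) * (1 + |v|) ^ N) atTop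
      (𝓝 ((2 * (A * X ^ (1 + ε)) + 0) * (1 + |v|) ^ N)) := by
    refine Tendsto.mul_const _ (Tendsto.const_add _ ?_)
    have h1 : Tendsto (fun n : ℕ => B0 * (1 / 2 : ℝ) ^ n) atTop (𝓝 (B0 * 0)) :=
      (tendsto_pow_atTop_nhds_zero_of_lt_one (by norm_num) (by norm_num)).const_mul B0
    rw [mul_zero] at h1
    refine h1.congr fun n => ?_
    rw [one_div, inv_pow, ← div_eq_mul_inv]
  have := ge_of_tendsto' hlim fun n => hit n v
  rw [add_zero] at this
  linarith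

end Pool.Agent.L5helper17.UR
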