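import Pool.Agent.L5helper17.UR.Mom

/-!
# The fourth moment in a half-plane
-/

set_option autoImplicit false

namespace Pool.Agent.L5helper17.UR

open Complex Filter Topology MeasureTheory Set
open Pool.Agent.Q48.MDS
open Pool.Agent.N879.QM (Is ch vl Q Rp wq)
open Pool.Agent.L5helper5.LE (Lx Lx_def Lx_eq Lx_conj Lx_diff HB Zc_mono)
open Pool.Agent.L5helper17.RF (crude_eps)

lemma card_Q_le {X : ℝ} (hX : 1 ≤ X) : ((Q 1 X).card : ℝ) ≤ X := by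
  classical
  have h1 : Q 1 X ⊆ Finset.Ico 1 (⌈X⌉₊) := by
    intro q hq
    obtain ⟨_, h2, h3⟩ := mem_Q.1 hq
    rw [Finset.mem_Ico]
    exact ⟨h2.le, Nat.lt_ceil.2 h3⟩
  have h2 := Finset.card_le_card h1
  rw [Nat.card_Ico] at h2
  have h3 : ((⌈X⌉₊ - 1 : ℕ) : ℝ) ≤ X := by
    have h4 := Nat.ceil_lt_add_one (show 0 ≤ X by linarith)
    have h5 : 1 ≤ ⌈X⌉₊ := Nat.one_le_ceil_iff.2 (by linarith)
    rw [Nat.cast_sub h5]
    push_cast
    linarith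
  exact (Nat.cast_le.2 h2).trans h3

lemma Lx_le_Zc {d : ℕ} (hd : FundDisc d) (h1 : 1 < d) {c : ℝ} (hc : 1 < c) {s : ℂ} (hs : c ≤ s.re) : ‖Lx d s‖ ≤ Zc c := by
  rw [Lx_eq hd h1 (by linarith), Lchi]
  exact (norm_LSeries_le (fun n => norm_kron_le d n) (by linarith)).trans (Zc_mono hc hs)

theorem mom_strip {η ε : ℝ} (hη : 0 < η) (hη1 : η ≤ 1 / 8) (hε : 0 < ε) (hε1 : ε ≤ 1) :
    ∃ (C : ℝ) (N : ℕ), 0 ≤ C ∧ ∀ (X : ℝ) (s : ℂ), 1 ≤ X → 1 / 2 + η ≤ s.re → s.re ≤ 1 + η →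
      V4 X s ≤ C * X ^ (1 + ε) * (1 + |s.im|) ^ N := by
  obtain ⟨C0, N, hC0, h0⟩ := mom_line hη hη1 hε hε1
  obtain ⟨CE, E, hCE, hfe⟩ := fe_bound hη (by linarith)
  obtain ⟨t0, C1, C2, ht0, ht01, hC1, hC2, hst⟩ := step_gen hη hη1 (ε := ε / 2) (by positivity) hCE hfe N
  refine ⟨C2 * (1 / t0) * (2 / t0) + C1 * C0, 4 * E + N, by positivity, fun X s hX hs1 hs2 => ?_⟩
  have hX0 : 0 < X := by linarith
  have ht : 0 < t0 / X := by positivity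
  have htt : t0 / X ≤ t0 := div_le_self ht0.le hX
  have h1 := hst X s (t0 / X) (C0 * X ^ (1 + ε)) hX hs1 hs2 ht htt (by positivity) (fun v => h0 X v hX)
  refine h1.trans ?_
  have hT : (1 : ℝ) ≤ (1 + |s.im|) ^ (4 * E + N) := one_le_pow₀ (by linarith [abs_nonneg s.im])
  have e1 : X / (t0 / X) = (1 / t0) * X ^ 2 := by field_simp
  have e2 : 1 / (t0 / X) = X / t0 := by field_simp
  have hi : 1 ≤ 1 / t0 := by rw [one_le_div ht0]; exact ht01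
  have h2 : (X / (t0 / X)) ^ (ε / 2) ≤ (1 / t0) * X ^ ε := by
    rw [e1, Real.mul_rpow (by positivity) (by positivity)]
    have a1 : (1 / t0) ^ (ε / 2) ≤ 1 / t0 := by
      calc (1 / t0) ^ (ε / 2) ≤ (1 / t0) ^ (1 : ℝ) := Real.rpow_le_rpow_of_exponent_le hi (by linarith)
        _ = 1 / t0 := Real.rpow_one _
    have a2 : (X ^ 2) ^ (ε / 2) = X ^ ε := by
      rw [← Real.rpow_natCast X 2, ← Real.rpow_mul hX0.le]
      congr 1
      push_cast; ring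
    rw [a2]
    gcongr
  have h3 : X + 1 / (t0 / X) ≤ (2 / t0) * X := by
    rw [e2]
    have : X ≤ X / t0 := by rw [le_div_iff₀ ht0]; nlinarith
    calc X + X / t0 ≤ X / t0 + X / t0 := by linarith
      _ = _ := by ring
  have h4 : C2 * (X / (t0 / X)) ^ (ε / 2) * (X + 1 / (t0 / X)) ≤ C2 * (1 / t0) * (2 / t0) * X ^ (1 + ε) := by
    have c1 : 0 ≤ X + 1 / (t0 / X) := by positivity
    calc C2 * (X / (t0 / X)) ^ (ε / 2) * (X + 1 / (t0 / X)) ≤ C2 * ((1 / t0) * X ^ ε) * ((2 / t0) * X) := by gcongr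
      _ = C2 * (1 / t0) * (2 / t0) * (X * X ^ ε) := by ring
      _ = _ := by rw [Real.rpow_add hX0, Real.rpow_one]
  have h5 : (t0 / X) ^ (2 * (s.re - 1 / 2 + η)) * X ^ (4 * η) ≤ 1 := by
    have d1 : t0 / X ≤ 1 := by rw [div_le_one hX0]; linarith
    calc (t0 / X) ^ (2 * (s.re - 1 / 2 + η)) * X ^ (4 * η) ≤ (t0 / X) ^ (4 * η) * X ^ (4 * η) := by
          have := Real.rpow_le_rpow_of_exponent_ge ht d1 (show 4 * η ≤ 2 * (s.re - 1 / 2 + η) by linarith)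
          gcongr
      _ = t0 ^ (4 * η) := by
          rw [← Real.mul_rpow ht.le hX0.le]
          congr 1
          field_simp
      _ ≤ 1 := Real.rpow_le_one ht0.le ht01 (by positivity)
  have h6 : C1 * (t0 / X) ^ (2 * (s.re - 1 / 2 + η)) * X ^ (4 * η) * (C0 * X ^ (1 + ε)) * (1 + |s.im|) ^ (4 * E + N) ≤
      C1 * C0 * X ^ (1 + ε) * (1 + |s.im|) ^ (4 * E + N) := by
    calc C1 * (t0 / X) ^ (2 * (s.re - 1 / 2 + η)) * X ^ (4 * η) * (C0 * X ^ (1 + ε)) * (1 + |s.im|) ^ (4 * E + N)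
        = C1 * ((t0 / X) ^ (2 * (s.re - 1 / 2 + η)) * X ^ (4 * η)) * (C0 * X ^ (1 + ε)) * (1 + |s.im|) ^ (4 * E + N) := by
          ring
      _ ≤ C1 * 1 * (C0 * X ^ (1 + ε)) * (1 + |s.im|) ^ (4 * E + N) := by gcongr
      _ = _ := by ring
  have h7 : C2 * (1 / t0) * (2 / t0) * X ^ (1 + ε) ≤
      C2 * (1 / t0) * (2 / t0) * X ^ (1 + ε) * (1 + |s.im|) ^ (4 * E + N) :=
    le_mul_of_one_le_right (by positivity) hT
  calc _ ≤ C2 * (1 / t0) * (2 / t0) * X ^ (1 + ε) * (1 + |s.im|) ^ (4 * E + N) +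
        C1 * C0 * X ^ (1 + ε) * (1 + |s.im|) ^ (4 * E + N) := add_le_add (h4.trans h7) h6
    _ = _ := by ring

/-- **the fourth moment** -/
theorem mom4 {η ε : ℝ} (hη : 0 < η) (hε : 0 < ε) : ∃ (C : ℝ) (N : ℕ), 0 ≤ C ∧ ∀ (X : ℝ) (s : ℂ), 1 ≤ X →
    1 / 2 + η ≤ s.re → V4 X s ≤ C * X ^ (1 + ε) * (1 + |s.im|) ^ N := by
  set η' := min η (1 / 8) with hη'
  have hη0 : 0 < η' := lt_min hη (by norm_num)
  set ε' := min ε 1 with hε'
  have hε0 : 0 < ε' := lt_min hε one_pos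
  obtain ⟨C, N, hC, h⟩ := mom_strip hη0 (min_le_right _ _) hε0 (min_le_right _ _)
  have hZ := Zc_nonneg (1 + η')
  refine ⟨C + Zc (1 + η') ^ 4, N, by positivity, fun X s hX hs => ?_⟩
  have hX0 : 0 < X := by linarith
  have hT : (1 : ℝ) ≤ (1 + |s.im|) ^ N := one_le_pow₀ (by linarith [abs_nonneg s.im])
  rcases le_or_gt s.re (1 + η') with h1 | h1
  · have h2 := h X s hX (by linarith [min_le_left η (1 / 8)]) h1
    refine h2.trans ?_
    have h3 : X ^ (1 + ε') ≤ X ^ (1 + ε) := Real.rpow_le_rpow_of_exponent_le hX (by linarith [min_le_left ε 1])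
    have h4 : C ≤ C + Zc (1 + η') ^ 4 := by linarith [pow_nonneg hZ 4]
    gcongr
  · have h2 : V4 X s ≤ X * Zc (1 + η') ^ 4 := by
      unfold V4
      calc ∑ q ∈ Q 1 X, ‖Lx q s‖ ^ 4 ≤ ∑ q ∈ Q 1 X, Zc (1 + η') ^ 4 := by
            refine Finset.sum_le_sum fun q hqq => ?_
            obtain ⟨hF, hq1, _⟩ := mem_Q.1 hqq
            exact pow_le_pow_left₀ (norm_nonneg _) (Lx_le_Zc hF hq1 (by linarith) h1.le) 4
        _ = (Q 1 X).card * Zc (1 + η') ^ 4 := by rw [Finset.sum_const, nsmul_eq_mul]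
        _ ≤ X * Zc (1 + η') ^ 4 := mul_le_mul_of_nonneg_right (card_Q_le hX) (by positivity)
    refine h2.trans ?_
    have h3 : X ≤ X ^ (1 + ε) := by
      calc X = X ^ (1 : ℝ) := (Real.rpow_one X).symm
        _ ≤ X ^ (1 + ε) := Real.rpow_le_rpow_of_exponent_le hX (by linarith)
    calc X * Zc (1 + η') ^ 4 ≤ X ^ (1 + ε) * Zc (1 + η') ^ 4 * 1 := by
          rw [mul_one]; gcongr
      _ ≤ X ^ (1 + ε) * Zc (1 + η') ^ 4 * (1 + |s.im|) ^ N := by gcongr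
      _ ≤ (C + Zc (1 + η') ^ 4) * X ^ (1 + ε) * (1 + |s.im|) ^ N := by
          have : 0 ≤ C * X ^ (1 + ε) * (1 + |s.im|) ^ N := by positivity
          nlinarith

end Pool.Agent.L5helper17.UR
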