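import Pool.Agent.L5helper17.UR.Wg

/-!
# The inequality for the fourth powers
-/

set_option autoImplicit false

namespace Pool.Agent.L5helper17.UR

open Complex Filter Topology MeasureTheory Set
open Pool.Agent.Q48.MDS
open Pool.Agent.L5helper5.LE (Lx Lx_def Lx_eq Lx_conj Lx_diff HB)
open Pool.Agent.L5helper17.RF (gr gr_bound Lx_fe crude_eps)

/-- the fourth power on the line `1/2 + η` -/
noncomputable def qf (η : ℝ) (E D : ℕ) (v : ℝ) : ℝ :=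
  ‖Lx D (((1 / 2 + η : ℝ) : ℂ) + ((v : ℝ) : ℂ) * I)‖ ^ 4 * (1 + |v|) ^ (4 * E)

lemma qf_nonneg (η : ℝ) (E D : ℕ) (v : ℝ) : 0 ≤ qf η E D v := by unfold qf; positivity

lemma qf_cont (η : ℝ) (E D : ℕ) : Continuous (qf η E D) := by
  unfold qf
  have h := (Lx_diff D).continuous
  fun_prop

lemma shift_le (a y : ℝ) : 1 + |a + y| ≤ (1 + |a|) * (1 + |y|) := by
  have h1 := abs_add_le a y
  have h2 := abs_nonneg a
  have h3 := abs_nonneg y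
  nlinarith

theorem quad_ineq {η : ℝ} (hη : 0 < η) (hη1 : η ≤ 1 / 8) {CE : ℝ} {E : ℕ} (hCE : 0 ≤ CE)
    (hfe : ∀ D : ℕ, FundDisc D → 1 < D → ∀ v : ℝ, ‖Lx D (((1 / 2 - η : ℝ) : ℂ) + v * I)‖ ≤
      CE * (D : ℝ) ^ η * (1 + |v|) ^ E * ‖Lx D (((1 / 2 + η : ℝ) : ℂ) + v * I)‖) {m : ℕ} (hm : 4 * E + 5 ≤ m) :
    ∃ (t0 C : ℝ), 0 < t0 ∧ t0 ≤ 1 ∧ 0 ≤ C ∧ ∀ D : ℕ, FundDisc D → 1 < D → ∀ s : ℂ, 1 / 2 + η ≤ s.re → s.re ≤ 1 + η →
      ∀ t : ℝ, 0 < t → t ≤ t0 → Integrable (fun y : ℝ => qf η E D (s.im + y) * wg m y) ∧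
      ‖Lx D s‖ ^ 4 ≤ 8 * ‖eg (cD D s) m t‖ ^ 2 + C * t ^ (2 * (s.re - 1 / 2 + η)) * (D : ℝ) ^ (4 * η) *
        ∫ y : ℝ, qf η E D (s.im + y) * wg m y := by
  obtain ⟨t0, ht0, ht01, h⟩ := approx2 (δ := 2 * η) (by linarith) (m := m) (by omega)
  obtain ⟨B, hB, hb⟩ := crude_eps (ε := 1 / 4) (by norm_num)
  have hcr : ∀ D : ℕ, FundDisc D → 1 < D → ∀ u : ℂ, 1 / 4 ≤ u.re → ‖Lx D u‖ ≤ B * D * (1 + |u.im|) := by
    intro D hD h1 u hu
    have := hb D hD h1 u (by linarith)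
    rwa [Real.rpow_one, pow_one] at this
  have hW := wg_int_pos (m := m) (by omega)
  have hCm := Cm_pos m (δ := 2 * η) (by linarith)
  refine ⟨t0, 2 * (1 / Real.pi * Cm m (2 * η)) ^ 2 * CE ^ 4 * ∫ y, wg m y, ht0, ht01, by positivity,
    fun D hD h1 s hs1 hs2 t ht htt => ?_⟩
  have hD0 : (0 : ℝ) < D := by
    have : 0 < D := by omega
    exact_mod_cast this
  set τ := s.im with hτ
  set b := s.re - 1 / 2 + η with hbd
  set F : ℂ → ℂ := fun w => Lx D (s + w) ^ 2 with hF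
  -- the line
  have hline : ∀ y : ℝ, s + (((-b : ℝ) : ℂ) + y * I) = ((1 / 2 - η : ℝ) : ℂ) + ((τ + y : ℝ) : ℂ) * I := by
    intro y
    apply Complex.ext
    · simp only [add_re, ofReal_re, mul_re, ofReal_im, I_re, I_im, hbd]
      ring
    · simp only [add_im, ofReal_im, mul_im, ofReal_re, I_re, I_im, hτ]
      ring
  have hFd : Differentiable ℂ F := by
    intro w
    exact (((Lx_diff D) _).comp w ((differentiableAt_const s).add differentiableAt_id)).pow 2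
  obtain ⟨I1, I2⟩ := h (cD D s) F 1 b ((B * D * (1 + |τ|)) ^ 2) 2 t (cD_zero D s) hFd one_pos (by linarith) (by linarith)
    (by omega) (by
      intro w hw1 hw2
      have h2 : 1 / 4 ≤ (s + w).re := by rw [add_re]; linarith
      have h3 := hcr D hD h1 (s + w) h2
      simp only [hF, norm_pow]
      rw [← mul_pow]
      refine pow_le_pow_left₀ (norm_nonneg _) (h3.trans ?_) 2
      rw [add_im]
      have h4 := shift_le τ w.im
      calc B * D * (1 + |s.im + w.im|) ≤ B * D * ((1 + |τ|) * (1 + |w.im|)) := by gcongr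
        _ = _ := by ring) (by
      intro y
      exact (sq_series hD h1 (s := s) (w := ((1 : ℝ) : ℂ) + y * I) (by
        simp only [add_re, ofReal_re, mul_re, ofReal_im, I_re, I_im]
        linarith)).1) (by
      intro y
      exact (sq_series hD h1 (s := s) (w := ((1 : ℝ) : ℂ) + y * I) (by
        simp only [add_re, ofReal_re, mul_re, ofReal_im, I_re, I_im]
        linarith)).2) ht htt
  -- the functions
  set g : ℝ → ℝ := fun y => ‖Lx D (((1 / 2 + η : ℝ) : ℂ) + ((τ + y : ℝ) : ℂ) * I)‖ ^ 2 * (1 + |τ + y|) ^ (2 * E) with hg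
  have hgc : Continuous g := by
    have h := (Lx_diff D).continuous
    simp only [hg]
    fun_prop
  have hg0 : ∀ y, 0 ≤ g y := fun y => by simp only [hg]; positivity
  have hLb : ∀ y : ℝ, ‖Lx D (((1 / 2 + η : ℝ) : ℂ) + ((τ + y : ℝ) : ℂ) * I)‖ ≤ B * D * (1 + |τ|) * (1 + |y|) := by
    intro y
    have h3 := hcr D hD h1 (((1 / 2 + η : ℝ) : ℂ) + ((τ + y : ℝ) : ℂ) * I) (by simp; linarith)
    have e : (((1 / 2 + η : ℝ) : ℂ) + ((τ + y : ℝ) : ℂ) * I).im = τ + y := by simp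
    rw [e] at h3
    refine h3.trans ?_
    have h4 := shift_le τ y
    calc B * D * (1 + |τ + y|) ≤ B * D * ((1 + |τ|) * (1 + |y|)) := by gcongr
      _ = _ := by ring
  have hgb : ∀ y, |g y| ≤ ((B * D * (1 + |τ|)) ^ 2 * (1 + |τ|) ^ (2 * E)) * (1 + |y|) ^ (2 + 2 * E) := by
    intro y
    rw [abs_of_nonneg (hg0 y)]
    simp only [hg]
    calc ‖Lx D (((1 / 2 + η : ℝ) : ℂ) + ((τ + y : ℝ) : ℂ) * I)‖ ^ 2 * (1 + |τ + y|) ^ (2 * E)
        ≤ (B * D * (1 + |τ|) * (1 + |y|)) ^ 2 * ((1 + |τ|) * (1 + |y|)) ^ (2 * E) := by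
          gcongr
          · exact hLb y
          · exact shift_le τ y
      _ = _ := by rw [mul_pow ((1 : ℝ) + |τ|), mul_pow, pow_add]; ring
  have hgi : Integrable fun y => g y * wg m y := poly_wg hgc (by omega) hgb
  have hq : ∀ y, g y ^ 2 = qf η E D (τ + y) := by
    intro y
    simp only [hg, qf]
    rw [mul_pow, ← pow_mul, ← pow_mul]
    congr 2
    ring
  have hqb : ∀ y, |g y ^ 2| ≤ ((B * D * (1 + |τ|)) ^ 2 * (1 + |τ|) ^ (2 * E)) ^ 2 * (1 + |y|) ^ ((2 + 2 * E) * 2) := by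
    intro y
    rw [abs_pow]
    refine (pow_le_pow_left₀ (abs_nonneg _) (hgb y) 2).trans (le_of_eq ?_)
    rw [mul_pow _ ((1 + |y|) ^ (2 + 2 * E)) 2, ← pow_mul (1 + |y|)]
  have hg2i : Integrable fun y => g y ^ 2 * wg m y := poly_wg (hgc.pow 2) (by omega) hqb
  have hcs := cs_wg (m := m) (by omega) hgi hg2i
  have hJ : ∫ y : ℝ, ‖F (((-b : ℝ) : ℂ) + y * I)‖ * (1 + |y|) ^ (-((m : ℝ) + 1)) ≤
      CE ^ 2 * (D : ℝ) ^ (2 * η) * ∫ y, g y * wg m y := by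
    rw [← integral_const_mul]
    refine integral_mono I1 (hgi.const_mul _) fun y => ?_
    simp only [hF, norm_pow]
    rw [hline y]
    have h5 := hfe D hD h1 (τ + y)
    have h6 : ‖Lx D (((1 / 2 - η : ℝ) : ℂ) + ((τ + y : ℝ) : ℂ) * I)‖ ^ 2 ≤
        CE ^ 2 * (D : ℝ) ^ (2 * η) * g y := by
      calc ‖Lx D (((1 / 2 - η : ℝ) : ℂ) + ((τ + y : ℝ) : ℂ) * I)‖ ^ 2
          ≤ (CE * (D : ℝ) ^ η * (1 + |τ + y|) ^ E * ‖Lx D (((1 / 2 + η : ℝ) : ℂ) + ((τ + y : ℝ) : ℂ) * I)‖) ^ 2 := by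
            gcongr
        _ = CE ^ 2 * ((D : ℝ) ^ η) ^ 2 * g y := by
            simp only [hg]
            rw [pow_mul']
            ring
        _ = _ := by
            rw [← Real.rpow_natCast ((D : ℝ) ^ η) 2, ← Real.rpow_mul hD0.le]
            congr 3
            push_cast
            ring
    have h7 := mul_le_mul_of_nonneg_right h6 (wg_pos m y).le
    unfold wg at h7 ⊢
    linarith
  have hJ0 : 0 ≤ ∫ y : ℝ, ‖F (((-b : ℝ) : ℂ) + y * I)‖ * (1 + |y|) ^ (-((m : ℝ) + 1)) :=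
    integral_nonneg fun y => by positivity
  refine ⟨?_, ?_⟩
  · simp only [← hq]
    exact hg2i
  simp only [← hq]
  have hF0 : ‖F 0‖ = ‖Lx D s‖ ^ 2 := by simp only [hF, add_zero, norm_pow]
  rw [hF0] at I2
  set A := ∫ y, g y * wg m y with hA
  set S := ∫ y, g y ^ 2 * wg m y with hS
  have hA0 : 0 ≤ A := integral_nonneg fun y => mul_nonneg (hg0 y) (wg_pos m y).le
  have hS0 : 0 ≤ S := integral_nonneg fun y => mul_nonneg (sq_nonneg _) (wg_pos m y).le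
  set R := 1 / Real.pi * Cm m (2 * η) with hR
  have hR0 : 0 < R := by positivity
  have htb : 0 < t ^ b := Real.rpow_pos_of_pos ht b
  have hDe : 0 < (D : ℝ) ^ (2 * η) := Real.rpow_pos_of_pos hD0 _
  have h8 : ‖Lx D s‖ ^ 2 ≤ 2 * ‖eg (cD D s) m t‖ + R * t ^ b * (CE ^ 2 * (D : ℝ) ^ (2 * η) * A) :=
    I2.trans (by gcongr)
  have h9 : ‖Lx D s‖ ^ 4 ≤ (2 * ‖eg (cD D s) m t‖ + R * t ^ b * (CE ^ 2 * (D : ℝ) ^ (2 * η) * A)) ^ 2 := by
    have := pow_le_pow_left₀ (by positivity) h8 2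
    rwa [← pow_mul] at this
  have h10 : (2 * ‖eg (cD D s) m t‖ + R * t ^ b * (CE ^ 2 * (D : ℝ) ^ (2 * η) * A)) ^ 2 ≤
      8 * ‖eg (cD D s) m t‖ ^ 2 + 2 * (R * t ^ b * (CE ^ 2 * (D : ℝ) ^ (2 * η) * A)) ^ 2 := by
    have := sq_nonneg (2 * ‖eg (cD D s) m t‖ - R * t ^ b * (CE ^ 2 * (D : ℝ) ^ (2 * η) * A))
    nlinarith
  refine h9.trans (h10.trans ?_)
  have e1 : t ^ (2 * b) = (t ^ b) ^ 2 := by
    rw [← Real.rpow_natCast (t ^ b) 2, ← Real.rpow_mul ht.le]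
    congr 1
    push_cast
    ring
  have e2 : (D : ℝ) ^ (4 * η) = ((D : ℝ) ^ (2 * η)) ^ 2 := by
    rw [← Real.rpow_natCast ((D : ℝ) ^ (2 * η)) 2, ← Real.rpow_mul hD0.le]
    congr 1
    push_cast
    ring
  rw [e1, e2]
  have h11 : (R * t ^ b * (CE ^ 2 * (D : ℝ) ^ (2 * η) * A)) ^ 2 =
      R ^ 2 * (t ^ b) ^ 2 * CE ^ 4 * ((D : ℝ) ^ (2 * η)) ^ 2 * A ^ 2 := by ring
  rw [h11]
  have h12 : R ^ 2 * (t ^ b) ^ 2 * CE ^ 4 * ((D : ℝ) ^ (2 * η)) ^ 2 * A ^ 2 ≤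
      R ^ 2 * (t ^ b) ^ 2 * CE ^ 4 * ((D : ℝ) ^ (2 * η)) ^ 2 * (S * ∫ y, wg m y) := by
    refine mul_le_mul_of_nonneg_left hcs (by positivity)
  calc 8 * ‖eg (cD D s) m t‖ ^ 2 + 2 * (R ^ 2 * (t ^ b) ^ 2 * CE ^ 4 * ((D : ℝ) ^ (2 * η)) ^ 2 * A ^ 2)
      ≤ 8 * ‖eg (cD D s) m t‖ ^ 2 + 2 * (R ^ 2 * (t ^ b) ^ 2 * CE ^ 4 * ((D : ℝ) ^ (2 * η)) ^ 2 * (S * ∫ y, wg m y)) := by
        linarith
    _ = _ := by ring

end Pool.Agent.L5helper17.UR
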