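import Pool.Agent.L5helper17.UR.Block
import Pool.Agent.L5helper5.LE.Dict

/-!
# The regions of the vertices
-/

set_option autoImplicit false

namespace Pool.Agent.L5helper17.UR

open Complex Filter Topology MeasureTheory Set
open Pool.Agent.Q48.MDS
open Pool.Agent.N879.QM (Q)
open Pool.Agent.L5helper5.LE (Lx Lx_diff S P tm tm_diff P_diff P_bound HB im1 im1_ge im1_le Zc_mono LBx half_bound)

variable {k : ℕ}

lemma prod_le_four {ι : Type*} [DecidableEq ι] (I : Finset ι) (hI : I.card ≤ 4) (x : ι → ℝ) (hx : ∀ j ∈ I, 0 ≤ x j) :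
    ∏ j ∈ I, x j ≤ 1 + ∑ j ∈ I, x j ^ 4 := by
  have hs : 0 ≤ ∑ j ∈ I, x j ^ 4 := Finset.sum_nonneg fun j hj => pow_nonneg (hx j hj) 4
  rcases I.eq_empty_or_nonempty with h | h
  · subst h; simp
  obtain ⟨j0, hj0, hmax⟩ := Finset.exists_max_image I x h
  have h1 : ∏ j ∈ I, x j ≤ x j0 ^ I.card := by
    calc ∏ j ∈ I, x j ≤ ∏ _j ∈ I, x j0 := Finset.prod_le_prod hx fun j hj => hmax j hj
      _ = x j0 ^ I.card := by rw [Finset.prod_const]
  rcases le_or_gt (x j0) 1 with h2 | h2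
  · have := pow_le_one₀ (hx j0 hj0) h2 (n := I.card)
    linarith
  · have h3 : x j0 ^ I.card ≤ x j0 ^ 4 := pow_le_pow_right₀ h2.le hI
    have h4 : x j0 ^ 4 ≤ ∑ j ∈ I, x j ^ 4 := Finset.single_le_sum (f := fun j => x j ^ 4) (fun j hj => pow_nonneg (hx j hj) 4) hj0
    linarith

/-- the region -/
def VV (k : ℕ) (w0 η : ℝ) (I : Finset (Fin k)) : Set (Fin (k + 1) → ℝ) :=
  {x | w0 < x 0 ∧ ∀ j : Fin k, (if j ∈ I then 1 / 2 + η else 1 + η) < x j.succ}

lemma isOpen_VV (w0 η : ℝ) (I : Finset (Fin k)) : IsOpen (VV k w0 η I) := by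
  have : VV k w0 η I = {x | w0 < x 0} ∩ ⋂ j : Fin k, {x : Fin (k + 1) → ℝ | (if j ∈ I then 1 / 2 + η else 1 + η) < x j.succ} := by
    ext x; simp [VV]
  rw [this]
  exact (isOpen_lt continuous_const (continuous_apply 0)).inter
    (isOpen_iInter_of_finite fun j => isOpen_lt continuous_const (continuous_apply _))

lemma convex_VV (w0 η : ℝ) (I : Finset (Fin k)) : Convex ℝ (VV k w0 η I) := by
  intro x hx y hy a b ha hb hab
  refine ⟨?_, fun j => ?_⟩
  · exact Pool.Agent.L5helper5.LE.convex_lt_aux ha hb hab hx.1 hy.1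
  · exact Pool.Agent.L5helper5.LE.convex_lt_aux ha hb hab (hx.2 j) (hy.2 j)

theorem vertex_eta {M : ℕ} {η b B : ℝ} {N' : ℕ} (hη : 0 < η) (hb0 : 0 ≤ b) (hB : 0 ≤ B) (hHB : HB (-η) b B N')
    {I I4 : Finset (Fin k)} (h4 : I4 ⊆ I) (hc4 : I4.card ≤ 4) {w0 : ℝ} (hw0 : 1 + (I \ I4).card * b < w0)
    {p : Fin (k + 1) → ℝ} (hp : p ∈ VV k w0 η I) : ContinuesTo k M p := by
  classical
  set c := (I \ I4).card with hc
  have hcb : (0 : ℝ) ≤ c * b := by positivity
  set ε := (w0 - 1 - c * b) / 2 with hε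
  have hε0 : 0 < ε := by rw [hε]; linarith
  obtain ⟨C4, N4, hC4, h44⟩ := mom4 hη hε0
  have hZ := Zc_nonneg (1 + η)
  set Z := Zc (1 + η) ^ (Finset.univ \ I).card with hZd
  have hZ0 : 0 ≤ Z := pow_nonneg hZ _
  set x0 : Fin (k + 1) → ℝ := fun _ => |w0| + 2 + η with hx0
  have hx0V : x0 ∈ VV k w0 η I := by
    refine ⟨?_, fun j => ?_⟩
    · show w0 < |w0| + 2 + η
      linarith [le_abs_self w0]
    · show (if j ∈ I then 1 / 2 + η else 1 + η) < |w0| + 2 + η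
      have := abs_nonneg w0
      split_ifs <;> linarith
  have hx0o : x0 ∈ orth (k + 1) := by
    intro i
    show 1 < |w0| + 2 + η
    linarith [abs_nonneg w0]
  refine continuesTo_of_avg (isOpen_VV w0 η I) (convex_VV w0 η I) hx0V hx0o (w0 := w0) (β := 1 + ε + c * b)
    (C := (1 + I4.card * C4) * B ^ c * Z) (N := N4 + N' * c) (by linarith) (by rw [hε]; linarith)
    (by positivity) (fun x hx => hx.1.le) ?_ hp
  intro z hz X hX
  have hX0 : 0 < X := by linarith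
  have hi1 := im1_ge z
  have hi0 : 0 ≤ im1 z := by linarith
  have hzI : ∀ j ∈ I, 1 / 2 + η < (z j.succ).re := by
    intro j hj
    have : (if j ∈ I then 1 / 2 + η else 1 + η) < (z j.succ).re := hz.2 j
    rwa [if_pos hj] at this
  have hzn : ∀ j ∉ I, 1 + η < (z j.succ).re := by
    intro j hj
    have : (if j ∈ I then 1 / 2 + η else 1 + η) < (z j.succ).re := hz.2 j
    rwa [if_neg hj] at this
  have h1 : ∀ q ∈ Q 1 X, pL q z ≤ (1 + ∑ j ∈ I4, ‖Lx q (z j.succ)‖ ^ 4) * (B ^ c * X ^ (c * b) * im1 z ^ (N' * c)) * Z := by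
    intro q hqq
    obtain ⟨hF, hq1, hqX⟩ := mem_Q.1 hqq
    have hq0 : (0 : ℝ) < q := by
      have : 0 < q := by omega
      exact_mod_cast this
    unfold pL
    have hsplit : ∏ j : Fin k, ‖Lx q (z j.succ)‖ = (∏ j ∈ I4, ‖Lx q (z j.succ)‖) * (∏ j ∈ I \ I4, ‖Lx q (z j.succ)‖) *
        ∏ j ∈ Finset.univ \ I, ‖Lx q (z j.succ)‖ := by
      rw [mul_comm (∏ j ∈ I4, ‖Lx q (z j.succ)‖), Finset.prod_sdiff h4, mul_comm,
        Finset.prod_sdiff (Finset.subset_univ I)]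
    rw [hsplit]
    have a1 := prod_le_four I4 hc4 (fun j => ‖Lx q (z j.succ)‖) (fun j _ => norm_nonneg _)
    have a2 : ∏ j ∈ I \ I4, ‖Lx q (z j.succ)‖ ≤ B ^ c * X ^ (c * b) * im1 z ^ (N' * c) := by
      calc ∏ j ∈ I \ I4, ‖Lx q (z j.succ)‖ ≤ ∏ _j ∈ I \ I4, (B * X ^ b * im1 z ^ N') := by
            refine Finset.prod_le_prod (fun _ _ => norm_nonneg _) fun j hj => ?_
            have hj' := (Finset.mem_sdiff.1 hj).1
            have b1 := hHB q hF hq1 (z j.succ) (by linarith [hzI j hj'])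
            refine b1.trans ?_
            have b2 := im1_le z j.succ
            gcongr
        _ = (B * X ^ b * im1 z ^ N') ^ c := by rw [Finset.prod_const]
        _ = B ^ c * (X ^ b) ^ c * im1 z ^ (N' * c) := by rw [mul_pow, mul_pow, ← pow_mul]
        _ = _ := by
            rw [← Real.rpow_natCast (X ^ b) c, ← Real.rpow_mul hX0.le, mul_comm b]
    have a3 : ∏ j ∈ Finset.univ \ I, ‖Lx q (z j.succ)‖ ≤ Z := by
      calc ∏ j ∈ Finset.univ \ I, ‖Lx q (z j.succ)‖ ≤ ∏ _j ∈ Finset.univ \ I, Zc (1 + η) := by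
            refine Finset.prod_le_prod (fun _ _ => norm_nonneg _) fun j hj => ?_
            exact Lx_le_Zc hF hq1 (by linarith) (hzn j (Finset.mem_sdiff.1 hj).2).le
        _ = Z := by rw [Finset.prod_const]
    have a4 : 0 ≤ ∏ j ∈ I \ I4, ‖Lx q (z j.succ)‖ := Finset.prod_nonneg fun _ _ => norm_nonneg _
    have a5 : 0 ≤ ∏ j ∈ Finset.univ \ I, ‖Lx q (z j.succ)‖ := Finset.prod_nonneg fun _ _ => norm_nonneg _
    have a6 : 0 ≤ 1 + ∑ j ∈ I4, ‖Lx q (z j.succ)‖ ^ 4 :=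
      add_nonneg zero_le_one (Finset.sum_nonneg fun _ _ => by positivity)
    exact mul_le_mul (mul_le_mul a1 a2 a4 a6) a3 a5 (mul_nonneg a6 (a4.trans a2))
  have h2 : ∑ q ∈ Q 1 X, (1 + ∑ j ∈ I4, ‖Lx q (z j.succ)‖ ^ 4) ≤ (1 + I4.card * C4) * X ^ (1 + ε) * im1 z ^ N4 := by
    rw [Finset.sum_add_distrib, Finset.sum_comm]
    have b1 : ∑ _q ∈ Q 1 X, (1 : ℝ) ≤ X ^ (1 + ε) * im1 z ^ N4 := by
      rw [Finset.sum_const, nsmul_eq_mul, mul_one]
      have c1 : X ≤ X ^ (1 + ε) := by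
        calc X = X ^ (1 : ℝ) := (Real.rpow_one X).symm
          _ ≤ X ^ (1 + ε) := Real.rpow_le_rpow_of_exponent_le hX (by linarith)
      have c2 : 1 ≤ im1 z ^ N4 := one_le_pow₀ hi1
      exact ((card_Q_le hX).trans c1).trans (le_mul_of_one_le_right (by positivity) c2)
    have b2 : ∑ j ∈ I4, ∑ q ∈ Q 1 X, ‖Lx q (z j.succ)‖ ^ 4 ≤ ∑ _j ∈ I4, C4 * X ^ (1 + ε) * im1 z ^ N4 := by
      refine Finset.sum_le_sum fun j hj => ?_
      have c1 := h44 X (z j.succ) hX (hzI j (h4 hj)).le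
      unfold V4 at c1
      refine c1.trans ?_
      have c2 := im1_le z j.succ
      gcongr
    rw [Finset.sum_const, nsmul_eq_mul] at b2
    calc _ ≤ X ^ (1 + ε) * im1 z ^ N4 + I4.card * (C4 * X ^ (1 + ε) * im1 z ^ N4) := add_le_add b1 b2
      _ = _ := by ring
  calc ∑ q ∈ Q 1 X, pL q z
      ≤ ∑ q ∈ Q 1 X, (1 + ∑ j ∈ I4, ‖Lx q (z j.succ)‖ ^ 4) * (B ^ c * X ^ (c * b) * im1 z ^ (N' * c)) * Z :=
        Finset.sum_le_sum h1
    _ = (∑ q ∈ Q 1 X, (1 + ∑ j ∈ I4, ‖Lx q (z j.succ)‖ ^ 4)) * ((B ^ c * X ^ (c * b) * im1 z ^ (N' * c)) * Z) := by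
        rw [Finset.sum_mul]
        exact Finset.sum_congr rfl fun q _ => by ring
    _ ≤ ((1 + I4.card * C4) * X ^ (1 + ε) * im1 z ^ N4) * ((B ^ c * X ^ (c * b) * im1 z ^ (N' * c)) * Z) := by
        gcongr
    _ = (1 + I4.card * C4) * B ^ c * Z * X ^ (1 + ε + c * b) * im1 z ^ (N4 + N' * c) := by
        rw [Real.rpow_add hX0 (1 + ε), pow_add]
        ring

/-- **the regions of the vertices** -/
theorem vertex {M : ℕ} {a : ℝ} (ha : 0 ≤ a) (hL : LBx a) {I : Finset (Fin k)} {p : Fin (k + 1) → ℝ}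
    (hw : 1 + ((I.card - 4 : ℕ) : ℝ) * a < p 0) (hI : ∀ j ∈ I, 1 / 2 < p j.succ) (hn : ∀ j ∉ I, 1 < p j.succ) :
    ContinuesTo k M p := by
  classical
  obtain ⟨I4, h4, hc4⟩ := Finset.exists_subset_card_eq (s := I) (n := min 4 I.card) (min_le_right _ _)
  have hcard : (I \ I4).card = I.card - 4 := by
    rw [Finset.card_sdiff_of_subset h4, hc4]
    omega
  -- the margin
  set c : ℝ := ((I.card - 4 : ℕ) : ℝ) with hc
  have hc0 : 0 ≤ c := Nat.cast_nonneg _
  set mg := p 0 - (1 + c * a) with hmg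
  have hmg0 : 0 < mg := by rw [hmg]; linarith
  set δ := min (1 / 4) (mg / (4 * (c + 1)) / 4) with hδ
  have hδ0 : 0 < δ := lt_min (by norm_num) (by positivity)
  obtain ⟨B, N, hB, h⟩ := half_bound ha hL hδ0 (min_le_left _ _)
  obtain ⟨η, hη, hη1⟩ : ∃ η : ℝ, 0 < η ∧ ∀ j : Fin k, (if j ∈ I then 1 / 2 + η else 1 + η) < p j.succ := by
    rcases isEmpty_or_nonempty (Fin k) with he | hne
    · exact ⟨1, one_pos, fun j => (he.false j).elim⟩
    · obtain ⟨j0, -, hj0⟩ := Finset.exists_min_image (Finset.univ : Finset (Fin k))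
        (fun j => p j.succ - (if j ∈ I then 1 / 2 else 1)) Finset.univ_nonempty
      have hpos : ∀ j : Fin k, 0 < p j.succ - (if j ∈ I then 1 / 2 else 1) := by
        intro j
        by_cases hj : j ∈ I
        · rw [if_pos hj]; linarith [hI j hj]
        · rw [if_neg hj]; linarith [hn j hj]
      refine ⟨(p j0.succ - (if j0 ∈ I then 1 / 2 else 1)) / 2, by linarith [hpos j0], fun j => ?_⟩
      have h1 := hj0 j (Finset.mem_univ j)
      have h2 := hpos j0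
      by_cases hj : j ∈ I
      · simp only [if_pos hj] at h1 ⊢
        linarith
      · simp only [if_neg hj] at h1 ⊢
        linarith
  have hHB : HB (-η) (a + 4 * δ) B N := fun d hd h1 s hs => h d hd h1 s (by linarith)
  have hδle : 4 * δ ≤ mg / (4 * (c + 1)) := by
    have := min_le_right (1 / 4 : ℝ) (mg / (4 * (c + 1)) / 4)
    linarith
  have h5 : c * (4 * δ) ≤ mg / 4 := by
    calc c * (4 * δ) ≤ c * (mg / (4 * (c + 1))) := mul_le_mul_of_nonneg_left hδle hc0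
      _ = (c / (c + 1)) * (mg / 4) := by field_simp
      _ ≤ 1 * (mg / 4) := by
          have : c / (c + 1) ≤ 1 := by rw [div_le_one (by linarith)]; linarith
          gcongr
      _ = mg / 4 := one_mul _
  refine vertex_eta (w0 := p 0 - mg / 4) hη (by positivity) hB.le hHB h4 (by rw [hc4]; exact min_le_left _ _) ?_
    ⟨by linarith, hη1⟩
  rw [hcard, ← hc]
  have e : c * (a + 4 * δ) = c * a + c * (4 * δ) := by ring
  rw [e]
  linarith

end Pool.Agent.L5helper17.UR
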