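import Pool.Agent.L5helper17.UR.LS
import Pool.Agent.L5helper17.RF.Far
import Pool.Agent.Helper368_LD.Shift

/-!
# Weights, the functional equation in absolute value
-/

set_option autoImplicit false

namespace Pool.Agent.L5helper17.UR

open Complex Filter Topology MeasureTheory Set
open Pool.Agent.Q48.MDS
open Pool.Agent.L5helper5.LE (Lx Lx_def Lx_eq Lx_conj Lx_diff HB)
open Pool.Agent.L5helper17.RF (gr gr_bound Lx_fe crude_eps)

/-- the weight -/
noncomputable def wg (m : ℕ) (y : ℝ) : ℝ := (1 + |y|) ^ (-((m : ℝ) + 1))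

lemma wg_pos (m : ℕ) (y : ℝ) : 0 < wg m y := Real.rpow_pos_of_pos (by positivity) _

lemma wg_cont (m : ℕ) : Continuous (wg m) := by
  unfold wg
  refine Continuous.rpow_const (by fun_prop) fun y => Or.inl (by positivity)

lemma wg_int {m : ℕ} (hm : 1 ≤ m) : Integrable (wg m) := by
  have hm' : (1 : ℝ) ≤ m := by exact_mod_cast hm
  exact Helper368_LD.integrable_one_add_abs (p := (m : ℝ) + 1) (by linarith)

lemma wg_int_pos {m : ℕ} (hm : 1 ≤ m) : 0 < ∫ y, wg m y :=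
  integral_pos_of_integrable_nonneg_nonzero (x := 0) (wg_cont m) (wg_int hm) (fun y => (wg_pos m y).le) (wg_pos m 0).ne'

lemma poly_wg_le (M m : ℕ) (hM : M + 1 ≤ m) (y : ℝ) : (1 + |y|) ^ M * wg m y ≤ (1 + |y|) ^ (-(2 : ℝ)) := by
  have h0 : (1 : ℝ) ≤ 1 + |y| := by linarith [abs_nonneg y]
  have hM' : (M : ℝ) + 1 ≤ m := by exact_mod_cast hM
  unfold wg
  rw [← Real.rpow_natCast (1 + |y|) M, ← Real.rpow_add (by linarith)]
  exact Real.rpow_le_rpow_of_exponent_le h0 (by linarith)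

lemma poly_wg {f : ℝ → ℝ} (hf : Continuous f) {A : ℝ} {M m : ℕ} (hM : M + 1 ≤ m)
    (hb : ∀ y, |f y| ≤ A * (1 + |y|) ^ M) : Integrable (fun y => f y * wg m y) := by
  have hA : 0 ≤ A := by
    have := (abs_nonneg _).trans (hb 0)
    simpa using this
  refine Integrable.mono' ((Helper368_LD.integrable_one_add_abs (p := 2) (by norm_num)).const_mul A)
    (hf.mul (wg_cont m)).aestronglyMeasurable ?_
  refine Eventually.of_forall fun y => ?_
  rw [Real.norm_eq_abs, abs_mul, abs_of_pos (wg_pos m y)]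
  calc |f y| * wg m y ≤ A * (1 + |y|) ^ M * wg m y := mul_le_mul_of_nonneg_right (hb y) (wg_pos m y).le
    _ = A * ((1 + |y|) ^ M * wg m y) := by ring
    _ ≤ A * (1 + |y|) ^ (-(2 : ℝ)) := mul_le_mul_of_nonneg_left (poly_wg_le M m hM y) hA

lemma cs_wg {f : ℝ → ℝ} {m : ℕ} (hm : 1 ≤ m) (h1 : Integrable fun y => f y * wg m y)
    (h2 : Integrable fun y => f y ^ 2 * wg m y) :
    (∫ y, f y * wg m y) ^ 2 ≤ (∫ y, f y ^ 2 * wg m y) * ∫ y, wg m y := by
  have hW := wg_int_pos hm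
  set W := ∫ y, wg m y with hWd
  set A := ∫ y, f y * wg m y with hA
  set S := ∫ y, f y ^ 2 * wg m y with hS
  have h3 : 0 ≤ ∫ y, (f y - A / W) ^ 2 * wg m y := integral_nonneg fun y => mul_nonneg (sq_nonneg _) (wg_pos m y).le
  have h4 : ∫ y, (f y - A / W) ^ 2 * wg m y = S - 2 * (A / W) * A + (A / W) ^ 2 * W := by
    have e : ∀ y, (f y - A / W) ^ 2 * wg m y = (f y ^ 2 * wg m y - 2 * (A / W) * (f y * wg m y)) + (A / W) ^ 2 * wg m y := by
      intro y; ring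
    simp only [e]
    have i1 : Integrable fun y => 2 * (A / W) * (f y * wg m y) := h1.const_mul _
    have i2 : Integrable fun y => f y ^ 2 * wg m y - 2 * (A / W) * (f y * wg m y) := h2.sub i1
    have i3 : Integrable fun y => (A / W) ^ 2 * wg m y := (wg_int hm).const_mul _
    rw [integral_add i2 i3, integral_sub h2 i1, integral_const_mul, integral_const_mul]
  rw [h4] at h3
  have h5 : S - 2 * (A / W) * A + (A / W) ^ 2 * W = S - A ^ 2 / W := by field_simp; ring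
  rw [h5] at h3
  have h6 : A ^ 2 / W ≤ S := by linarith
  rwa [div_le_iff₀ hW] at h6

/-- the functional equation in absolute value -/
lemma fe_bound {η : ℝ} (hη : 0 < η) (hη1 : η < 1 / 2) : ∃ (C : ℝ) (E : ℕ), 0 ≤ C ∧ ∀ D : ℕ, FundDisc D → 1 < D →
    ∀ v : ℝ, ‖Lx D (((1 / 2 - η : ℝ) : ℂ) + v * I)‖ ≤
      C * (D : ℝ) ^ η * (1 + |v|) ^ E * ‖Lx D (((1 / 2 + η : ℝ) : ℂ) + v * I)‖ := by
  obtain ⟨C, E, hC, h⟩ := gr_bound (a := 1 / 2 - η) (b := 1 / 2 - η) (by linarith)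
  refine ⟨C, E, hC, fun D hD h1 v => ?_⟩
  have hD0 : 0 < D := by omega
  have hre : (((1 / 2 - η : ℝ) : ℂ) + v * I).re = 1 / 2 - η := by simp
  have him : (((1 / 2 - η : ℝ) : ℂ) + v * I).im = v := by simp
  rw [Lx_fe hD h1 (by rw [hre]; linarith), norm_mul, norm_mul, Complex.norm_natCast_cpow_of_pos hD0]
  have e1 : (1 / 2 - (((1 / 2 - η : ℝ) : ℂ) + v * I)).re = η := by
    rw [sub_re, hre]; norm_num
  have e2 : (1 : ℂ) - (((1 / 2 - η : ℝ) : ℂ) + v * I) = (starRingEnd ℂ) (((1 / 2 + η : ℝ) : ℂ) + v * I) := by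
    apply Complex.ext <;> simp; ring
  rw [e1, e2, Lx_conj hD h1 (by simp; linarith), RCLike.norm_conj]
  have h2 := h (((1 / 2 - η : ℝ) : ℂ) + v * I) hre.ge hre.le
  rw [him] at h2
  calc (D : ℝ) ^ η * ‖gr (((1 / 2 - η : ℝ) : ℂ) + v * I)‖ * ‖Lx D (((1 / 2 + η : ℝ) : ℂ) + v * I)‖
      ≤ (D : ℝ) ^ η * (C * (1 + |v|) ^ E) * ‖Lx D (((1 / 2 + η : ℝ) : ℂ) + v * I)‖ := by gcongr
    _ = _ := by ring

end Pool.Agent.L5helper17.UR
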